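import Pool.Agent.Helper10.P5.Asm2
import Pool.Agent.Helper10.PalBasics

/-! The members of the family are palindromes. -/

namespace Pool.Agent.Helper10.P5

open Finset Pool.Agent.Helper10

/-- extension of a digit vector -/
def fe (n : ℕ) (f : Fin (n - 1) → ℕ) (t : ℕ) : ℕ := if h : t < n - 1 then f ⟨t, h⟩ else 1

/-- digits of the palindrome -/
def gd (n : ℕ) (f : Fin (n - 1) → ℕ) (i : ℕ) : ℕ :=
  if i = n then 0 else fe n f (i - n + (n - i) - 1)

lemma gd_symm (n : ℕ) (f : Fin (n - 1) → ℕ) (i : ℕ) (hi : i < 2 * n + 1) :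
    gd n f (2 * n + 1 - 1 - i) = gd n f i := by
  unfold gd
  by_cases h : i = n
  · rw [if_pos (by omega), if_pos h]
  · rw [if_neg (by omega), if_neg h]
    congr 1
    omega

lemma gd_lt (n : ℕ) (f : Fin (n - 1) → ℕ) (hf : f ∈ KK (n - 1) 10) (i : ℕ) : gd n f i < 10 := by
  unfold KK at hf
  rw [Fintype.mem_piFinset] at hf
  unfold gd fe
  split_ifs with h1 h2
  · norm_num
  · exact Finset.mem_range.mp (hf _)
  · norm_num

lemma gd_top (n : ℕ) (hn : 1 ≤ n) (f : Fin (n - 1) → ℕ) : gd n f (2 * n + 1 - 1) ≠ 0 := by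
  unfold gd fe
  rw [if_neg (by omega), dif_neg (by omega)]
  norm_num

lemma Npal_eq (n : ℕ) (hn : 1 ≤ n) (f : Fin (n - 1) → ℕ) :
    Npal n f = ∑ i ∈ range (2 * n + 1), gd n f i * 10 ^ i := by
  have h1 : ∑ i ∈ range (2 * n + 1), gd n f i * 10 ^ i =
      ∑ i ∈ range n, gd n f i * 10 ^ i +
        ∑ i ∈ range n, gd n f (n + (i + 1)) * 10 ^ (n + (i + 1)) := by
    rw [show 2 * n + 1 = n + (n + 1) by ring, Finset.sum_range_add, Finset.sum_range_succ']
    have : gd n f (n + 0) = 0 := by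
      unfold gd
      rw [if_pos (by omega)]
    rw [this]
    ring
  have h2 : ∑ i ∈ range n, gd n f i * 10 ^ i = ∑ i ∈ range n, fe n f i * 10 ^ (n - (i + 1)) := by
    rw [← Finset.sum_range_reflect]
    apply Finset.sum_congr rfl
    intro i hi
    rw [Finset.mem_range] at hi
    unfold gd
    rw [if_neg (by omega), show n - 1 - i - n + (n - (n - 1 - i)) - 1 = i by omega,
      show n - 1 - i = n - (i + 1) by omega]
  have h3 : ∑ i ∈ range n, gd n f (n + (i + 1)) * 10 ^ (n + (i + 1)) =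
      ∑ i ∈ range n, fe n f i * 10 ^ (n + (i + 1)) := by
    apply Finset.sum_congr rfl
    intro i hi
    unfold gd
    rw [if_neg (by omega), show n + (i + 1) - n + (n - (n + (i + 1))) - 1 = i by omega]
  rw [h1, h2, h3, ← Finset.sum_add_distrib]
  obtain ⟨k, rfl⟩ : ∃ k, n = k + 1 := ⟨n - 1, by omega⟩
  rw [Finset.sum_range_succ]
  have h4 : fe (k + 1) f k = 1 := by
    unfold fe
    rw [dif_neg (by omega)]
  rw [h4]
  unfold Npal vl
  have h5 : 10 * ∑ i : Fin (k + 1 - 1), f i * ww 10 (k + 1 - 1) ((i : ℕ) + 1) =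
      ∑ i ∈ range (k + 1 - 1), (fe (k + 1) f i * 10 ^ (k + 1 - (i + 1)) +
        fe (k + 1) f i * 10 ^ (k + 1 + (i + 1))) := by
    rw [Finset.sum_range (fun i => fe (k + 1) f i * 10 ^ (k + 1 - (i + 1)) +
        fe (k + 1) f i * 10 ^ (k + 1 + (i + 1))), Finset.mul_sum]
    apply Finset.sum_congr rfl
    intro i _
    have h6 : fe (k + 1) f (i : ℕ) = f i := by
      unfold fe
      rw [dif_pos i.isLt]
    rw [h6]
    unfold ww
    have hi := i.isLt
    have e1 : 10 ^ (k + 1 - ((i : ℕ) + 1)) = 10 * 10 ^ (k + 1 - 1 - ((i : ℕ) + 1)) := by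
      rw [← pow_succ']
      congr 1
      omega
    have e2 : 10 ^ (k + 1 + ((i : ℕ) + 1)) = 10 * 10 ^ (k + 1 - 1 + ((i : ℕ) + 1)) := by
      rw [← pow_succ']
      congr 1
      omega
    rw [e1, e2]
    ring
  rw [h5]
  simp only [Nat.add_sub_cancel, Nat.sub_self, pow_zero]
  rw [show 2 * (k + 1) = k + 1 + (k + 1) by ring]
  ring

lemma Npal_digits (n : ℕ) (hn : 1 ≤ n) (f : Fin (n - 1) → ℕ) (hf : f ∈ KK (n - 1) 10) :
    (Nat.digits 10 (Npal n f)).length = 2 * n + 1 ∧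
      (Nat.digits 10 (Npal n f)).reverse = Nat.digits 10 (Npal n f) := by
  rw [Npal_eq n hn f, digits_sum_range (gd n f) (2 * n + 1) (by omega)
    (fun i _ => gd_lt n f hf i) (gd_top n hn f)]
  refine ⟨by simp, ?_⟩
  exact reverse_map_range (gd n f) (2 * n + 1) (fun i hi => gd_symm n f i hi)

lemma Npal_inj (n : ℕ) (f f' : Fin (n - 1) → ℕ) (hf : f ∈ KK (n - 1) 10)
    (hf' : f' ∈ KK (n - 1) 10) (h : Npal n f = Npal n f') : f = f' := by
  apply vl_inj (n - 1) 10 (by norm_num) f f' hf hf'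
  unfold Npal at h
  omega

end Pool.Agent.Helper10.P5
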