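import Pool.Agent.Helper10.P5.SCore
import Pool.Agent.Helper10.SupBound

/-! Counting members of the full palindromic family divisible by `q`. -/

namespace Pool.Agent.Helper10.P5

open Finset Pool.Agent.Helper10

/-- sum over reduced residues -/
noncomputable def Psi5 (κ T d : ℕ) : ℝ := ∑ a ∈ AA d, GF κ T (Icc 1 T) ((a : ℝ) / d)

lemma Psi5_nonneg (κ T d : ℕ) : 0 ≤ Psi5 κ T d :=
  Finset.sum_nonneg fun _ _ => GF_nonneg _ _ _ _

/-- number of members of the family divisible by `q` -/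
def cnt5 (κ T N0 q : ℕ) : ℕ := ((KK T 10).filter (fun f => q ∣ N0 + κ * vl T f)).card

lemma KK_card (T : ℕ) : ((KK T 10).card : ℝ) = 10 ^ T := by
  unfold KK
  rw [Fintype.card_piFinset]
  simp

lemma full_expand (κ T : ℕ) (α : ℝ) :
    (10 : ℝ) ^ T * GF κ T (Icc 1 T) α = ‖∑ f ∈ KK T 10, ee (α * ((κ * vl T f : ℕ) : ℝ))‖ := by
  have e1 : (10 : ℝ) ^ T * GF κ T (Icc 1 T) α = ∏ t ∈ Icc 1 T,
      ‖∑ d ∈ range 10, ee ((d : ℝ) * (α * ((κ * ww 10 T t : ℕ) : ℝ)))‖ := by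
    unfold GF ph
    rw [Finset.prod_div_distrib, Finset.prod_const, Nat.card_Icc, Nat.add_sub_cancel,
      ← mul_div_assoc]
    exact mul_div_cancel_left₀ _ (by positivity)
  rw [e1, prod_Icc_fin, ← norm_prod]
  unfold KK
  rw [Finset.prod_univ_sum (fun _ : Fin T => range 10)]
  congr 1
  apply Finset.sum_congr rfl
  intro f _
  rw [← ee_sum]
  congr 1
  unfold vl
  push_cast
  rw [Finset.mul_sum, Finset.mul_sum]
  apply Finset.sum_congr rfl
  intro i _
  ring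

theorem count5 (κ T N0 q : ℕ) (hq : 0 < q) :
    |(cnt5 κ T N0 q : ℝ) - 10 ^ T / q| ≤ 10 ^ T / q * ∑ d ∈ q.divisors.erase 1, Psi5 κ T d := by
  have hq' : (0 : ℝ) < q := by exact_mod_cast hq
  set G : ℝ → ℂ := fun α => ∑ f ∈ KK T 10, ee (α * ((N0 + κ * vl T f : ℕ) : ℝ)) with hG
  have h1 : (q : ℂ) * (cnt5 κ T N0 q : ℂ) = ∑ a ∈ range q, G ((a : ℝ) / q) := by
    simp only [hG]
    rw [Finset.sum_comm]
    have e1 : ∀ f ∈ KK T 10, ∑ a ∈ range q,
        ee ((a : ℝ) / q * ((N0 + κ * vl T f : ℕ) : ℝ)) =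
        if q ∣ N0 + κ * vl T f then (q : ℂ) else 0 := by
      intro f _
      have := sum_ee_eq q hq ((N0 + κ * vl T f : ℕ) : ℤ)
      simp only [Int.natCast_dvd_natCast] at this
      rw [← this]
      apply Finset.sum_congr rfl
      intro a _
      congr 1
      push_cast
      ring
    rw [Finset.sum_congr rfl e1, ← Finset.sum_filter, Finset.sum_const, nsmul_eq_mul]
    unfold cnt5
    ring
  have h2 : ∑ a ∈ range q, G ((a : ℝ) / q) =
      10 ^ T + ∑ d ∈ q.divisors.erase 1, ∑ a ∈ AA d, G ((a : ℝ) / d) := by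
    rw [sum_fractions q hq G, ← Finset.add_sum_erase _ _ (Nat.one_mem_divisors.mpr hq.ne')]
    congr 1
    have : AA 1 = {0} := by
      unfold AA
      ext x
      simp
    rw [this, Finset.sum_singleton]
    simp only [hG]
    have hc := KK_card T
    have hc' : ((KK T 10).card : ℂ) = 10 ^ T := by exact_mod_cast hc
    simp [ee_zero, hc']
  have h3 : ‖(q : ℂ) * (cnt5 κ T N0 q : ℂ) - 10 ^ T‖ ≤
      10 ^ T * ∑ d ∈ q.divisors.erase 1, Psi5 κ T d := by
    rw [h1, h2, add_sub_cancel_left]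
    refine (norm_sum_le _ _).trans ?_
    rw [Finset.mul_sum]
    apply Finset.sum_le_sum
    intro d _
    refine (norm_sum_le _ _).trans ?_
    unfold Psi5
    rw [Finset.mul_sum]
    apply Finset.sum_le_sum
    intro a _
    have e1 : G ((a : ℝ) / d) = ee ((a : ℝ) / d * N0) *
        ∑ f ∈ KK T 10, ee ((a : ℝ) / d * ((κ * vl T f : ℕ) : ℝ)) := by
      simp only [hG]
      rw [Finset.mul_sum]
      apply Finset.sum_congr rfl
      intro f _
      rw [← ee_add]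
      congr 1
      push_cast
      ring
    rw [e1, norm_mul, norm_ee, one_mul, ← full_expand]
  have h4 : ‖(q : ℂ) * (cnt5 κ T N0 q : ℂ) - 10 ^ T‖ = |(q : ℝ) * (cnt5 κ T N0 q : ℝ) - 10 ^ T| := by
    rw [← Real.norm_eq_abs, ← Complex.norm_real]
    congr 1
    push_cast
    rfl
  rw [h4] at h3
  have h5 : (cnt5 κ T N0 q : ℝ) - 10 ^ T / q = ((q : ℝ) * (cnt5 κ T N0 q : ℝ) - 10 ^ T) / q := by
    field_simp
  rw [h5, abs_div, abs_of_pos hq', div_mul_eq_mul_div]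
  exact div_le_div_of_nonneg_right h3 hq'.le

lemma GF_le_FF (κ T : ℕ) (J : Finset ℕ) (α : ℝ) : GF κ T J α ≤ FF κ 10 T J α := by
  unfold GF FF
  apply Finset.prod_le_prod (fun _ _ => ph_nonneg _)
  intro t _
  exact ph_le _

/-- sup bound -/
theorem sup5 : ∃ ρ : ℝ, 0 < ρ ∧ ρ < 1 ∧
    ∀ κ T q a k : ℕ, q.Coprime κ → 1 < q → q.Coprime 10 → a.Coprime q → q ≤ 10 ^ k →
      GF κ T (Icc 1 T) ((a : ℝ) / q) ≤ ρ ^ (T / (2 * k + 3)) := by
  obtain ⟨ρ, h0, h1, h⟩ := sup_bound 10 (by norm_num) (by norm_num)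
  exact ⟨ρ, h0, h1, fun κ T q a k h2 h3 h4 h5 h6 =>
    (GF_le_FF κ T _ _).trans (h κ T q a k h2 h3 h4 h5 h6)⟩

end Pool.Agent.Helper10.P5
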