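import Pool.Agent.Helper10.P5.Grid

/-! Numerical inequalities. -/

namespace Pool.Agent.Helper10.P5

open Finset Pool.Agent.Helper10

lemma num1 (i : ℕ) (hi : i ∈ Icc 1 39) : (Acell 59 i : ℝ) / i ≤ ((Acell 59 i / i + 1 : ℕ) : ℝ) := by
  rw [Finset.mem_Icc] at hi
  have hi0 : (0 : ℝ) < i := by exact_mod_cast (by omega : 0 < i)
  rw [div_le_iff₀ hi0]
  have h1 := Nat.lt_div_mul_add (a := Acell 59 i) (show 0 < i by omega)
  have h2 : Acell 59 i ≤ (Acell 59 i / i + 1) * i := by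
    rw [add_mul, one_mul]
    exact h1.le
  exact_mod_cast h2

set_option maxRecDepth 100000 in
lemma num2 : ∑ i ∈ Icc 1 39, (Acell 59 i / i + 1) = 36000 := by
  decide +kernel

set_option maxRecDepth 100000 in
lemma num3 : ∑ i ∈ Icc 1 59, ∑ j ∈ Icc 1 59, min i j = 70210 := by
  decide +kernel

set_option maxRecDepth 100000 in
lemma num4 : ∑ i ∈ Icc 40 153, ((2 * (154 - i) * 10 ^ 9) / (154 * i * min (158 - i) 80) + 1) =
    18383416 := by
  decide +kernel

lemma num5 : ∑ i ∈ Icc (40 : ℕ) 153, (1 - (i : ℝ) / 154) / ((i : ℝ) * (((min (158 - i) 80 : ℕ) : ℝ) / 2)) ≤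
    18384 / 10 ^ 6 := by
  have h1 : ∀ i ∈ Icc (40 : ℕ) 153, (1 - (i : ℝ) / 154) / ((i : ℝ) * (((min (158 - i) 80 : ℕ) : ℝ) / 2)) ≤
      (((2 * (154 - i) * 10 ^ 9) / (154 * i * min (158 - i) 80) + 1 : ℕ) : ℝ) / 10 ^ 9 := by
    intro i hi
    rw [Finset.mem_Icc] at hi
    set M := min (158 - i) 80 with hM
    have hM0 : 0 < M := by omega
    have hMR : (0 : ℝ) < M := by exact_mod_cast hM0
    have hiR : (0 : ℝ) < i := by exact_mod_cast (by omega : 0 < i)
    have e1 : (1 - (i : ℝ) / 154) / ((i : ℝ) * ((M : ℝ) / 2)) =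
        (((2 * (154 - i) * 10 ^ 9 : ℕ) : ℝ) / ((154 * i * M : ℕ) : ℝ)) / 10 ^ 9 := by
      have hsub : ((154 - i : ℕ) : ℝ) = 154 - i := by
        rw [Nat.cast_sub (by omega)]
        norm_num
      push_cast
      rw [hsub]
      field_simp
      norm_num
    rw [e1]
    apply div_le_div_of_nonneg_right _ (by positivity)
    have hden : (0 : ℝ) < ((154 * i * M : ℕ) : ℝ) := by
      have : 0 < 154 * i * M := by
        have : 0 < i := by omega
        positivity
      exact_mod_cast this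
    rw [div_le_iff₀ hden]
    have h2 := Nat.lt_div_mul_add (a := 2 * (154 - i) * 10 ^ 9) (b := 154 * i * M)
      (by have : 0 < i := by omega
          positivity)
    have h3 : 2 * (154 - i) * 10 ^ 9 ≤ ((2 * (154 - i) * 10 ^ 9) / (154 * i * M) + 1) * (154 * i * M) := by
      rw [add_mul, one_mul]
      exact h2.le
    exact_mod_cast h3
  refine (Finset.sum_le_sum h1).trans ?_
  rw [← Finset.sum_div, ← Nat.cast_sum, num4]
  norm_num

end Pool.Agent.Helper10.P5
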