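import Pool.Agent.Helper10.P5.Mom
import Pool.Agent.Helper10.DivBound

/-! First moments over reduced fractions: all moduli, and squares of primes. -/

namespace Pool.Agent.Helper10.P5

open Finset Pool.Agent.Helper10

lemma S_core {ι : Type*} (X : Finset ι) (F fI fA1 fA2 fB1 fB2 : ι → ℝ) (E : ℝ) (hE : 0 ≤ E) (L : ℕ)
    (h0 : ∀ x ∈ X, 0 ≤ fI x ∧ 0 ≤ fA1 x ∧ 0 ≤ fA2 x ∧ 0 ≤ fB1 x ∧ 0 ≤ fB2 x)
    (hA : ∀ x ∈ X, F x ≤ fI x * fA1 x * fA2 x) (hB : ∀ x ∈ X, F x ≤ fI x * fB1 x * fB2 x)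
    (hB1 : ∑ x ∈ X, fB1 x ^ 2 ≤ E) (hB2 : ∑ x ∈ X, fB2 x ^ 2 ≤ E) (hA2 : ∑ x ∈ X, fA2 x ^ 2 ≤ E)
    (hM : ∑ x ∈ X, (fI x ^ 2 * fA1 x) ^ 2 ≤ E * (67 / 100) ^ L) :
    ∑ x ∈ X, F x ≤ 2 * (95 / 100) ^ L * E := by
  set l : ℝ := (95 / 100) ^ L with hl
  have hl0 : 0 < l := by positivity
  have hl4 : ((67 : ℝ) / 100) ^ L ≤ l ^ 4 := by
    rw [hl, ← pow_mul, mul_comm L 4, pow_mul]
    apply pow_le_pow_left₀ (by norm_num)
    norm_num
  have hpt : ∀ x ∈ X, F x ≤ l / 2 * (fB1 x ^ 2 + fB2 x ^ 2) +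
      1 / (2 * l) * (1 / l ^ 2 * (fI x ^ 2 * fA1 x) ^ 2 + l ^ 2 * fA2 x ^ 2) := by
    intro x hx
    obtain ⟨h1, h2, h3, h4, h5⟩ := h0 x hx
    have hnn1 : 0 ≤ l / 2 * (fB1 x ^ 2 + fB2 x ^ 2) := by positivity
    have hnn2 : 0 ≤ 1 / (2 * l) * (1 / l ^ 2 * (fI x ^ 2 * fA1 x) ^ 2 + l ^ 2 * fA2 x ^ 2) := by
      positivity
    rcases le_total (fI x) l with h | h
    · have h6 : fI x * fB1 x * fB2 x ≤ l / 2 * (fB1 x ^ 2 + fB2 x ^ 2) := by
        have e1 : fI x * fB1 x * fB2 x ≤ l * (fB1 x * fB2 x) := by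
          rw [mul_assoc]
          exact mul_le_mul_of_nonneg_right h (mul_nonneg h4 h5)
        nlinarith [sq_nonneg (fB1 x - fB2 x)]
      linarith [hB x hx]
    · have h6 : fI x * fA1 x * fA2 x ≤
          1 / (2 * l) * (1 / l ^ 2 * (fI x ^ 2 * fA1 x) ^ 2 + l ^ 2 * fA2 x ^ 2) := by
        set u := fI x ^ 2 * fA1 x with hu
        have hu0 : 0 ≤ u := by positivity
        have e1 : l * (fI x * fA1 x * fA2 x) ≤ u * fA2 x := by
          have : l * (fI x * fA1 x * fA2 x) ≤ fI x * (fI x * fA1 x * fA2 x) :=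
            mul_le_mul_of_nonneg_right h (by positivity)
          refine this.trans (le_of_eq ?_)
          rw [hu]
          ring
        have e2 : u * fA2 x ≤ 1 / 2 * (1 / l ^ 2 * u ^ 2 + l ^ 2 * fA2 x ^ 2) := by
          have e3 : 1 / l ^ 2 * u ^ 2 + l ^ 2 * fA2 x ^ 2 - 2 * (u * fA2 x) =
              (u / l - l * fA2 x) ^ 2 := by
            field_simp
            ring
          nlinarith [sq_nonneg (u / l - l * fA2 x)]
        have e4 : l * (fI x * fA1 x * fA2 x) ≤ l *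
            (1 / (2 * l) * (1 / l ^ 2 * u ^ 2 + l ^ 2 * fA2 x ^ 2)) := by
          refine (e1.trans e2).trans (le_of_eq ?_)
          field_simp
        exact le_of_mul_le_mul_left e4 hl0
      linarith [hA x hx]
  refine (Finset.sum_le_sum hpt).trans ?_
  rw [Finset.sum_add_distrib, ← Finset.mul_sum, ← Finset.mul_sum, Finset.sum_add_distrib,
    Finset.sum_add_distrib, ← Finset.mul_sum, ← Finset.mul_sum]
  have h1 : l / 2 * (∑ x ∈ X, fB1 x ^ 2 + ∑ x ∈ X, fB2 x ^ 2) ≤ l / 2 * (E + E) :=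
    mul_le_mul_of_nonneg_left (add_le_add hB1 hB2) (by positivity)
  have h2 : 1 / (2 * l) * (1 / l ^ 2 * ∑ x ∈ X, (fI x ^ 2 * fA1 x) ^ 2 + l ^ 2 * ∑ x ∈ X, fA2 x ^ 2) ≤
      1 / (2 * l) * (1 / l ^ 2 * (E * l ^ 4) + l ^ 2 * E) := by
    apply mul_le_mul_of_nonneg_left _ (by positivity)
    apply add_le_add
    · apply mul_le_mul_of_nonneg_left _ (by positivity)
      exact hM.trans (mul_le_mul_of_nonneg_left hl4 hE)
    · exact mul_le_mul_of_nonneg_left hA2 (by positivity)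
  have h3 : 1 / (2 * l) * (1 / l ^ 2 * (E * l ^ 4) + l ^ 2 * E) = l * E := by
    field_simp
    ring
  calc _ ≤ l / 2 * (E + E) + l * E := by rw [← h3]; exact add_le_add h1 h2
    _ = 2 * l * E := by ring

lemma tau_le_pow (μ : ℝ) (hμ : 1 < μ) : ∃ C' : ℝ, 1 ≤ C' ∧ ∀ r n : ℕ, 1 ≤ n →
    n ≤ 18 * 10 ^ (6 * r + 1) → (tau n : ℝ) ≤ C' * μ ^ r := by
  obtain ⟨k, hk⟩ := pow_unbounded_of_one_lt ((10 : ℝ) ^ 6) hμ
  have hk0 : k ≠ 0 := by
    rintro rfl
    rw [pow_zero] at hk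
    norm_num at hk
  obtain ⟨C0, hC0, hdiv⟩ := divisor_bound k
  have hC0R : (1 : ℝ) ≤ C0 := by exact_mod_cast hC0
  set C' : ℝ := C0 * 180 with hC'
  have hC'1 : 1 ≤ C' := by
    rw [hC']
    linarith
  refine ⟨C', hC'1, ?_⟩
  intro r n hn1 hn2
  have h1 : ((tau n : ℝ)) ^ k ≤ C0 * (n : ℝ) := by exact_mod_cast hdiv n (by omega)
  have h2 : (n : ℝ) ≤ 180 * (10 ^ 6) ^ r := by
    have h3 : (n : ℝ) ≤ 18 * 10 ^ (6 * r + 1) := by exact_mod_cast hn2
    refine h3.trans (le_of_eq ?_)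
    rw [pow_succ, pow_mul]
    ring
  have h3 : ((tau n : ℝ)) ^ k ≤ (C' * μ ^ r) ^ k := by
    calc ((tau n : ℝ)) ^ k ≤ C0 * (n : ℝ) := h1
      _ ≤ C0 * (180 * (10 ^ 6) ^ r) := mul_le_mul_of_nonneg_left h2 (by positivity)
      _ = C' * ((10 : ℝ) ^ 6) ^ r := by rw [hC']; ring
      _ ≤ C' * (μ ^ k) ^ r := by
          apply mul_le_mul_of_nonneg_left _ (by positivity)
          exact pow_le_pow_left₀ (by positivity) hk.le r
      _ ≤ C' ^ k * (μ ^ k) ^ r := by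
          apply mul_le_mul_of_nonneg_right _ (by positivity)
          exact le_self_pow₀ hC'1 hk0
      _ = (C' * μ ^ r) ^ k := by
          rw [mul_pow C' (μ ^ r) k, ← pow_mul, ← pow_mul, mul_comm k r]
  exact (pow_le_pow_iff_left₀ (by positivity) (by positivity) hk0).mp h3

/-- moduli in a decimal block -/
def QT (r : ℕ) : Finset ℕ := (Ioc (10 ^ r) (10 ^ (r + 1))).filter (fun q => q.Coprime 10)

lemma mem_QT (r q : ℕ) : q ∈ QT r ↔ (10 ^ r < q ∧ q ≤ 10 ^ (r + 1)) ∧ q.Coprime 10 := by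
  unfold QT
  rw [Finset.mem_filter, Finset.mem_Ioc]

lemma QT_card (r : ℕ) : (QT r).card ≤ 9 * 10 ^ r := by
  unfold QT
  refine (Finset.card_filter_le _ _).trans ?_
  rw [Nat.card_Ioc, pow_succ]
  omega

/-- squares of primes in a decimal block -/
def SQ (r : ℕ) : Finset ℕ := ((QT r).filter Nat.Prime).image (fun p => p ^ 2)

/-- parameters for the decay -/
lemma decay_params (g : ℕ) (hg : 1 ≤ g) : ∃ σ μ θ : ℝ, 0 < σ ∧ σ < 1 ∧ 1 < μ ∧ 0 < θ ∧ θ < 1 ∧
    σ * μ = θ ∧ ∀ r : ℕ, ((95 : ℝ) / 100) ^ (r / g) ≤ 2 * σ ^ r := by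
  have hgR : (1 : ℝ) ≤ g := by exact_mod_cast hg
  have hx1 : (1 : ℝ) / 20 / g ≤ 1 / 20 := by
    rw [div_le_iff₀ (by linarith)]
    nlinarith
  have hx0 : (0 : ℝ) < 1 / 20 / g := by positivity
  set σ : ℝ := 1 - 1 / 20 / g with hσ
  have hσ0 : 0 < σ := by rw [hσ]; linarith
  have hσ1 : σ < 1 := by rw [hσ]; linarith
  have hσg : (95 : ℝ) / 100 ≤ σ ^ g := by
    have h := one_add_mul_le_pow (a := -(1 / 20 / (g : ℝ))) (by linarith) g
    have e : 1 + (g : ℝ) * -(1 / 20 / (g : ℝ)) = 95 / 100 := by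
      field_simp
      norm_num
    rw [e] at h
    rw [hσ]
    exact h
  have hσinv : 1 < 1 / σ := by
    rw [lt_div_iff₀ hσ0]
    linarith
  refine ⟨σ, (1 + 1 / σ) / 2, (1 + σ) / 2, hσ0, hσ1, by linarith, by linarith, by linarith, ?_, ?_⟩
  · field_simp
    ring
  · intro r
    have h1 : r ≤ g * (r / g + 1) := by
      have := Nat.div_add_mod r g
      have := Nat.mod_lt r (by omega : 0 < g)
      have e : g * (r / g + 1) = g * (r / g) + g := by ring
      omega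
    have h2 : ((95 : ℝ) / 100) ^ (r / g + 1) ≤ σ ^ r := by
      calc ((95 : ℝ) / 100) ^ (r / g + 1) ≤ (σ ^ g) ^ (r / g + 1) :=
            pow_le_pow_left₀ (by norm_num) hσg _
        _ = σ ^ (g * (r / g + 1)) := by rw [← pow_mul]
        _ ≤ σ ^ r := pow_le_pow_of_le_one hσ0.le hσ1.le h1
    rw [pow_succ] at h2
    have h3 : (0 : ℝ) ≤ (95 / 100) ^ (r / g) := by positivity
    have h4 : 0 ≤ σ ^ r := by positivity
    linarith

lemma card_filter_dvd_le (S : Finset ℕ) (n : ℕ) (hn : 1 ≤ n) :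
    (S.filter (fun q => q ∣ n)).card ≤ tau n := by
  unfold tau
  apply Finset.card_le_card
  intro q hq
  rw [Finset.mem_filter] at hq
  rw [Nat.mem_divisors]
  exact ⟨hq.2, by omega⟩

/-- the `T2` bound for one block of length `r` -/
lemma T2_block (κ T ℓ Qm D r : ℕ) (A : Finset ℕ)
    (hκ : ∀ q : ℕ, q.Coprime 10 → q.Coprime κ) (hℓ : ℓ ≤ T) (hA : A ⊆ Icc 1 ℓ) (hAc : A.card = r)
    (S : Finset ℕ) (hS : ∀ q ∈ S, 0 < q ∧ q ≤ Qm ∧ q.Coprime 10) (hSc : S.card ≤ 9 * 10 ^ r)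
    (hD : ∀ n : ℕ, 1 ≤ n → n ≤ 18 * 10 ^ (2 * ℓ + 1) → tau n ≤ D) :
    ∑ q ∈ S, ∑ a ∈ AA q, GF κ T A ((a : ℝ) / q) ^ 2 ≤ Qm * (9 + D) := by
  have h := T2_gen κ T ℓ Qm D ∅ A hκ hℓ (Finset.empty_subset _) hA (Finset.disjoint_empty_left _) S
    hS (fun n hn1 hn2 => (card_filter_dvd_le S n hn1).trans (hD n hn1 hn2))
  have e1 : ∑ q ∈ S, ∑ a ∈ AA q, GF κ T A ((a : ℝ) / q) ^ 2 =
      ∑ q ∈ S, ∑ a ∈ AA q, (GF κ T ∅ ((a : ℝ) / q) ^ 2 * GF κ T A ((a : ℝ) / q)) ^ 2 := by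
    apply Finset.sum_congr rfl
    intro q _
    apply Finset.sum_congr rfl
    intro a _
    unfold GF
    rw [Finset.prod_empty]
    ring
  rw [e1]
  refine h.trans ?_
  apply mul_le_mul_of_nonneg_left _ (by positivity)
  rw [Finset.card_empty, pow_zero, one_mul, hAc]
  have h2 : (S.card : ℝ) * (1 / 10) ^ r ≤ 9 := by
    have h3 : (S.card : ℝ) ≤ 9 * 10 ^ r := by exact_mod_cast hSc
    calc (S.card : ℝ) * (1 / 10) ^ r ≤ 9 * 10 ^ r * (1 / 10) ^ r :=
          mul_le_mul_of_nonneg_right h3 (by positivity)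
      _ = 9 := by rw [mul_assoc, ← mul_pow]; norm_num
  linarith

/-- first moment over all moduli in a decimal block -/
theorem S_all (g : ℕ) (hg : 1 ≤ g) : ∃ C θ : ℝ, 0 < C ∧ 0 < θ ∧ θ < 1 ∧
    ∀ κ T r : ℕ, (∀ q : ℕ, q.Coprime 10 → q.Coprime κ) → 2 * r + r / g ≤ T →
      ∑ q ∈ QT r, ∑ a ∈ AA q, GF κ T (Icc 1 T) ((a : ℝ) / q) ≤ C * (10 * θ) ^ r := by
  classical
  obtain ⟨σ, μ, θ, hσ0, hσ1, hμ1, hθ0, hθ1, hσμ, hdec⟩ := decay_params g hg
  obtain ⟨C', hC'1, hτ⟩ := tau_le_pow μ hμ1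
  refine ⟨4040 * C', θ, by positivity, hθ0, hθ1, ?_⟩
  intro κ T r hκ hT
  have h1 := hdec r
  obtain ⟨L, hL⟩ : ∃ L, L = r / g := ⟨_, rfl⟩
  rw [← hL] at hT h1
  have hLr : L ≤ r := by rw [hL]; exact Nat.div_le_self _ _
  clear hL
  set D : ℕ := ⌊C' * μ ^ r⌋₊ with hDdef
  have hμr : (1 : ℝ) ≤ μ ^ r := one_le_pow₀ hμ1.le
  have hDle : (D : ℝ) ≤ C' * μ ^ r := Nat.floor_le (by positivity)
  set t1 := L + 2 * r with ht1
  have hD : ∀ n : ℕ, 1 ≤ n → n ≤ 18 * 10 ^ (2 * t1 + 1) → tau n ≤ D := by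
    intro n hn1 hn2
    apply Nat.le_floor
    apply hτ r n hn1
    refine hn2.trans ?_
    apply Nat.mul_le_mul_left
    exact Nat.pow_le_pow_right (by norm_num) (by omega)
  have hS : ∀ q ∈ QT r, 0 < q ∧ q ≤ 10 ^ (r + 1) ∧ q.Coprime 10 := by
    intro q hq
    rw [mem_QT] at hq
    exact ⟨by omega, hq.1.2, hq.2⟩
  have hsub : ∀ a b : ℕ, 0 ≤ a → b ≤ t1 → Ioc a b ⊆ Icc 1 t1 := by
    intro a b _ hb t ht
    rw [Finset.mem_Ioc] at ht
    rw [Finset.mem_Icc]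
    omega
  have hcard : ∀ a b : ℕ, (Ioc a b).card = b - a := fun a b => Nat.card_Ioc a b
  set E : ℝ := 10 ^ r * (1000 + 10 * D) with hE
  have hE0 : 0 ≤ E := by positivity
  have hblock : ∀ A : Finset ℕ, A ⊆ Icc 1 t1 → A.card = r →
      ∑ q ∈ QT r, ∑ a ∈ AA q, GF κ T A ((a : ℝ) / q) ^ 2 ≤ E := by
    intro A hA hAc
    refine (T2_block κ T t1 (10 ^ (r + 1)) D r A hκ (by omega) hA hAc (QT r) hS (QT_card r) hD).trans ?_
    rw [hE]
    push_cast
    rw [pow_succ]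
    have h10 : (0 : ℝ) < 10 ^ r := by positivity
    nlinarith
  have hM : ∑ q ∈ QT r, ∑ a ∈ AA q,
      (GF κ T (Icc 1 L) ((a : ℝ) / q) ^ 2 * GF κ T (Ioc L r) ((a : ℝ) / q)) ^ 2 ≤
      E * (67 / 100) ^ L := by
    have h := LS_gen κ T r (10 ^ (r + 1)) (Icc 1 L) (Ioc L r) hκ (by omega)
      (Finset.Icc_subset_Icc_right hLr) (by
        intro t ht
        rw [Finset.mem_Ioc] at ht
        rw [Finset.mem_Icc]
        omega) (by
        rw [Finset.disjoint_left]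
        intro t ht ht'
        rw [Finset.mem_Icc] at ht
        rw [Finset.mem_Ioc] at ht'
        omega) (QT r) hS (Nat.one_le_pow _ _ (by norm_num)) (by
        rw [← pow_mul, show (r + 1) * 2 = (2 * r + 1) + 1 by ring, pow_succ]
        have : 0 < 10 ^ (2 * r + 1) := by positivity
        omega)
    refine h.trans ?_
    rw [Nat.card_Icc, hcard, Nat.add_sub_cancel]
    have e1 : ((67 : ℝ) / 1000) ^ L * (1 / 10) ^ (r - L) = (67 / 100) ^ L * (1 / 10) ^ r := by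
      have : ((67 : ℝ) / 1000) ^ L = (67 / 100) ^ L * (1 / 10) ^ L := by
        rw [← mul_pow]; norm_num
      rw [this, mul_assoc, ← pow_add]
      congr 2
      omega
    rw [e1]
    have e2 : (5 : ℝ) * ((18 * 10 ^ (2 * r + 1) + 1 : ℕ) : ℝ) * (1 / 10) ^ r ≤ E := by
      rw [hE]
      push_cast
      have h10 : (0 : ℝ) < 10 ^ r := by positivity
      have h11 : (1 : ℝ) ≤ 10 ^ r := one_le_pow₀ (by norm_num)
      have e3 : (10 : ℝ) ^ (2 * r + 1) = 10 * 10 ^ r * 10 ^ r := by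
        rw [pow_succ, two_mul, pow_add]; ring
      have e4 : (1 / 10 : ℝ) ^ r = 1 / 10 ^ r := by rw [div_pow, one_pow]
      rw [e3, e4]
      have hD0 : (0 : ℝ) ≤ D := by positivity
      rw [mul_one_div, div_le_iff₀ h10]
      nlinarith [mul_pos h10 h10]
    calc (5 : ℝ) * ((18 * 10 ^ (2 * r + 1) + 1 : ℕ) : ℝ) * ((67 / 100) ^ L * (1 / 10) ^ r)
        = (5 : ℝ) * ((18 * 10 ^ (2 * r + 1) + 1 : ℕ) : ℝ) * (1 / 10) ^ r * (67 / 100) ^ L := by ring
      _ ≤ E * (67 / 100) ^ L := mul_le_mul_of_nonneg_right e2 (by positivity)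
  have key := S_core ((QT r).sigma (fun q => AA q))
    (fun p : (Σ _ : ℕ, ℕ) => GF κ T (Icc 1 T) ((p.2 : ℝ) / p.1))
    (fun p => GF κ T (Icc 1 L) ((p.2 : ℝ) / p.1)) (fun p => GF κ T (Ioc L r) ((p.2 : ℝ) / p.1))
    (fun p => GF κ T (Ioc r (2 * r)) ((p.2 : ℝ) / p.1))
    (fun p => GF κ T (Ioc L (L + r)) ((p.2 : ℝ) / p.1))
    (fun p => GF κ T (Ioc (L + r) (L + 2 * r)) ((p.2 : ℝ) / p.1)) E hE0 L
    (fun p _ => ⟨GF_nonneg _ _ _ _, GF_nonneg _ _ _ _, GF_nonneg _ _ _ _, GF_nonneg _ _ _ _,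
      GF_nonneg _ _ _ _⟩)
    (fun p _ => by
      rw [← GF_union, ← GF_union]
      · apply GF_anti
        intro t ht
        simp only [Finset.mem_union, Finset.mem_Ioc, Finset.mem_Icc] at ht ⊢
        omega
      · rw [Finset.disjoint_left]
        intro t ht
        simp only [Finset.mem_union, Finset.mem_Ioc, Finset.mem_Icc] at ht ⊢
        omega
      · rw [Finset.disjoint_left]
        intro t ht
        simp only [Finset.mem_Ioc, Finset.mem_Icc] at ht ⊢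
        omega)
    (fun p _ => by
      rw [← GF_union, ← GF_union]
      · apply GF_anti
        intro t ht
        simp only [Finset.mem_union, Finset.mem_Ioc, Finset.mem_Icc] at ht ⊢
        omega
      · rw [Finset.disjoint_left]
        intro t ht
        simp only [Finset.mem_union, Finset.mem_Ioc, Finset.mem_Icc] at ht ⊢
        omega
      · rw [Finset.disjoint_left]
        intro t ht
        simp only [Finset.mem_Ioc, Finset.mem_Icc] at ht ⊢
        omega)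
    (by
      rw [Finset.sum_sigma]
      exact hblock _ (hsub _ _ (Nat.zero_le _) (by omega)) (by rw [hcard]; omega))
    (by
      rw [Finset.sum_sigma]
      exact hblock _ (hsub _ _ (Nat.zero_le _) (by omega)) (by rw [hcard]; omega))
    (by
      rw [Finset.sum_sigma]
      exact hblock _ (hsub _ _ (Nat.zero_le _) (by omega)) (by rw [hcard]; omega))
    (by
      rw [Finset.sum_sigma]
      exact hM)
  rw [Finset.sum_sigma] at key
  refine key.trans ?_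
  have h2 : E ≤ 10 ^ r * (1010 * (C' * μ ^ r)) := by
    rw [hE]
    apply mul_le_mul_of_nonneg_left _ (by positivity)
    have : 1 ≤ C' * μ ^ r := by nlinarith
    linarith
  calc 2 * (95 / 100) ^ L * E ≤ 2 * (2 * σ ^ r) * (10 ^ r * (1010 * (C' * μ ^ r))) := by
        apply mul_le_mul _ h2 hE0 (by positivity)
        linarith
    _ = 4040 * C' * (10 * (σ * μ)) ^ r := by rw [mul_pow, mul_pow]; ring
    _ = 4040 * C' * (10 * θ) ^ r := by rw [hσμ]

lemma mem_SQ (r q : ℕ) : q ∈ SQ r ↔ ∃ p, p ∈ QT r ∧ p.Prime ∧ p ^ 2 = q := by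
  unfold SQ
  rw [Finset.mem_image]
  constructor
  · rintro ⟨p, hp, rfl⟩
    rw [Finset.mem_filter] at hp
    exact ⟨p, hp.1, hp.2, rfl⟩
  · rintro ⟨p, h1, h2, h3⟩
    exact ⟨p, Finset.mem_filter.mpr ⟨h1, h2⟩, h3⟩

lemma SQ_card (r : ℕ) : (SQ r).card ≤ 9 * 10 ^ r := by
  unfold SQ
  exact (Finset.card_image_le.trans (Finset.card_filter_le _ _)).trans (QT_card r)

lemma SQ_spec (r q : ℕ) (hq : q ∈ SQ r) :
    0 < q ∧ q ≤ 10 ^ (2 * r + 2) ∧ q.Coprime 10 ∧ 10 ^ (2 * r) < q := by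
  rw [mem_SQ] at hq
  obtain ⟨p, hp, _, rfl⟩ := hq
  rw [mem_QT] at hp
  have h1 : 10 ^ (2 * r) < p ^ 2 := by
    rw [mul_comm, pow_mul]
    exact Nat.pow_lt_pow_left hp.1.1 (by norm_num)
  refine ⟨(Nat.zero_le _).trans_lt h1, ?_, Nat.Coprime.pow_left 2 hp.2, h1⟩
  calc p ^ 2 ≤ (10 ^ (r + 1)) ^ 2 := Nat.pow_le_pow_left hp.1.2 2
    _ = 10 ^ (2 * r + 2) := by rw [← pow_mul]; congr 1; ring

/-- first moment over squares of primes in a decimal block -/
theorem S_sq (g : ℕ) (hg : 2 ≤ g) : ∃ C θ : ℝ, 0 < C ∧ 0 < θ ∧ θ < 1 ∧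
    ∀ κ T r : ℕ, (∀ q : ℕ, q.Coprime 10 → q.Coprime κ) → 2 * r + r / g ≤ T →
      ∑ q ∈ SQ r, ∑ a ∈ AA q, GF κ T (Icc 1 T) ((a : ℝ) / q) ≤ C * (100 * θ) ^ r := by
  classical
  obtain ⟨σ, μ, θ, hσ0, hσ1, hμ1, hθ0, hθ1, hσμ, hdec⟩ := decay_params g (by omega)
  obtain ⟨C', hC'1, hτ⟩ := tau_le_pow μ hμ1
  refine ⟨400000 * C' + 10 ^ 12 / θ ^ 3, θ, by positivity, hθ0, hθ1, ?_⟩
  intro κ T r hκ hT
  rcases Nat.lt_or_ge r 4 with hr4 | hr4
  · -- trivial bound
    have h1 : ∑ q ∈ SQ r, ∑ a ∈ AA q, GF κ T (Icc 1 T) ((a : ℝ) / q) ≤ 10 ^ 12 := by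
      calc ∑ q ∈ SQ r, ∑ a ∈ AA q, GF κ T (Icc 1 T) ((a : ℝ) / q)
          ≤ ∑ q ∈ SQ r, (10 : ℝ) ^ (2 * r + 2) := by
            apply Finset.sum_le_sum
            intro q hq
            calc ∑ a ∈ AA q, GF κ T (Icc 1 T) ((a : ℝ) / q) ≤ ∑ a ∈ AA q, (1 : ℝ) :=
                  Finset.sum_le_sum fun a _ => GF_le_one _ _ _ _
              _ = ((AA q).card : ℝ) := by rw [Finset.sum_const, nsmul_eq_mul, mul_one]
              _ ≤ (q : ℝ) := by
                  have : (AA q).card ≤ q := by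
                    unfold AA
                    exact (Finset.card_filter_le _ _).trans_eq (Finset.card_range q)
                  exact_mod_cast this
              _ ≤ (10 : ℝ) ^ (2 * r + 2) := by exact_mod_cast (SQ_spec r q hq).2.1
        _ = ((SQ r).card : ℝ) * (10 : ℝ) ^ (2 * r + 2) := by rw [Finset.sum_const, nsmul_eq_mul]
        _ ≤ (9 * 10 ^ r) * (10 : ℝ) ^ (2 * r + 2) := by
            apply mul_le_mul_of_nonneg_right _ (by positivity)
            exact_mod_cast SQ_card r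
        _ ≤ (9 * 10 ^ 3) * (10 : ℝ) ^ (2 * 3 + 2) := by
            apply mul_le_mul _ _ (by positivity) (by positivity)
            · apply mul_le_mul_of_nonneg_left _ (by norm_num)
              exact pow_le_pow_right₀ (by norm_num) (by omega)
            · exact pow_le_pow_right₀ (by norm_num) (by omega)
        _ ≤ 10 ^ 12 := by norm_num
    refine h1.trans ?_
    have h2 : θ ^ 3 ≤ (100 * θ) ^ r := by
      calc θ ^ 3 ≤ θ ^ r := pow_le_pow_of_le_one hθ0.le hθ1.le (by omega)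
        _ ≤ (100 * θ) ^ r := pow_le_pow_left₀ hθ0.le (by linarith) r
    have h3 : (10 : ℝ) ^ 12 / θ ^ 3 * θ ^ 3 ≤ 10 ^ 12 / θ ^ 3 * (100 * θ) ^ r :=
      mul_le_mul_of_nonneg_left h2 (by positivity)
    rw [div_mul_cancel₀ _ (by positivity)] at h3
    have h4 : 0 ≤ 400000 * C' * (100 * θ) ^ r := by positivity
    linarith
  have h1 := hdec r
  obtain ⟨L, hL⟩ : ∃ L, L = r / g := ⟨_, rfl⟩
  rw [← hL] at hT h1
  have hLr : L + 2 ≤ r := by
    rw [hL]
    have h5 : r / g ≤ r / 2 := Nat.div_le_div_left hg (by norm_num)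
    omega
  clear hL
  set D : ℕ := ⌊C' * μ ^ r⌋₊ with hDdef
  have hμr : (1 : ℝ) ≤ μ ^ r := one_le_pow₀ hμ1.le
  have hDle : (D : ℝ) ≤ C' * μ ^ r := Nat.floor_le (by positivity)
  set t1 := L + 2 * r with ht1
  have hD : ∀ n : ℕ, 1 ≤ n → n ≤ 18 * 10 ^ (2 * t1 + 1) → tau n ≤ D := by
    intro n hn1 hn2
    apply Nat.le_floor
    apply hτ r n hn1
    refine hn2.trans ?_
    apply Nat.mul_le_mul_left
    exact Nat.pow_le_pow_right (by norm_num) (by omega)
  have hS : ∀ q ∈ SQ r, 0 < q ∧ q ≤ 10 ^ (2 * r + 2) ∧ q.Coprime 10 := by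
    intro q hq
    have := SQ_spec r q hq
    exact ⟨this.1, this.2.1, this.2.2.1⟩
  have hsub : ∀ a b : ℕ, 0 ≤ a → b ≤ t1 → Ioc a b ⊆ Icc 1 t1 := by
    intro a b _ hb t ht
    rw [Finset.mem_Ioc] at ht
    rw [Finset.mem_Icc]
    omega
  have hcard : ∀ a b : ℕ, (Ioc a b).card = b - a := fun a b => Nat.card_Ioc a b
  set E : ℝ := 10 ^ (2 * r + 2) * (900 + D) with hE
  have hE0 : 0 ≤ E := by positivity
  have hblock : ∀ A : Finset ℕ, A ⊆ Icc 1 t1 → A.card = r →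
      ∑ q ∈ SQ r, ∑ a ∈ AA q, GF κ T A ((a : ℝ) / q) ^ 2 ≤ E := by
    intro A hA hAc
    refine (T2_block κ T t1 (10 ^ (2 * r + 2)) D r A hκ (by omega) hA hAc (SQ r) hS (SQ_card r)
      hD).trans ?_
    rw [hE]
    push_cast
    have h10 : (0 : ℝ) < 10 ^ (2 * r + 2) := by positivity
    nlinarith
  have hM : ∑ q ∈ SQ r, ∑ a ∈ AA q,
      (GF κ T (Icc 1 L) ((a : ℝ) / q) ^ 2 * GF κ T (Ioc L (r - 2)) ((a : ℝ) / q)) ^ 2 ≤
      E * (67 / 100) ^ L := by
    have h := T2_gen κ T (r - 2) (10 ^ (2 * r + 2)) 0 (Icc 1 L) (Ioc L (r - 2)) hκ (by omega)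
      (Finset.Icc_subset_Icc_right (by omega)) (by
        intro t ht
        rw [Finset.mem_Ioc] at ht
        rw [Finset.mem_Icc]
        omega) (by
        rw [Finset.disjoint_left]
        intro t ht ht'
        rw [Finset.mem_Icc] at ht
        rw [Finset.mem_Ioc] at ht'
        omega) (SQ r) hS (by
        intro n hn1 hn2
        rw [Nat.le_zero, Finset.card_eq_zero]
        apply Finset.filter_false_of_mem
        intro q hq hdv
        have h5 := (SQ_spec r q hq).2.2.2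
        have h6 := Nat.le_of_dvd (by omega) hdv
        have h7 : 10 ^ (2 * r) = 1000 * 10 ^ (2 * (r - 2) + 1) := by
          rw [show (1000 : ℕ) = 10 ^ 3 by norm_num, ← pow_add]
          congr 1
          omega
        omega)
    refine h.trans ?_
    rw [Nat.card_Icc, hcard, Nat.add_sub_cancel]
    have e1 : ((67 : ℝ) / 1000) ^ L * (1 / 10) ^ (r - 2 - L) = (67 / 100) ^ L * (1 / 10) ^ (r - 2) := by
      have : ((67 : ℝ) / 1000) ^ L = (67 / 100) ^ L * (1 / 10) ^ L := by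
        rw [← mul_pow]; norm_num
      rw [this, mul_assoc, ← pow_add]
      congr 2
      omega
    rw [e1, hE]
    push_cast
    rw [mul_assoc, add_zero]
    apply mul_le_mul_of_nonneg_left _ (by positivity)
    have h5 : ((SQ r).card : ℝ) * (1 / 10) ^ (r - 2) ≤ 900 := by
      have h6 : ((SQ r).card : ℝ) ≤ 9 * 10 ^ r := by exact_mod_cast SQ_card r
      calc ((SQ r).card : ℝ) * (1 / 10) ^ (r - 2) ≤ 9 * 10 ^ r * (1 / 10) ^ (r - 2) :=
            mul_le_mul_of_nonneg_right h6 (by positivity)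
        _ = 9 * (10 ^ 2 * 10 ^ (r - 2)) * (1 / 10) ^ (r - 2) := by
            rw [← pow_add]
            congr 3
            omega
        _ = 900 * (10 * (1 / 10)) ^ (r - 2) := by rw [mul_pow]; ring
        _ = 900 := by norm_num
    calc ((SQ r).card : ℝ) * ((67 / 100) ^ L * (1 / 10) ^ (r - 2))
        = ((SQ r).card : ℝ) * (1 / 10) ^ (r - 2) * (67 / 100) ^ L := by ring
      _ ≤ 900 * (67 / 100) ^ L := mul_le_mul_of_nonneg_right h5 (by positivity)
      _ ≤ (900 + (D : ℝ)) * (67 / 100) ^ L := by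
          apply mul_le_mul_of_nonneg_right _ (by positivity)
          have : (0 : ℝ) ≤ D := by positivity
          linarith
  have key := S_core ((SQ r).sigma (fun q => AA q))
    (fun p : (Σ _ : ℕ, ℕ) => GF κ T (Icc 1 T) ((p.2 : ℝ) / p.1))
    (fun p => GF κ T (Icc 1 L) ((p.2 : ℝ) / p.1)) (fun p => GF κ T (Ioc L (r - 2)) ((p.2 : ℝ) / p.1))
    (fun p => GF κ T (Ioc (r - 2) (2 * r - 2)) ((p.2 : ℝ) / p.1))
    (fun p => GF κ T (Ioc L (L + r)) ((p.2 : ℝ) / p.1))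
    (fun p => GF κ T (Ioc (L + r) (L + 2 * r)) ((p.2 : ℝ) / p.1)) E hE0 L
    (fun p _ => ⟨GF_nonneg _ _ _ _, GF_nonneg _ _ _ _, GF_nonneg _ _ _ _, GF_nonneg _ _ _ _,
      GF_nonneg _ _ _ _⟩)
    (fun p _ => by
      rw [← GF_union, ← GF_union]
      · apply GF_anti
        intro t ht
        simp only [Finset.mem_union, Finset.mem_Ioc, Finset.mem_Icc] at ht ⊢
        omega
      · rw [Finset.disjoint_left]
        intro t ht
        simp only [Finset.mem_union, Finset.mem_Ioc, Finset.mem_Icc] at ht ⊢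
        omega
      · rw [Finset.disjoint_left]
        intro t ht
        simp only [Finset.mem_Ioc, Finset.mem_Icc] at ht ⊢
        omega)
    (fun p _ => by
      rw [← GF_union, ← GF_union]
      · apply GF_anti
        intro t ht
        simp only [Finset.mem_union, Finset.mem_Ioc, Finset.mem_Icc] at ht ⊢
        omega
      · rw [Finset.disjoint_left]
        intro t ht
        simp only [Finset.mem_union, Finset.mem_Ioc, Finset.mem_Icc] at ht ⊢
        omega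
      · rw [Finset.disjoint_left]
        intro t ht
        simp only [Finset.mem_Ioc, Finset.mem_Icc] at ht ⊢
        omega)
    (by
      rw [Finset.sum_sigma]
      exact hblock _ (hsub _ _ (Nat.zero_le _) (by omega)) (by rw [hcard]; omega))
    (by
      rw [Finset.sum_sigma]
      exact hblock _ (hsub _ _ (Nat.zero_le _) (by omega)) (by rw [hcard]; omega))
    (by
      rw [Finset.sum_sigma]
      exact hblock _ (hsub _ _ (Nat.zero_le _) (by omega)) (by rw [hcard]; omega))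
    (by
      rw [Finset.sum_sigma]
      exact hM)
  rw [Finset.sum_sigma] at key
  refine key.trans ?_
  have h2 : E ≤ 100 * 100 ^ r * (901 * (C' * μ ^ r)) := by
    rw [hE]
    have e1 : (10 : ℝ) ^ (2 * r + 2) = 100 * 100 ^ r := by
      rw [pow_add, pow_mul]
      norm_num
      ring
    rw [e1]
    apply mul_le_mul_of_nonneg_left _ (by positivity)
    have : 1 ≤ C' * μ ^ r := by nlinarith
    linarith
  calc 2 * (95 / 100) ^ L * E ≤ 2 * (2 * σ ^ r) * (100 * 100 ^ r * (901 * (C' * μ ^ r))) := by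
        apply mul_le_mul _ h2 hE0 (by positivity)
        linarith
    _ = 360400 * C' * (100 * (σ * μ)) ^ r := by rw [mul_pow, mul_pow]; ring
    _ = 360400 * C' * (100 * θ) ^ r := by rw [hσμ]
    _ ≤ (400000 * C' + 10 ^ 12 / θ ^ 3) * (100 * θ) ^ r := by
        apply mul_le_mul_of_nonneg_right _ (by positivity)
        have : 0 ≤ 10 ^ 12 / θ ^ 3 := by positivity
        linarith

end Pool.Agent.Helper10.P5
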