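import Pool.Agent.Helper10.P5.Pal

/-! The final count. -/

namespace Pool.Agent.Helper10.P5

open Finset Pool.Agent.Helper10 Filter

/-- palindromes of the family with at most five prime factors, all of them large -/
noncomputable def good5 (m n : ℕ) : Finset (Fin (n - 1) → ℕ) :=
  (sift (KK (n - 1) 10) (Npal n) ((10 ^ (2 * m)) ^ 40)).filter
    (fun f => (Npal n f).primeFactorsList.length ≤ 5)

/-- members divisible by a large square -/
noncomputable def bad5 (m n : ℕ) : Finset (Fin (n - 1) → ℕ) := by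
  classical
  exact (KK (n - 1) 10).filter (fun f => ∃ p : ℕ, p.Prime ∧ p.Coprime 10 ∧
        10 ^ (80 * m) < p ∧ p ≤ 10 ^ (308 * m) ∧ p ^ 2 ∣ Npal n f)

lemma sift_prime_gt (m n : ℕ) (hm : 1 ≤ m) (hn : 1 ≤ n) (f : Fin (n - 1) → ℕ)
    (hf : f ∈ sift (KK (n - 1) 10) (Npal n) ((10 ^ (2 * m)) ^ 40)) (p : ℕ) (hp : p.Prime)
    (hpN : p ∣ Npal n f) : p.Coprime 10 ∧ (10 ^ (2 * m)) ^ 40 < p := by
  unfold sift at hf
  rw [Finset.mem_filter] at hf
  have hp10 : p.Coprime 10 := Nat.Coprime.coprime_dvd_left hpN (Npal_coprime n hn f)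
  refine ⟨hp10, ?_⟩
  by_contra hcon
  push Not at hcon
  rcases Nat.lt_or_ge p ((10 ^ (2 * m)) ^ 40) with h1 | h1
  · exact hf.2 p ((mem_PP _ _).mpr ⟨h1, hp, hp10⟩) hpN
  · have h2 : p = (10 ^ (2 * m)) ^ 40 := by omega
    rw [h2, ← pow_mul] at hp10
    exact pow10_not_coprime _ (by omega) hp10

set_option maxRecDepth 100000 in
/-- the weight of a member with at least six prime factors -/
lemma weight6 (m n : ℕ) (hm : 1000 ≤ m) (hn1 : 1 ≤ n) (hn2 : n < 640 * m + 640)
    (f : Fin (n - 1) → ℕ)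
    (hf : f ∈ sift (KK (n - 1) 10) (Npal n) ((10 ^ (2 * m)) ^ 40)) (hfb : f ∉ bad5 m n)
    (h6 : 6 ≤ (Npal n f).primeFactorsList.length) :
    184 / 100 ≤ ∑ i ∈ Icc 40 153, ∑ p ∈ (cellP (10 ^ (2 * m)) i).filter (fun p => p ∣ Npal n f),
      (1 - Real.log p / Real.log (((10 ^ (2 * m)) ^ 154 : ℕ) : ℝ)) := by
  classical
  have hN0 := Npal_pos n f
  have hfK : f ∈ KK (n - 1) 10 := by
    unfold sift at hf
    exact (Finset.mem_filter.mp hf).1
  have hmR : (1000 : ℝ) ≤ m := by exact_mod_cast hm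
  have hl10 := log10_bounds
  have hU1 : 1 ≤ 10 ^ (2 * m) := Nat.one_le_pow _ _ (by norm_num)
  have hy2 : 2 ≤ (10 ^ (2 * m)) ^ 154 := by
    rw [← pow_mul]
    calc 2 ≤ 10 ^ 1 := by norm_num
      _ ≤ 10 ^ (2 * m * 154) := Nat.pow_le_pow_right (by norm_num) (by omega)
  have hlogy : Real.log (((10 ^ (2 * m)) ^ 154 : ℕ) : ℝ) = 308 * m * Real.log 10 := by
    rw [Nat.cast_pow, Real.log_pow, Nat.cast_pow, Real.log_pow]
    push_cast
    ring
  have hlogy0 : 0 < Real.log (((10 ^ (2 * m)) ^ 154 : ℕ) : ℝ) := by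
    rw [hlogy]
    have : 0 < Real.log 10 := by linarith
    positivity
  have h1 := comb5 (Npal n f) ((10 ^ (2 * m)) ^ 154) (by omega) hy2 (by
    intro p hp hpy hsq
    apply hfb
    unfold bad5
    rw [Finset.mem_filter]
    have h2 := sift_prime_gt m n (by omega) hn1 f hf p hp ((dvd_pow_self p (by norm_num)).trans hsq)
    refine ⟨hfK, p, hp, h2.1, ?_, ?_, hsq⟩
    · have h3 := h2.2
      rw [← pow_mul] at h3
      rwa [show 2 * m * 40 = 80 * m by ring] at h3
    · rw [← pow_mul] at hpy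
      rwa [show 2 * m * 154 = 308 * m by ring] at hpy)
  have h3 : Real.log (Npal n f) / Real.log (((10 ^ (2 * m)) ^ 154 : ℕ) : ℝ) ≤ 416 / 100 := by
    rw [div_le_iff₀ hlogy0, hlogy]
    have h4 : Real.log (Npal n f) ≤ (1280 * m + 1280) * Real.log 10 := by
      have h5 : Real.log ((10 : ℝ) ^ (2 * n + 2)) = (2 * n + 2) * Real.log 10 := by
        rw [Real.log_pow]
        push_cast
        ring
      have h6 : Real.log (Npal n f) ≤ Real.log ((10 : ℝ) ^ (2 * n + 2)) := by
        apply Real.log_le_log (by exact_mod_cast hN0)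
        exact_mod_cast (Npal_lt n hn1 f hfK).le
      rw [h5] at h6
      refine h6.trans ?_
      apply mul_le_mul_of_nonneg_right _ (by linarith)
      have : 2 * n + 2 ≤ 1280 * m + 1280 := by omega
      exact_mod_cast this
    refine h4.trans ?_
    have h7 : (1280 * (m : ℝ) + 1280) ≤ 416 / 100 * (308 * m) := by linarith
    calc (1280 * (m : ℝ) + 1280) * Real.log 10 ≤ (416 / 100 * (308 * m)) * Real.log 10 :=
          mul_le_mul_of_nonneg_right h7 (by linarith)
      _ = _ := by ring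
  have h6R : (6 : ℝ) ≤ ((Npal n f).primeFactorsList.length : ℝ) := by exact_mod_cast h6
  have h8 : (184 : ℝ) / 100 ≤ ∑ p ∈ (Npal n f).primeFactors.filter (fun p => p ≤ (10 ^ (2 * m)) ^ 154),
      (1 - Real.log p / Real.log (((10 ^ (2 * m)) ^ 154 : ℕ) : ℝ)) := by linarith
  refine h8.trans ?_
  -- the primes are in the cells
  have hw0 : ∀ p : ℕ, 1 ≤ p → p ≤ (10 ^ (2 * m)) ^ 154 →
      0 ≤ 1 - Real.log p / Real.log (((10 ^ (2 * m)) ^ 154 : ℕ) : ℝ) := by
    intro p hp0 hp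
    have : Real.log p / Real.log (((10 ^ (2 * m)) ^ 154 : ℕ) : ℝ) ≤ 1 := by
      rw [div_le_one hlogy0]
      apply Real.log_le_log (by exact_mod_cast hp0)
      exact_mod_cast hp
    linarith
  rw [← Finset.sum_biUnion]
  · apply Finset.sum_le_sum_of_subset_of_nonneg
    · intro p hp
      rw [Finset.mem_filter] at hp
      have hpp := Nat.prime_of_mem_primeFactors hp.1
      have hpd := Nat.dvd_of_mem_primeFactors hp.1
      have h9 := (sift_prime_gt m n (by omega) hn1 f hf p hpp hpd).2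
      rw [Finset.mem_biUnion]
      have hex : ∃ i, p ≤ (10 ^ (2 * m)) ^ (i + 1) := ⟨153, hp.2⟩
      obtain ⟨i, hi, hmin⟩ : ∃ i, p ≤ (10 ^ (2 * m)) ^ (i + 1) ∧
          ∀ j < i, ¬ p ≤ (10 ^ (2 * m)) ^ (j + 1) :=
        ⟨Nat.find hex, Nat.find_spec hex, fun j hj => Nat.find_min hex hj⟩
      have hi40 : 40 ≤ i := by
        by_contra hcon
        push Not at hcon
        have : (10 ^ (2 * m)) ^ (i + 1) ≤ (10 ^ (2 * m)) ^ 40 := Nat.pow_le_pow_right hU1 (by omega)
        omega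
      refine ⟨i, ?_, ?_⟩
      · rw [Finset.mem_Icc]
        refine ⟨hi40, ?_⟩
        by_contra hcon
        push Not at hcon
        exact hmin 153 hcon hp.2
      · rw [Finset.mem_filter, mem_cellP]
        have h2 := hmin (i - 1) (by omega)
        rw [show i - 1 + 1 = i by omega] at h2
        exact ⟨⟨⟨by omega, hi⟩, hpp⟩, hpd⟩
    · intro p hp _
      rw [Finset.mem_biUnion] at hp
      obtain ⟨i, hi, hp⟩ := hp
      rw [Finset.mem_filter, mem_cellP] at hp
      rw [Finset.mem_Icc] at hi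
      apply hw0 p hp.1.2.pos
      exact hp.1.1.2.trans (Nat.pow_le_pow_right hU1 (by omega))
  · intro i _ j _ hij
    rw [Function.onFun, Finset.disjoint_left]
    intro p hp hp2
    rw [Finset.mem_filter, mem_cellP] at hp hp2
    rcases Nat.lt_or_gt_of_ne hij with h | h
    · have : (10 ^ (2 * m)) ^ (i + 1) ≤ (10 ^ (2 * m)) ^ j := Nat.pow_le_pow_right hU1 h
      omega
    · have : (10 ^ (2 * m)) ^ (j + 1) ≤ (10 ^ (2 * m)) ^ i := Nat.pow_le_pow_right hU1 h
      omega

theorem good_count (m n : ℕ) (V C : ℝ) (hg : GridOK (1 / 10 ^ 6) m V C) (hm : 1000 ≤ m)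
    (hn : 640 * m ≤ n) (hn2 : n < 640 * m + 640)
    (hErr : ∀ Q : ℕ, Q ≤ 10 ^ (318 * m) →
      errTot (rr n) Q ≤ 10 ^ (n - 1) / ((n - 1 : ℕ) : ℝ) ^ 20) :
    8 / 10000 * (10 ^ (n - 1) / V) ≤ ((good5 m n).card : ℝ) + ((bad5 m n).card : ℝ) := by
  classical
  have h1 := lowS m n V C hg hm hn hn2 hErr
  have h2 := upS m n V C hg hm hn hErr
  set S := sift (KK (n - 1) 10) (Npal n) ((10 ^ (2 * m)) ^ 40) with hS
  set S6 := (S \ bad5 m n).filter (fun f => 6 ≤ (Npal n f).primeFactorsList.length) with hS6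
  have h3 : S ⊆ good5 m n ∪ (bad5 m n ∪ S6) := by
    intro f hf
    rw [Finset.mem_union, Finset.mem_union]
    by_cases h4 : (Npal n f).primeFactorsList.length ≤ 5
    · left
      unfold good5
      rw [Finset.mem_filter]
      exact ⟨hf, h4⟩
    · right
      by_cases h5 : f ∈ bad5 m n
      · left; exact h5
      · right
        rw [hS6, Finset.mem_filter, Finset.mem_sdiff]
        exact ⟨⟨hf, h5⟩, by omega⟩
  have h4 : (S.card : ℝ) ≤ (good5 m n).card + ((bad5 m n).card + S6.card) := by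
    have h5 : S.card ≤ (good5 m n).card + ((bad5 m n).card + S6.card) :=
      (Finset.card_le_card h3).trans ((Finset.card_union_le _ _).trans
        (Nat.add_le_add_left (Finset.card_union_le _ _) _))
    exact_mod_cast h5
  have h5 : 184 / 100 * (S6.card : ℝ) ≤ 1839 / 100000 * (10 ^ (n - 1) / V) := by
    refine le_trans ?_ h2
    have e1 : ∑ i ∈ Icc (40 : ℕ) 153, ∑ p ∈ cellP (10 ^ (2 * m)) i,
        (1 - Real.log p / Real.log (((10 ^ (2 * m)) ^ 154 : ℕ) : ℝ)) *
        ((S.filter (fun f => p ∣ Npal n f)).card : ℝ) =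
        ∑ f ∈ S, ∑ i ∈ Icc (40 : ℕ) 153,
          ∑ p ∈ (cellP (10 ^ (2 * m)) i).filter (fun p => p ∣ Npal n f),
          (1 - Real.log p / Real.log (((10 ^ (2 * m)) ^ 154 : ℕ) : ℝ)) := by
      rw [Finset.sum_comm]
      apply Finset.sum_congr rfl
      intro i _
      simp only [Finset.sum_filter]
      rw [Finset.sum_comm]
      apply Finset.sum_congr rfl
      intro p _
      rw [← Finset.sum_filter, Finset.sum_const, nsmul_eq_mul, mul_comm]
    rw [e1]
    have hnn : ∀ f ∈ S, 0 ≤ ∑ i ∈ Icc (40 : ℕ) 153,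
          ∑ p ∈ (cellP (10 ^ (2 * m)) i).filter (fun p => p ∣ Npal n f),
          (1 - Real.log p / Real.log (((10 ^ (2 * m)) ^ 154 : ℕ) : ℝ)) := by
      intro f _
      apply Finset.sum_nonneg
      intro i hi
      apply Finset.sum_nonneg
      intro p hp
      rw [Finset.mem_Icc] at hi
      rw [Finset.mem_filter, mem_cellP] at hp
      have hle : p ≤ (10 ^ (2 * m)) ^ 154 := hp.1.1.2.trans
        (Nat.pow_le_pow_right (Nat.one_le_pow _ _ (by norm_num)) (by omega))
      have h6 : Real.log p ≤ Real.log (((10 ^ (2 * m)) ^ 154 : ℕ) : ℝ) := by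
        apply Real.log_le_log (by exact_mod_cast hp.1.2.pos)
        exact_mod_cast hle
      have h7 : 0 < Real.log (p : ℝ) := Real.log_pos (by exact_mod_cast hp.1.2.one_lt)
      have : Real.log p / Real.log (((10 ^ (2 * m)) ^ 154 : ℕ) : ℝ) ≤ 1 := by
        rw [div_le_one (lt_of_lt_of_le h7 h6)]
        exact h6
      linarith
    calc 184 / 100 * (S6.card : ℝ) = ∑ f ∈ S6, (184 / 100 : ℝ) := by
          rw [Finset.sum_const, nsmul_eq_mul, mul_comm]
      _ ≤ ∑ f ∈ S6, ∑ i ∈ Icc (40 : ℕ) 153,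
          ∑ p ∈ (cellP (10 ^ (2 * m)) i).filter (fun p => p ∣ Npal n f),
          (1 - Real.log p / Real.log (((10 ^ (2 * m)) ^ 154 : ℕ) : ℝ)) := by
          apply Finset.sum_le_sum
          intro f hf
          rw [hS6, Finset.mem_filter, Finset.mem_sdiff] at hf
          exact weight6 m n hm (by omega) hn2 f hf.1.1 hf.1.2 hf.2
      _ ≤ _ := by
          apply Finset.sum_le_sum_of_subset_of_nonneg
          · intro f hf
            rw [hS6, Finset.mem_filter, Finset.mem_sdiff] at hf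
            exact hf.1.1
          · intro f hf _
            exact hnn f hf
  have hV := V_bounds m V C _ hg
  have hmR : (1000 : ℝ) ≤ m := by exact_mod_cast hm
  have hV0 : 0 < V := by linarith [hV.1]
  have hXV : 0 < (10 : ℝ) ^ (n - 1) / V := by positivity
  linarith

/-- **Palindromes with at most five prime factors**, counting form on digit vectors. -/
theorem main5 : ∃ n0 : ℕ, ∀ n : ℕ, n0 ≤ n → ∃ m : ℕ, 1000 ≤ m ∧ 640 * m ≤ n ∧
    n < 640 * m + 640 ∧ 1 / 200 * ((10 : ℝ) ^ n / n) ≤ ((good5 m n).card : ℝ) := by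
  classical
  obtain ⟨C, m1, hgrid⟩ := grid_ok (1 / 10 ^ 6) (by norm_num)
  obtain ⟨T0, herr⟩ := err5 106 (by norm_num) 20
  obtain ⟨C', θ, hC', hθ0, hθ1, hsq⟩ := sq5 106 (by norm_num)
  have hlim : Tendsto (fun u : ℕ => (u : ℝ) ^ 1 * θ ^ u) atTop (nhds 0) :=
    tendsto_pow_const_mul_const_pow_of_abs_lt_one _ (by rw [abs_of_pos hθ0]; exact hθ1)
  have hev := hlim.eventually (gt_mem_nhds (show (0 : ℝ) < 1 / (10 ^ 6 * C') by positivity))
  obtain ⟨u0, hu0⟩ := Filter.eventually_atTop.mp hev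
  refine ⟨640 * (m1 + T0 + u0 + 1000) + 640, ?_⟩
  intro n hn
  obtain ⟨m, hm⟩ : ∃ m, m = n / 640 := ⟨_, rfl⟩
  have hmn : 640 * m ≤ n := by omega
  have hmn2 : n < 640 * m + 640 := by omega
  have hmb : m1 + T0 + u0 + 1000 ≤ m := by omega
  refine ⟨m, by omega, hmn, hmn2, ?_⟩
  obtain ⟨V, hg⟩ := hgrid m (by omega)
  have hκ : ∀ q : ℕ, q.Coprime 10 → q.Coprime 10 := fun q h => h
  have h318 : 318 * m / 106 = 3 * m := by omega
  have h308 : 308 * m / 106 ≤ 3 * m := by omega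
  have hErr : ∀ Q : ℕ, Q ≤ 10 ^ (318 * m) →
      errTot (rr n) Q ≤ 10 ^ (n - 1) / ((n - 1 : ℕ) : ℝ) ^ 20 := by
    intro Q hQ
    rw [errTot_rr]
    exact herr (n - 1) (by omega) 10 (10 ^ (2 * n) + 1) Q (318 * m) hκ hQ (by omega)
  have h1 := good_count m n V C hg (by omega) hmn hmn2 hErr
  have h2 : ((bad5 m n).card : ℝ) ≤ 10 ^ (n - 1) * (C' * θ ^ (80 * m)) := by
    apply hsq 10 (n - 1) (10 ^ (2 * n) + 1) (80 * m) (308 * m) hκ (by omega)
    · unfold bad5
      exact Finset.filter_subset _ _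
    · intro f hf
      unfold bad5 at hf
      rw [Finset.mem_filter] at hf
      exact hf.2
  have hV := V_bounds m V C _ hg
  have hmR : (1000 : ℝ) ≤ m := by exact_mod_cast (by omega : 1000 ≤ m)
  have hV0 : 0 < V := by linarith [hV.1]
  have h3 := hu0 (80 * m) (by omega)
  rw [pow_one] at h3
  push_cast at h3
  have h4 : C' * θ ^ (80 * m) ≤ 1 / (10 ^ 6 * V) := by
    have h5 : (80 * (m : ℝ)) * (θ ^ (80 * m) * (10 ^ 6 * C')) < 1 := by
      rw [lt_div_iff₀ (by positivity)] at h3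
      linarith
    rw [le_div_iff₀ (by positivity)]
    have h6 : 0 < θ ^ (80 * m) * (10 ^ 6 * C') := by positivity
    calc C' * θ ^ (80 * m) * (10 ^ 6 * V) = V * (θ ^ (80 * m) * (10 ^ 6 * C')) := by ring
      _ ≤ (80 * m) * (θ ^ (80 * m) * (10 ^ 6 * C')) := by
          apply mul_le_mul_of_nonneg_right _ h6.le
          linarith [hV.2]
      _ ≤ 1 := h5.le
  set X : ℝ := 10 ^ (n - 1) with hX
  have hX0 : 0 < X := by rw [hX]; positivity
  have h5 : ((bad5 m n).card : ℝ) ≤ 1 / 10 ^ 6 * (X / V) := by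
    refine h2.trans ?_
    calc X * (C' * θ ^ (80 * m)) ≤ X * (1 / (10 ^ 6 * V)) := mul_le_mul_of_nonneg_left h4 hX0.le
      _ = 1 / 10 ^ 6 * (X / V) := by field_simp
  have h6 : 79 / 100000 * (X / V) ≤ ((good5 m n).card : ℝ) := by
    have : 0 < X / V := by positivity
    norm_num at h1 h5 ⊢
    linarith
  refine le_trans ?_ h6
  have hnR : (0 : ℝ) < n := by exact_mod_cast (by omega : 0 < n)
  have h7 : (10 : ℝ) ^ n = 10 * X := by
    rw [hX, ← pow_succ']
    congr 1
    omega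
  rw [h7]
  have h8 : V ≤ n / 80 := by
    have : (640 * (m : ℝ)) ≤ n := by exact_mod_cast hmn
    linarith [hV.2]
  have h9 : X * 80 / n ≤ X / V := by
    rw [div_le_div_iff₀ hnR hV0]
    nlinarith
  calc 1 / 200 * (10 * X / n) ≤ 79 / 100000 * (X * 80 / n) := by
        have : 0 < X / n := by positivity
        have e1 : 10 * X / n = 10 * (X / n) := by ring
        have e2 : X * 80 / n = 80 * (X / n) := by ring
        rw [e1, e2]
        linarith
    _ ≤ _ := mul_le_mul_of_nonneg_left h9 (by norm_num)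

end Pool.Agent.Helper10.P5
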