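import Mathlib

/-! The combinatorial lemma for the weights. -/

namespace Pool.Agent.Helper10.P5

open Finset

lemma comb5 (n y : ℕ) (hn : n ≠ 0) (hy : 2 ≤ y)
    (hsq : ∀ p : ℕ, p.Prime → p ≤ y → ¬ p ^ 2 ∣ n) :
    (n.primeFactorsList.length : ℝ) - Real.log n / Real.log y ≤
      ∑ p ∈ n.primeFactors.filter (fun p => p ≤ y), (1 - Real.log p / Real.log y) := by
  have hyR : (1 : ℝ) < y := by exact_mod_cast hy
  have hly : 0 < Real.log y := Real.log_pos hyR
  have h1 : (n.primeFactorsList.length : ℝ) = ∑ p ∈ n.primeFactors, (n.factorization p : ℝ) := by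
    rw [← ArithmeticFunction.cardFactors_apply, ArithmeticFunction.cardFactors_eq_sum_factorization,
      Finsupp.sum, Nat.support_factorization]
    push_cast
    rfl
  have h2 : Real.log n = ∑ p ∈ n.primeFactors, (n.factorization p : ℝ) * Real.log p := by
    rw [Real.log_nat_eq_sum_factorization, Finsupp.sum, Nat.support_factorization]
  rw [h1, h2, Finset.sum_div, ← Finset.sum_sub_distrib, Finset.sum_filter]
  apply Finset.sum_le_sum
  intro p hp
  have hpp := Nat.prime_of_mem_primeFactors hp
  have hpd := Nat.dvd_of_mem_primeFactors hp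
  split_ifs with h
  · have h3 : n.factorization p = 1 := by
      have h4 : 1 ≤ n.factorization p := (hpp.dvd_iff_one_le_factorization hn).mp hpd
      have h5 : ¬ 2 ≤ n.factorization p := by
        intro h6
        exact hsq p hpp h ((hpp.pow_dvd_iff_le_factorization hn).mpr h6)
      omega
    rw [h3]
    simp
  · have h3 : Real.log y ≤ Real.log p := by
      apply Real.log_le_log (by linarith)
      push Not at h
      exact_mod_cast h.le
    have h4 : (1 : ℝ) ≤ Real.log p / Real.log y := by
      rw [le_div_iff₀ hly]
      linarith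
    have h5 : (0 : ℝ) ≤ n.factorization p := Nat.cast_nonneg _
    have e : (n.factorization p : ℝ) - n.factorization p * Real.log p / Real.log y =
        n.factorization p * (1 - Real.log p / Real.log y) := by ring
    rw [e]
    nlinarith

end Pool.Agent.Helper10.P5
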