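import Pool.Agent.Helper10.P5.Num
import Pool.Agent.Helper10.P5.Comb
import Pool.Agent.Helper10.P5.Sq5
import Pool.Agent.Helper10.P5.Err5

/-! Assembly: the lower bound for sifted palindromes. -/

namespace Pool.Agent.Helper10.P5

open Finset Pool.Agent.Helper10

/-- the palindrome attached to the digit vector `f` -/
def Npal (n : ℕ) (f : Fin (n - 1) → ℕ) : ℕ := 10 ^ (2 * n) + 1 + 10 * vl (n - 1) f

/-- the remainder -/
noncomputable def rr (n q : ℕ) : ℝ :=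
  |(cnt5 10 (n - 1) (10 ^ (2 * n) + 1) q : ℝ) - 10 ^ (n - 1) / q|

lemma rr_nonneg (n q : ℕ) : 0 ≤ rr n q := abs_nonneg _

lemma rr_spec (n q : ℕ) : |(((KK (n - 1) 10).filter (fun f => q ∣ Npal n f)).card : ℝ) -
    10 ^ (n - 1) / q| ≤ rr n q := le_refl _

lemma errTot_rr (n Q : ℕ) : errTot (rr n) Q = errSum5 10 (n - 1) (10 ^ (2 * n) + 1) Q := rfl

lemma Npal_pos (n : ℕ) (f : Fin (n - 1) → ℕ) : 0 < Npal n f := by
  unfold Npal
  positivity

lemma Npal_lt (n : ℕ) (hn : 1 ≤ n) (f : Fin (n - 1) → ℕ) (hf : f ∈ KK (n - 1) 10) :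
    Npal n f < 10 ^ (2 * n + 2) := by
  unfold Npal
  have h1 := vl_le (n - 1) 10 f hf
  have h2 : 2 * (n - 1) + 1 + 1 = 2 * n := by omega
  have h3 : 10 * vl (n - 1) f ≤ 9 * 10 ^ (2 * n) := by
    rw [← h2, pow_succ 10 (2 * (n - 1) + 1)]
    omega
  have h4 : 1 ≤ 10 ^ (2 * n) := Nat.one_le_pow _ _ (by norm_num)
  rw [pow_add]
  omega

lemma Npal_coprime (n : ℕ) (hn : 1 ≤ n) (f : Fin (n - 1) → ℕ) : (Npal n f).Coprime 10 := by
  have h1 : Npal n f = 1 + 10 * (10 ^ (2 * n - 1) + vl (n - 1) f) := by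
    unfold Npal
    have : 10 ^ (2 * n) = 10 * 10 ^ (2 * n - 1) := by
      rw [← pow_succ']
      congr 1
      omega
    rw [this]
    ring
  rw [h1, mul_comm 10, Nat.Coprime, Nat.gcd_comm, Nat.gcd_add_mul_right_right 10 1]
  norm_num

lemma log10_bounds : 1 ≤ Real.log 10 ∧ Real.log 10 ≤ 9 := by
  constructor
  · rw [Real.le_log_iff_exp_le (by norm_num)]
    have := Real.exp_one_lt_d9
    linarith
  · have := Real.log_le_sub_one_of_pos (show (0 : ℝ) < 10 by norm_num)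
    linarith

lemma V_bounds (m : ℕ) (V C ε : ℝ) (hg : GridOK ε m V C) : 4 / 5 * (m : ℝ) ≤ V ∧ V ≤ 8 * m := by
  have h := hg.hV
  have h1 : Real.log ((10 ^ (2 * m) : ℕ) : ℝ) = 2 * m * Real.log 10 := by
    push_cast
    rw [Real.log_pow]
    push_cast
    ring
  rw [h1] at h
  have h2 := log10_bounds
  have hm : (0 : ℝ) ≤ m := Nat.cast_nonneg m
  constructor
  · nlinarith
  · nlinarith

lemma sum_num1 : ∑ j ∈ Icc (41 : ℕ) 59, (j - 40) = 190 := by decide +kernel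
lemma sum_num2 : ∑ j ∈ Icc (1 : ℕ) 59, j = 1770 := by decide +kernel

lemma sift_wt (m n : ℕ) (V C : ℝ) (hg : GridOK (1 / 10 ^ 6) m V C) (hm : 1000 ≤ m)
    (hn1 : 1 ≤ n) (hn2 : n < 640 * m + 640) (f : Fin (n - 1) → ℕ) (hf : f ∈ KK (n - 1) 10)
    (hs : ∀ p ∈ PP ((10 ^ (2 * m)) ^ 40), ¬ p ∣ Npal n f) :
    |wt5 ((10 ^ (2 * m)) ^ 59) (ys (10 ^ (2 * m)) 59) (Npal n f)| ≤
      ∑ j ∈ Icc 1 59, G5 ((10 ^ (2 * m)) ^ j) := by
  have hV := V_bounds m V C _ hg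
  have hmR : (1000 : ℝ) ≤ m := by exact_mod_cast hm
  have hV0 : 0 < V := by linarith [hV.1]
  have hU2 : 1001 ≤ 10 ^ (2 * m) := by
    calc 1001 ≤ 10 ^ 4 := by norm_num
      _ ≤ 10 ^ (2 * m) := Nat.pow_le_pow_right (by norm_num) (by omega)
  obtain ⟨U, hU⟩ : ∃ U, U = 10 ^ (2 * m) := ⟨_, rfl⟩
  rw [← hU] at hU2 hs ⊢
  have hG := hg.G
  rw [← hU] at hG
  apply wt5_abs_le U 59 40 16 (Npal n f) (by omega) (by norm_num) (by norm_num) (by norm_num)
    (Npal_pos n f)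
  · refine (Npal_lt n hn1 f hf).trans_le ?_
    rw [hU, ← pow_mul, ← pow_mul]
    apply Nat.pow_le_pow_right (by norm_num)
    omega
  · intro p hp hp10 hpz
    exact hs p ((mem_PP _ p).mpr ⟨hpz, hp, hp10⟩)
  · have h1 : ∑ j ∈ Icc (40 + 1) 59, G5 (U ^ (j - 40)) ≤ V * 191 := by
      calc ∑ j ∈ Icc (40 + 1) 59, G5 (U ^ (j - 40))
          ≤ ∑ j ∈ Icc (41 : ℕ) 59, (V * ((j - 40 : ℕ) : ℝ) + 1 / 10 ^ 6 * V) := by
            apply Finset.sum_le_sum
            intro j _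
            have := (abs_le.mp (hG (j - 40))).2
            linarith
        _ = V * 190 + 19 * (1 / 10 ^ 6 * V) := by
            rw [Finset.sum_add_distrib, ← Finset.mul_sum, ← Nat.cast_sum, sum_num1,
              Finset.sum_const, Nat.card_Icc, nsmul_eq_mul]
            norm_num
        _ ≤ V * 191 := by
            norm_num
            linarith
    have h2 : V * 1769 ≤ ∑ j ∈ Icc 1 59, G5 (U ^ j) := by
      calc V * 1769 ≤ V * 1770 - 59 * (1 / 10 ^ 6 * V) := by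
            norm_num
            linarith
        _ = ∑ j ∈ Icc (1 : ℕ) 59, (V * (j : ℝ) - 1 / 10 ^ 6 * V) := by
            rw [Finset.sum_sub_distrib, ← Finset.mul_sum, ← Nat.cast_sum, sum_num2,
              Finset.sum_const, Nat.card_Icc, nsmul_eq_mul]
            norm_num
        _ ≤ ∑ j ∈ Icc 1 59, G5 (U ^ j) := by
            apply Finset.sum_le_sum
            intro j _
            have := (abs_le.mp (hG j)).1
            linarith
    have h3 : (U : ℝ) ^ 40 / ((U : ℝ) ^ 40 - 1) ≤ 1001 / 1000 := by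
      have h4 : (1001 : ℝ) ≤ U := by exact_mod_cast hU2
      have h5 : (U : ℝ) ≤ (U : ℝ) ^ 40 := le_self_pow₀ (by linarith) (by norm_num)
      rw [div_le_div_iff₀ (by linarith) (by norm_num)]
      linarith
    have h6 : 0 ≤ ∑ j ∈ Icc (40 + 1) 59, G5 (U ^ (j - 40)) :=
      Finset.sum_nonneg fun _ _ => G5_nonneg _
    push_cast
    have h7 : (U : ℝ) ^ 40 / ((U : ℝ) ^ 40 - 1) * ∑ j ∈ Icc (40 + 1) 59, G5 (U ^ (j - 40)) ≤
        1001 / 1000 * (V * 191) :=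
      mul_le_mul h3 h1 h6 (by norm_num)
    linarith
  · exact Nat.Prime.not_prime_pow (by norm_num)

/-- the lower bound for the sifted set -/
theorem lowS (m n : ℕ) (V C : ℝ) (hg : GridOK (1 / 10 ^ 6) m V C) (hm : 1000 ≤ m)
    (hn : 640 * m ≤ n) (hn2 : n < 640 * m + 640)
    (hErr : ∀ Q : ℕ, Q ≤ 10 ^ (318 * m) →
      errTot (rr n) Q ≤ 10 ^ (n - 1) / ((n - 1 : ℕ) : ℝ) ^ 20) :
    1089 / 100000 * (10 ^ (n - 1) / V) ≤
      ((sift (KK (n - 1) 10) (Npal n) ((10 ^ (2 * m)) ^ 40)).card : ℝ) := by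
  classical
  have hV := V_bounds m V C _ hg
  have hmR : (1000 : ℝ) ≤ m := by exact_mod_cast hm
  have hV0 : 0 < V := by linarith [hV.1]
  have hmain := low_main m V C hg num1 num2 num3
  have hwt := fun f hf hs => sift_wt m n V C hg hm (by omega) hn2 f hf hs
  have hG := hg.G
  have hlogU : Real.log ((10 ^ (2 * m) : ℕ) : ℝ) = 2 * m * Real.log 10 := by
    push_cast
    rw [Real.log_pow]
    push_cast
    ring
  have hU2 : 1001 ≤ 10 ^ (2 * m) := by
    calc 1001 ≤ 10 ^ 4 := by norm_num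
      _ ≤ 10 ^ (2 * m) := Nat.pow_le_pow_right (by norm_num) (by omega)
  obtain ⟨U, hU⟩ : ∃ U, U = 10 ^ (2 * m) := ⟨_, rfl⟩
  rw [← hU] at hmain hwt hG hU2 hlogU ⊢
  set X : ℝ := 10 ^ (n - 1) with hX
  have hX0 : 0 < X := by rw [hX]; positivity
  set L1 := ∑ j ∈ Icc 1 59, G5 (U ^ j) with hL1
  set B : ℝ := 59 * (G5 (U ^ 59) * (1 + Real.log ((U ^ 59 : ℕ) : ℝ))) with hB
  have hBle : ∀ d ∈ DD (U ^ 59), |lm (U ^ 59) (ys U 59) d| ≤ B := by
    intro d hd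
    have := lm_abs_le (U ^ 59) (ys U 59) ((59 : ℕ) : ℝ) (ys_nonneg U 59) (ys_le U 59) d hd
    rw [hB]
    exact_mod_cast this
  have h1 := low5 (KK (n - 1) 10) (Npal n) X hX0.le (rr n) (rr_nonneg n)
    (fun q _ _ => rr_spec n q) (U ^ 59) (U ^ 40) (Nat.one_le_pow _ _ (by omega)) (ys U 59)
    (fun k hk => ys_zero U 59 k (by omega) hk) B L1 hBle hwt
  have h2 : U ^ 59 * U ^ 59 * U ^ 40 ≤ 10 ^ (318 * m) := by
    rw [← pow_add, ← pow_add, hU, ← pow_mul]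
    apply Nat.pow_le_pow_right (by norm_num)
    omega
  have h3 := hErr _ h2
  -- size of `B`
  have hl10 := log10_bounds
  have hG59 : G5 (U ^ 59) ≤ 480 * m := by
    have := (abs_le.mp (hG 59)).2
    push_cast at this
    norm_num at this
    linarith [hV.2]
  have hlog59 : 1 + Real.log ((U ^ 59 : ℕ) : ℝ) ≤ 1063 * m := by
    rw [Nat.cast_pow, Real.log_pow, hlogU]
    push_cast
    nlinarith
  have hlog59' : 0 ≤ 1 + Real.log ((U ^ 59 : ℕ) : ℝ) := by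
    have := Real.log_natCast_nonneg (U ^ 59)
    linarith
  have hB0 : 0 ≤ B := by
    rw [hB]
    have := G5_nonneg (U ^ 59)
    positivity
  have hBup : B ≤ 10 ^ 8 * (m : ℝ) ^ 2 := by
    have h4 : G5 (U ^ 59) * (1 + Real.log ((U ^ 59 : ℕ) : ℝ)) ≤ (480 * m) * (1063 * m) :=
      mul_le_mul hG59 hlog59 hlog59' (by positivity)
    rw [hB]
    nlinarith
  have hB2 : B ^ 2 ≤ 10 ^ 16 * (m : ℝ) ^ 4 := by
    calc B ^ 2 ≤ (10 ^ 8 * (m : ℝ) ^ 2) ^ 2 := pow_le_pow_left₀ hB0 hBup 2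
      _ = 10 ^ 16 * (m : ℝ) ^ 4 := by ring
  have hTm : (m : ℝ) ≤ ((n - 1 : ℕ) : ℝ) := by exact_mod_cast (by omega : m ≤ n - 1)
  have hT20 : 10 ^ 51 * (m : ℝ) ^ 3 ≤ ((n - 1 : ℕ) : ℝ) ^ 20 := by
    calc 10 ^ 51 * (m : ℝ) ^ 3 = 1000 ^ 17 * (m : ℝ) ^ 3 := by norm_num
      _ ≤ (m : ℝ) ^ 17 * (m : ℝ) ^ 3 := by
          apply mul_le_mul_of_nonneg_right _ (by positivity)
          exact pow_le_pow_left₀ (by norm_num) hmR 17
      _ = (m : ℝ) ^ 20 := by ring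
      _ ≤ ((n - 1 : ℕ) : ℝ) ^ 20 := pow_le_pow_left₀ (by positivity) hTm 20
  have hT0 : (0 : ℝ) < ((n - 1 : ℕ) : ℝ) ^ 20 := lt_of_lt_of_le (by positivity) hT20
  have hErrB : B ^ 2 * errTot (rr n) (U ^ 59 * U ^ 59 * U ^ 40) ≤ X * V := by
    calc B ^ 2 * errTot (rr n) (U ^ 59 * U ^ 59 * U ^ 40)
        ≤ (10 ^ 16 * (m : ℝ) ^ 4) * (X / ((n - 1 : ℕ) : ℝ) ^ 20) := by
          apply mul_le_mul hB2 h3 _ (by positivity)
          unfold errTot
          exact Finset.sum_nonneg fun q _ => mul_nonneg (by positivity) (rr_nonneg n q)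
      _ ≤ (10 ^ 16 * (m : ℝ) ^ 4) * (X / (10 ^ 51 * (m : ℝ) ^ 3)) := by
          apply mul_le_mul_of_nonneg_left _ (by positivity)
          apply div_le_div_of_nonneg_left hX0.le (by positivity) hT20
      _ = X * (m / 10 ^ 35) := by
          field_simp
      _ ≤ X * V := by
          apply mul_le_mul_of_nonneg_left _ hX0.le
          have : (m : ℝ) / 10 ^ 35 ≤ m * (4 / 5) := by
            rw [div_le_iff₀ (by positivity)]
            nlinarith
          linarith [hV.1]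
  have h5 : X * (34150 * V) ≤ X * (∑ k ∈ DD (U ^ 59), ys U 59 k ^ 2 / (Nat.totient k : ℝ) -
      ∑ p ∈ PP (U ^ 40), (1 / (p : ℝ)) *
        ∑ k ∈ DD (U ^ 59), (ys U 59 k - ys U 59 (k * p)) ^ 2 / (Nat.totient k : ℝ)) :=
    mul_le_mul_of_nonneg_left hmain hX0.le
  have hL1up : L1 ≤ V * (1770 + 1 / 1000) := by
    rw [hL1]
    calc ∑ j ∈ Icc 1 59, G5 (U ^ j) ≤ ∑ j ∈ Icc (1 : ℕ) 59, (V * (j : ℝ) + 1 / 10 ^ 6 * V) := by
          apply Finset.sum_le_sum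
          intro j _
          have := (abs_le.mp (hG j)).2
          linarith
      _ = V * 1770 + 59 * (1 / 10 ^ 6 * V) := by
          rw [Finset.sum_add_distrib, ← Finset.mul_sum, ← Nat.cast_sum, sum_num2,
            Finset.sum_const, Nat.card_Icc, nsmul_eq_mul]
          norm_num
      _ ≤ V * (1770 + 1 / 1000) := by
          norm_num
          linarith
  have hL10 : 0 ≤ L1 := Finset.sum_nonneg fun _ _ => G5_nonneg _
  have hL2 : L1 ^ 2 ≤ V ^ 2 * (1770 + 1 / 1000) ^ 2 := by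
    rw [← mul_pow]
    exact pow_le_pow_left₀ hL10 hL1up 2
  set c : ℝ := ((sift (KK (n - 1) 10) (Npal n) (U ^ 40)).card : ℝ) with hc
  have hc0 : 0 ≤ c := Nat.cast_nonneg _
  have h6 : X * (34149 * V) ≤ V ^ 2 * (1770 + 1 / 1000) ^ 2 * c := by
    have h7 := mul_le_mul_of_nonneg_right hL2 hc0
    linarith
  have h8 : 34149 * X ≤ V * ((1770 + 1 / 1000) ^ 2 * c) := by
    have h9 : V * (34149 * X) ≤ V * (V * ((1770 + 1 / 1000) ^ 2 * c)) := by
      calc V * (34149 * X) = X * (34149 * V) := by ring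
        _ ≤ _ := h6
        _ = _ := by ring
    exact le_of_mul_le_mul_left h9 hV0
  have h10 : 1089 / 100000 * (X / V) = (1089 / 100000 * X) / V := by ring
  rw [h10, div_le_iff₀ hV0]
  have h11 : (1770 + 1 / 1000 : ℝ) ^ 2 ≤ 3132904 := by norm_num
  have h12 : V * ((1770 + 1 / 1000) ^ 2 * c) ≤ V * (3132904 * c) := by
    apply mul_le_mul_of_nonneg_left _ hV0.le
    exact mul_le_mul_of_nonneg_right h11 hc0
  linarith

end Pool.Agent.Helper10.P5
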