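import Pool.Agent.Helper10.P5.Asm

/-! Assembly: the weighted upper bound. -/

namespace Pool.Agent.Helper10.P5

open Finset Pool.Agent.Helper10

lemma pow10_not_coprime (k : ℕ) (hk : 1 ≤ k) : ¬ (10 ^ k).Coprime 10 := by
  intro h
  have h1 : Nat.gcd (10 ^ k) 10 = 10 := by
    rw [Nat.gcd_comm]
    apply Nat.gcd_eq_left
    exact dvd_pow_self 10 (by omega)
  rw [Nat.Coprime, h1] at h
  norm_num at h

/-- one prime -/
lemma cell_prime (m n i p : ℕ) (hm : 1000 ≤ m) (hi : 40 ≤ i) (hi2 : i ≤ 153)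
    (hp : p ∈ cellP (10 ^ (2 * m)) i) :
    ((((sift (KK (n - 1) 10) (Npal n) ((10 ^ (2 * m)) ^ 40)).filter
      (fun f => p ∣ Npal n f)).card : ℕ) : ℝ) ≤
      10 ^ (n - 1) / (p * G5 (10 ^ (m * min (158 - i) 80))) +
      (1 + Real.log ((10 ^ (m * min (158 - i) 80) : ℕ) : ℝ)) ^ 2 *
        ∑ d1 ∈ DD (10 ^ (m * min (158 - i) 80)), ∑ d2 ∈ DD (10 ^ (m * min (158 - i) 80)),
          rr n (Nat.lcm (Nat.lcm d1 d2) p) := by
  classical
  rw [mem_cellP] at hp
  set W := 10 ^ (m * min (158 - i) 80) with hW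
  have hW1 : 1 ≤ W := Nat.one_le_pow _ _ (by norm_num)
  have hWz : W ≤ (10 ^ (2 * m)) ^ 40 := by
    rw [hW, ← pow_mul]
    apply Nat.pow_le_pow_right (by norm_num)
    have : min (158 - i) 80 ≤ 80 := min_le_right _ _
    calc m * min (158 - i) 80 ≤ m * 80 := Nat.mul_le_mul_left m this
      _ = 2 * m * 40 := by ring
  have hzi : (10 ^ (2 * m)) ^ 40 ≤ (10 ^ (2 * m)) ^ i :=
    Nat.pow_le_pow_right (Nat.one_le_pow _ _ (by norm_num)) hi
  have hp10 : p.Coprime 10 := by
    have h1 : 10 < p := by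
      calc 10 = 10 ^ 1 := by norm_num
        _ ≤ (10 ^ (2 * m)) ^ i := by
            rw [← pow_mul]
            apply Nat.pow_le_pow_right (by norm_num)
            have : 1 ≤ m * i := Nat.mul_pos (by omega) (by omega)
            nlinarith
        _ < p := hp.1.1
    rw [Nat.Prime.coprime_iff_not_dvd hp.2]
    intro h
    have := Nat.le_of_dvd (by norm_num) h
    omega
  apply up5 (KK (n - 1) 10) (Npal n) (10 ^ (n - 1)) (rr n) (fun q _ _ => rr_spec n q) W p hW1 hp.2 hp10
    (by omega)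
  · intro f hf
    unfold sift at hf
    rw [Finset.mem_filter, Finset.mem_filter] at hf
    exact hf.1.1
  · intro f hf
    unfold sift at hf
    rw [Finset.mem_filter, Finset.mem_filter] at hf
    refine ⟨hf.2, ?_⟩
    intro d hd hdN
    by_contra hd1
    rw [mem_DD] at hd
    have hq := Nat.minFac_prime hd1
    have hqd := Nat.minFac_dvd d
    have hq10 : (Nat.minFac d).Coprime 10 := Nat.Coprime.coprime_dvd_left hqd hd.2.2
    have hqle : Nat.minFac d ≤ d := Nat.minFac_le (by omega)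
    rcases Nat.lt_or_ge (Nat.minFac d) ((10 ^ (2 * m)) ^ 40) with h1 | h1
    · exact hf.1.2 _ ((mem_PP _ _).mpr ⟨h1, hq, hq10⟩) (hqd.trans hdN)
    · have h2 : Nat.minFac d = (10 ^ (2 * m)) ^ 40 := by omega
      rw [h2, ← pow_mul] at hq10
      exact pow10_not_coprime _ (by omega) hq10

/-- the weighted sum over the primes of medium size -/
theorem upS (m n : ℕ) (V C : ℝ) (hg : GridOK (1 / 10 ^ 6) m V C) (hm : 1000 ≤ m)
    (hn : 640 * m ≤ n)
    (hErr : ∀ Q : ℕ, Q ≤ 10 ^ (318 * m) →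
      errTot (rr n) Q ≤ 10 ^ (n - 1) / ((n - 1 : ℕ) : ℝ) ^ 20) :
    ∑ i ∈ Icc 40 153, ∑ p ∈ cellP (10 ^ (2 * m)) i,
      (1 - Real.log p / Real.log (((10 ^ (2 * m)) ^ 154 : ℕ) : ℝ)) *
      (((sift (KK (n - 1) 10) (Npal n) ((10 ^ (2 * m)) ^ 40)).filter
        (fun f => p ∣ Npal n f)).card : ℝ) ≤ 1839 / 100000 * (10 ^ (n - 1) / V) := by
  classical
  have hV := V_bounds m V C _ hg
  have hmR : (1000 : ℝ) ≤ m := by exact_mod_cast hm
  have hV0 : 0 < V := by linarith [hV.1]
  have hl10 := log10_bounds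
  have hlogU : Real.log ((10 ^ (2 * m) : ℕ) : ℝ) = 2 * m * Real.log 10 := by
    push_cast
    rw [Real.log_pow]
    push_cast
    ring
  set X : ℝ := 10 ^ (n - 1) with hX
  have hX0 : 0 < X := by rw [hX]; positivity
  have hTm : (m : ℝ) ≤ ((n - 1 : ℕ) : ℝ) := by exact_mod_cast (by omega : m ≤ n - 1)
  have hT20 : 10 ^ 51 * (m : ℝ) ^ 3 ≤ ((n - 1 : ℕ) : ℝ) ^ 20 := by
    calc 10 ^ 51 * (m : ℝ) ^ 3 = 1000 ^ 17 * (m : ℝ) ^ 3 := by norm_num
      _ ≤ (m : ℝ) ^ 17 * (m : ℝ) ^ 3 := by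
          apply mul_le_mul_of_nonneg_right _ (by positivity)
          exact pow_le_pow_left₀ (by norm_num) hmR 17
      _ = (m : ℝ) ^ 20 := by ring
      _ ≤ ((n - 1 : ℕ) : ℝ) ^ 20 := pow_le_pow_left₀ (by positivity) hTm 20
  have hT0 : (0 : ℝ) < ((n - 1 : ℕ) : ℝ) ^ 20 := lt_of_lt_of_le (by positivity) hT20
  set ε : ℝ := 1 / 10 ^ 6 with hε
  have key : ∀ i ∈ Icc (40 : ℕ) 153, ∑ p ∈ cellP (10 ^ (2 * m)) i,
      (1 - Real.log p / Real.log (((10 ^ (2 * m)) ^ 154 : ℕ) : ℝ)) *
      (((sift (KK (n - 1) 10) (Npal n) ((10 ^ (2 * m)) ^ 40)).filter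
        (fun f => p ∣ Npal n f)).card : ℝ) ≤
      (X / V * ((1 + ε) / (1 - ε))) *
        ((1 - (i : ℝ) / 154) / ((i : ℝ) * (((min (158 - i) 80 : ℕ) : ℝ) / 2))) +
      X / V * (1 / 10 ^ 40) := by
    intro i hi
    rw [Finset.mem_Icc] at hi
    have hM5 : 5 ≤ min (158 - i) 80 := by omega
    have hMle : min (158 - i) 80 ≤ 158 - i := min_le_left _ _
    have hM80 : min (158 - i) 80 ≤ 80 := min_le_right _ _
    have hcp := fun p hp => cell_prime m n i p hm hi.1 hi.2 hp
    have hG2 := hg.G2 (min (158 - i) 80)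
    have hcell := hg.cell i (by omega)
    generalize hMeq : min (158 - i) 80 = M at *
    have hMR : (5 : ℝ) ≤ M := by exact_mod_cast hM5
    have hiR : (40 : ℝ) ≤ i := by exact_mod_cast hi.1
    have hiR2 : (i : ℝ) ≤ 153 := by exact_mod_cast hi.2
    set W := 10 ^ (m * M) with hW
    set w : ℝ := 1 - (i : ℝ) / 154 with hw
    have hw0 : 0 ≤ w := by rw [hw]; linarith
    have hw1 : w ≤ 1 := by rw [hw]; linarith
    have hGW : V * ((M : ℝ) / 2 * (1 - ε)) ≤ G5 W := by
      refine le_trans ?_ hG2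
      apply mul_le_mul_of_nonneg_left _ hV0.le
      have : 0 < ε := by rw [hε]; norm_num
      nlinarith
    have h1ε : 0 < 1 - ε := by rw [hε]; norm_num
    have hGW0 : 0 < V * ((M : ℝ) / 2 * (1 - ε)) := by positivity
    have hG0 : 0 < G5 W := lt_of_lt_of_le hGW0 hGW
    have hlogW0 : 0 ≤ Real.log (W : ℝ) := Real.log_natCast_nonneg W
    have hlogW : 1 + Real.log (W : ℝ) ≤ 721 * m := by
      rw [hW, Nat.cast_pow, Real.log_pow]
      push_cast
      have h1 : (m : ℝ) * M ≤ m * 80 := by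
        apply mul_le_mul_of_nonneg_left _ (by positivity)
        exact_mod_cast hM80
      have h2 : (m : ℝ) * M * Real.log 10 ≤ (m * 80) * 9 :=
        mul_le_mul h1 hl10.2 (by linarith) (by positivity)
      linarith
    -- termwise
    have hterm : ∀ p ∈ cellP (10 ^ (2 * m)) i,
        (1 - Real.log p / Real.log (((10 ^ (2 * m)) ^ 154 : ℕ) : ℝ)) *
        (((sift (KK (n - 1) 10) (Npal n) ((10 ^ (2 * m)) ^ 40)).filter
          (fun f => p ∣ Npal n f)).card : ℝ) ≤
        w * (X / G5 W) * (1 / (p : ℝ)) + (1 + Real.log (W : ℝ)) ^ 2 *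
          ∑ d1 ∈ DD W, ∑ d2 ∈ DD W, rr n (Nat.lcm (Nat.lcm d1 d2) p) := by
      intro p hp
      have h1 := hcp p hp
      rw [mem_cellP] at hp
      have hp0 : (0 : ℝ) < p := by exact_mod_cast hp.2.pos
      have h2 : (i : ℝ) / 154 ≤ Real.log p / Real.log (((10 ^ (2 * m)) ^ 154 : ℕ) : ℝ) := by
        have h3 : (i : ℝ) * (2 * m * Real.log 10) ≤ Real.log p := by
          rw [← hlogU, ← Real.log_pow]
          apply Real.log_le_log (by positivity)
          exact_mod_cast hp.1.1.le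
        have h4 : Real.log (((10 ^ (2 * m)) ^ 154 : ℕ) : ℝ) = 154 * (2 * m * Real.log 10) := by
          rw [Nat.cast_pow, Real.log_pow, hlogU]
          push_cast
          ring
        rw [h4, div_le_div_iff₀ (by norm_num) (by
          have : 0 < Real.log 10 := by linarith
          positivity)]
        linarith
      have h5 : 1 - Real.log p / Real.log (((10 ^ (2 * m)) ^ 154 : ℕ) : ℝ) ≤ w := by
        rw [hw]; linarith
      set c : ℝ := (((sift (KK (n - 1) 10) (Npal n) ((10 ^ (2 * m)) ^ 40)).filter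
          (fun f => p ∣ Npal n f)).card : ℝ) with hc
      have hc0 : 0 ≤ c := Nat.cast_nonneg _
      have hE0 : 0 ≤ (1 + Real.log (W : ℝ)) ^ 2 *
          ∑ d1 ∈ DD W, ∑ d2 ∈ DD W, rr n (Nat.lcm (Nat.lcm d1 d2) p) := by
        apply mul_nonneg (sq_nonneg _)
        exact Finset.sum_nonneg fun _ _ => Finset.sum_nonneg fun _ _ => rr_nonneg _ _
      calc (1 - Real.log p / Real.log (((10 ^ (2 * m)) ^ 154 : ℕ) : ℝ)) * c ≤ w * c :=
            mul_le_mul_of_nonneg_right h5 hc0
        _ ≤ w * (X / (p * G5 W) + (1 + Real.log (W : ℝ)) ^ 2 *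
            ∑ d1 ∈ DD W, ∑ d2 ∈ DD W, rr n (Nat.lcm (Nat.lcm d1 d2) p)) :=
            mul_le_mul_of_nonneg_left h1 hw0
        _ = w * (X / G5 W) * (1 / (p : ℝ)) + w * ((1 + Real.log (W : ℝ)) ^ 2 *
            ∑ d1 ∈ DD W, ∑ d2 ∈ DD W, rr n (Nat.lcm (Nat.lcm d1 d2) p)) := by
            field_simp
        _ ≤ _ := by
            have := mul_le_mul_of_nonneg_right hw1 hE0
            linarith
    have herr : ∑ p ∈ cellP (10 ^ (2 * m)) i, ∑ d1 ∈ DD W, ∑ d2 ∈ DD W,
        rr n (Nat.lcm (Nat.lcm d1 d2) p) ≤ X / (10 ^ 51 * (m : ℝ) ^ 3) := by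
      have h1 := err_regroup (rr n) (rr_nonneg n) W ((10 ^ (2 * m)) ^ (i + 1))
        (cellP (10 ^ (2 * m)) i) (by
          intro p hp
          rw [mem_cellP] at hp
          refine ⟨hp.2.pos, hp.1.2, ?_⟩
          have h1 : 10 < p := by
            calc 10 = 10 ^ 1 := by norm_num
              _ ≤ (10 ^ (2 * m)) ^ i := by
                  rw [← pow_mul]
                  apply Nat.pow_le_pow_right (by norm_num)
                  have : 1 ≤ m * i := Nat.mul_pos (by omega) (by omega)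
                  nlinarith
              _ < p := hp.1.1
          rw [Nat.Prime.coprime_iff_not_dvd hp.2]
          intro h
          have := Nat.le_of_dvd (by norm_num) h
          omega)
      refine h1.trans ?_
      refine (hErr _ ?_).trans ?_
      · rw [hW, ← pow_mul, ← pow_add, ← pow_add]
        apply Nat.pow_le_pow_right (by norm_num)
        have h2 : m * M ≤ m * (158 - i) := Nat.mul_le_mul_left m hMle
        have h3 : m * (158 - i) + m * (158 - i) + 2 * m * (i + 1) = 318 * m := by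
          obtain ⟨k, hk⟩ : ∃ k, k = 158 - i := ⟨_, rfl⟩
          have hk2 : i = 158 - k := by omega
          rw [← hk]
          have hk3 : k ≤ 158 := by omega
          zify [hk2, hk3]
          ring
        omega
      · exact div_le_div_of_nonneg_left hX0.le (by positivity) hT20
    calc ∑ p ∈ cellP (10 ^ (2 * m)) i,
          (1 - Real.log p / Real.log (((10 ^ (2 * m)) ^ 154 : ℕ) : ℝ)) *
          (((sift (KK (n - 1) 10) (Npal n) ((10 ^ (2 * m)) ^ 40)).filter
            (fun f => p ∣ Npal n f)).card : ℝ)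
        ≤ ∑ p ∈ cellP (10 ^ (2 * m)) i, (w * (X / G5 W) * (1 / (p : ℝ)) +
          (1 + Real.log (W : ℝ)) ^ 2 *
          ∑ d1 ∈ DD W, ∑ d2 ∈ DD W, rr n (Nat.lcm (Nat.lcm d1 d2) p)) := Finset.sum_le_sum hterm
      _ = w * (X / G5 W) * ∑ p ∈ cellP (10 ^ (2 * m)) i, 1 / (p : ℝ) +
          (1 + Real.log (W : ℝ)) ^ 2 * ∑ p ∈ cellP (10 ^ (2 * m)) i, ∑ d1 ∈ DD W, ∑ d2 ∈ DD W,
            rr n (Nat.lcm (Nat.lcm d1 d2) p) := by
          rw [Finset.sum_add_distrib, Finset.mul_sum, Finset.mul_sum]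
      _ ≤ (X / V * ((1 + ε) / (1 - ε))) * (w / ((i : ℝ) * ((M : ℝ) / 2))) +
          X / V * (1 / 10 ^ 40) := by
          apply add_le_add
          · calc w * (X / G5 W) * ∑ p ∈ cellP (10 ^ (2 * m)) i, 1 / (p : ℝ)
                ≤ w * (X / (V * ((M : ℝ) / 2 * (1 - ε)))) * ((1 + ε) / i) := by
                  apply mul_le_mul _ hcell _ _
                  · apply mul_le_mul_of_nonneg_left _ hw0
                    exact div_le_div_of_nonneg_left hX0.le hGW0 hGW
                  · exact Finset.sum_nonneg fun _ _ => by positivity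
                  · positivity
              _ = (X / V * ((1 + ε) / (1 - ε))) * (w / ((i : ℝ) * ((M : ℝ) / 2))) := by
                  field_simp
          · calc (1 + Real.log (W : ℝ)) ^ 2 * ∑ p ∈ cellP (10 ^ (2 * m)) i, ∑ d1 ∈ DD W,
                  ∑ d2 ∈ DD W, rr n (Nat.lcm (Nat.lcm d1 d2) p)
                ≤ (721 * (m : ℝ)) ^ 2 * (X / (10 ^ 51 * (m : ℝ) ^ 3)) := by
                  apply mul_le_mul _ herr _ (by positivity)
                  · exact pow_le_pow_left₀ (by linarith) hlogW 2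
                  · exact Finset.sum_nonneg fun _ _ => Finset.sum_nonneg fun _ _ =>
                      Finset.sum_nonneg fun _ _ => rr_nonneg _ _
              _ = X / m * (721 ^ 2 / 10 ^ 51) := by
                  field_simp
              _ ≤ (8 * (X / V)) * (721 ^ 2 / 10 ^ 51) := by
                  apply mul_le_mul_of_nonneg_right _ (by positivity)
                  rw [← mul_div_assoc, div_le_div_iff₀ (by positivity) hV0]
                  nlinarith [hV.2]
              _ ≤ X / V * (1 / 10 ^ 40) := by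
                  have : 0 < X / V := by positivity
                  norm_num
                  linarith
  refine (Finset.sum_le_sum key).trans ?_
  rw [Finset.sum_add_distrib, ← Finset.mul_sum, Finset.sum_const, Nat.card_Icc, nsmul_eq_mul]
  have h1 := num5
  have hXV : 0 < X / V := by positivity
  have h2 : (X / V * ((1 + ε) / (1 - ε))) * ∑ i ∈ Icc (40 : ℕ) 153,
      ((1 - (i : ℝ) / 154) / ((i : ℝ) * (((min (158 - i) 80 : ℕ) : ℝ) / 2))) ≤
      (X / V * ((1 + ε) / (1 - ε))) * (18384 / 10 ^ 6) := by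
    apply mul_le_mul_of_nonneg_left h1
    have : 0 ≤ (1 + ε) / (1 - ε) := by rw [hε]; norm_num
    positivity
  have h3 : (1 + ε) / (1 - ε) ≤ 1 + 3 / 10 ^ 6 := by
    rw [hε]
    norm_num
  have h4 : (X / V * ((1 + ε) / (1 - ε))) * (18384 / 10 ^ 6) ≤
      (X / V * (1 + 3 / 10 ^ 6)) * (18384 / 10 ^ 6) := by
    apply mul_le_mul_of_nonneg_right _ (by norm_num)
    exact mul_le_mul_of_nonneg_left h3 hXV.le
  norm_num at h2 h4 ⊢
  linarith

end Pool.Agent.Helper10.P5
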