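import Pool.Agent.Helper10.InnerBlock
import Pool.Agent.Helper10.Count

/-! Products of full decimal digit sums: expansion, second moments. -/

namespace Pool.Agent.Helper10.P5

open Finset Pool.Agent.Helper10

/-- normalized digit sum -/
noncomputable def ph (x : ℝ) : ℝ := ‖∑ d ∈ range 10, ee ((d : ℝ) * x)‖ / 10

lemma ph_nonneg (x : ℝ) : 0 ≤ ph x := by unfold ph; positivity

lemma ph_le_one (x : ℝ) : ph x ≤ 1 := by
  unfold ph
  rw [div_le_one (by norm_num)]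
  refine (norm_sum_le _ _).trans ?_
  simp [norm_ee]

/-- normalized product over the distances in `J` -/
noncomputable def GF (κ T : ℕ) (J : Finset ℕ) (α : ℝ) : ℝ :=
  ∏ t ∈ J, ph (α * ((κ * ww 10 T t : ℕ) : ℝ))

lemma GF_nonneg (κ T : ℕ) (J : Finset ℕ) (α : ℝ) : 0 ≤ GF κ T J α :=
  Finset.prod_nonneg fun _ _ => ph_nonneg _

lemma GF_le_one (κ T : ℕ) (J : Finset ℕ) (α : ℝ) : GF κ T J α ≤ 1 :=
  Finset.prod_le_one (fun _ _ => ph_nonneg _) (fun _ _ => ph_le_one _)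

lemma GF_union (κ T : ℕ) (J J' : Finset ℕ) (h : Disjoint J J') (α : ℝ) :
    GF κ T (J ∪ J') α = GF κ T J α * GF κ T J' α := by
  unfold GF
  rw [Finset.prod_union h]

lemma GF_anti (κ T : ℕ) (J J' : Finset ℕ) (h : J ⊆ J') (α : ℝ) :
    GF κ T J' α ≤ GF κ T J α := by
  classical
  have : J' = J ∪ (J' \ J) := by rw [Finset.union_sdiff_of_subset h]
  rw [this, GF_union _ _ _ _ Finset.disjoint_sdiff]
  exact mul_le_of_le_one_right (GF_nonneg _ _ _ _) (GF_le_one _ _ _ _)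

/-- the digit sum is dominated by the two-term sum. -/
lemma ph_le (x : ℝ) : ph x ≤ ‖(1 + ee x) / 2‖ := by
  have h1 : ∑ d ∈ range 10, ee ((d : ℝ) * x) =
      10 * (((1 + ee x) / 2) * ((∑ j ∈ range 5, ee x ^ (2 * j)) / 5)) := by
    have : ∀ d ∈ range 10, ee ((d : ℝ) * x) = ee x ^ d := fun d _ => ee_nat_mul d x
    rw [Finset.sum_congr rfl this]
    simp only [Finset.sum_range_succ, Finset.sum_range_zero]
    ring
  unfold ph
  rw [h1, norm_mul, norm_mul]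
  have h2 : ‖(10 : ℂ)‖ = 10 := by norm_num
  rw [h2, mul_comm (10 : ℝ), mul_div_assoc, div_self (by norm_num : (10 : ℝ) ≠ 0), mul_one]
  apply mul_le_of_le_one_right (norm_nonneg _)
  rw [norm_div]
  have h3 : ‖(5 : ℂ)‖ = 5 := by norm_num
  rw [h3, div_le_one (by norm_num)]
  refine (norm_sum_le _ _).trans ?_
  simp [norm_ee]

/-- coefficients: squared digit sum on `I`, digit sum on `A`, trivial elsewhere -/
noncomputable def cc (I A : Finset ℕ) (t k : ℕ) : ℝ :=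
  if t ∈ I then (if k < 10 then ((k : ℝ) + 1) / 100 else (19 - (k : ℝ)) / 100)
  else if t ∈ A then (if k < 10 then 1 / 10 else 0)
  else (if k = 0 then 1 else 0)

lemma cc_nonneg (I A : Finset ℕ) (t k : ℕ) (hk : k < 19) : 0 ≤ cc I A t k := by
  unfold cc
  have hk' : (k : ℝ) ≤ 19 := by exact_mod_cast hk.le
  split_ifs
  · positivity
  · apply div_nonneg (by linarith) (by norm_num)
  · norm_num
  · norm_num
  · norm_num
  · norm_num

lemma cc_sum (I A : Finset ℕ) (t : ℕ) : ∑ k ∈ range 19, cc I A t k = 1 := by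
  unfold cc
  split_ifs
  · simp only [Finset.sum_range_succ, Finset.sum_range_zero]
    norm_num
  · simp only [Finset.sum_range_succ, Finset.sum_range_zero]
    norm_num
  · simp only [Finset.sum_range_succ, Finset.sum_range_zero]
    norm_num

lemma cc_sq_sum (I A : Finset ℕ) (t : ℕ) : ∑ k ∈ range 19, cc I A t k ^ 2 =
    if t ∈ I then 67 / 1000 else if t ∈ A then 1 / 10 else 1 := by
  unfold cc
  split_ifs
  · simp only [Finset.sum_range_succ, Finset.sum_range_zero]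
    norm_num
  · simp only [Finset.sum_range_succ, Finset.sum_range_zero]
    norm_num
  · simp only [Finset.sum_range_succ, Finset.sum_range_zero]
    norm_num

lemma cc_norm (I A : Finset ℕ) (t : ℕ) (x : ℝ) :
    ‖∑ k ∈ range 19, ((cc I A t k : ℝ) : ℂ) * ee ((k : ℝ) * x)‖ =
      if t ∈ I then ph x ^ 2 else if t ∈ A then ph x else 1 := by
  have h0 : ∀ k ∈ range 19, ((cc I A t k : ℝ) : ℂ) * ee ((k : ℝ) * x) =
      ((cc I A t k : ℝ) : ℂ) * ee x ^ k := fun k _ => by rw [ee_nat_mul]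
  have h1 : ∑ d ∈ range 10, ee ((d : ℝ) * x) = ∑ d ∈ range 10, ee x ^ d :=
    Finset.sum_congr rfl fun d _ => ee_nat_mul d x
  rw [Finset.sum_congr rfl h0]
  unfold cc ph
  rw [h1]
  have h10 : ‖(10 : ℂ)‖ = 10 := by norm_num
  have h100 : ‖(100 : ℂ)‖ = 100 := by norm_num
  split_ifs
  · have e1 : (‖∑ d ∈ range 10, ee x ^ d‖ / 10) ^ 2 = ‖(∑ d ∈ range 10, ee x ^ d) ^ 2 / 100‖ := by
      rw [norm_div, norm_pow, h100, div_pow]
      norm_num
    rw [e1]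
    congr 1
    simp only [Finset.sum_range_succ, Finset.sum_range_zero]
    norm_num
    ring
  · have e1 : ‖∑ d ∈ range 10, ee x ^ d‖ / 10 = ‖(∑ d ∈ range 10, ee x ^ d) / 10‖ := by
      rw [norm_div, h10]
    rw [e1]
    congr 1
    simp only [Finset.sum_range_succ, Finset.sum_range_zero]
    norm_num
    ring
  · simp only [Finset.sum_range_succ, Finset.sum_range_zero]
    norm_num

/-- value of a digit vector -/
def vl (ℓ : ℕ) (f : Fin ℓ → ℕ) : ℕ := ∑ i : Fin ℓ, f i * ww 10 ℓ ((i : ℕ) + 1)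

/-- digit vectors -/
def KK (ℓ M : ℕ) : Finset (Fin ℓ → ℕ) := Fintype.piFinset (fun _ : Fin ℓ => range M)

lemma vl_inj (ℓ M : ℕ) (hM : M ≤ 82) (f f' : Fin ℓ → ℕ) (hf : f ∈ KK ℓ M) (hf' : f' ∈ KK ℓ M)
    (h : vl ℓ f = vl ℓ f') : f = f' := by
  unfold KK at hf hf'
  rw [Fintype.mem_piFinset] at hf hf'
  have key := uniq 10 (by norm_num) ℓ
    (fun t => if h : t - 1 < ℓ then ((f ⟨t - 1, h⟩ : ℤ) - f' ⟨t - 1, h⟩) else 0)
    (by
      intro t _
      norm_num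
      split_ifs with h
      · have h1 := Finset.mem_range.mp (hf ⟨t - 1, h⟩)
        have h2 := Finset.mem_range.mp (hf' ⟨t - 1, h⟩)
        rw [abs_le]
        constructor <;> omega
      · simp)
    (by
      rw [sum_Icc_fin]
      have e1 : ∀ i : Fin ℓ, (if h : ((i : ℕ) + 1) - 1 < ℓ then
          ((f ⟨((i : ℕ) + 1) - 1, h⟩ : ℤ) - f' ⟨((i : ℕ) + 1) - 1, h⟩) else 0) *
          (ww 10 ℓ ((i : ℕ) + 1) : ℤ) =
          (f i : ℤ) * (ww 10 ℓ ((i : ℕ) + 1) : ℤ) - (f' i : ℤ) * (ww 10 ℓ ((i : ℕ) + 1) : ℤ) := by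
        intro i
        rw [dif_pos (by simp)]
        simp only [Nat.add_sub_cancel, Fin.eta]
        ring
      rw [Finset.sum_congr rfl (fun i _ => e1 i), Finset.sum_sub_distrib, sub_eq_zero]
      unfold vl at h
      exact_mod_cast h)
  funext i
  have := key ((i : ℕ) + 1) (by rw [Finset.mem_Icc]; omega)
  simp only [Nat.add_sub_cancel, Fin.is_lt, dif_pos, Fin.eta] at this
  omega

lemma vl_le (ℓ M : ℕ) (f : Fin ℓ → ℕ) (hf : f ∈ KK ℓ M) : vl ℓ f ≤ (M - 1) * 10 ^ (2 * ℓ + 1) := by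
  unfold KK at hf
  rw [Fintype.mem_piFinset] at hf
  calc vl ℓ f = ∑ i, f i * ww 10 ℓ ((i : ℕ) + 1) := rfl
    _ ≤ ∑ i : Fin ℓ, (M - 1) * ww 10 ℓ ((i : ℕ) + 1) := by
        apply Finset.sum_le_sum
        intro i _
        apply Nat.mul_le_mul_right
        have := Finset.mem_range.mp (hf i)
        omega
    _ = (M - 1) * ∑ t ∈ Icc 1 ℓ, ww 10 ℓ t := by rw [← Finset.mul_sum, sum_Icc_fin]
    _ ≤ (M - 1) * 10 ^ (2 * ℓ + 1) := Nat.mul_le_mul_left _ (sum_ww_le 10 ℓ (by norm_num))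

/-- total coefficient of a digit vector -/
noncomputable def ct (I A : Finset ℕ) (ℓ : ℕ) (f : Fin ℓ → ℕ) : ℝ :=
  ∏ i : Fin ℓ, cc I A ((i : ℕ) + 1) (f i)

lemma ct_nonneg (I A : Finset ℕ) (ℓ : ℕ) (f : Fin ℓ → ℕ) (hf : f ∈ KK ℓ 19) : 0 ≤ ct I A ℓ f := by
  unfold KK at hf
  rw [Fintype.mem_piFinset] at hf
  exact Finset.prod_nonneg fun i _ => cc_nonneg _ _ _ _ (Finset.mem_range.mp (hf i))

lemma ct_sum (I A : Finset ℕ) (ℓ : ℕ) : ∑ f ∈ KK ℓ 19, ct I A ℓ f = 1 := by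
  unfold KK ct
  rw [← Finset.prod_univ_sum (fun _ : Fin ℓ => range 19) (fun i k => cc I A ((i : ℕ) + 1) k)]
  apply Finset.prod_eq_one
  intro i _
  exact cc_sum I A _

lemma ct_sq_sum (I A : Finset ℕ) (ℓ : ℕ) (hI : I ⊆ Icc 1 ℓ) (hA : A ⊆ Icc 1 ℓ) (hIA : Disjoint I A) :
    ∑ f ∈ KK ℓ 19, ct I A ℓ f ^ 2 = (67 / 1000) ^ I.card * (1 / 10) ^ A.card := by
  unfold KK ct
  have e1 : ∀ f : Fin ℓ → ℕ, (∏ i : Fin ℓ, cc I A ((i : ℕ) + 1) (f i)) ^ 2 =
      ∏ i : Fin ℓ, cc I A ((i : ℕ) + 1) (f i) ^ 2 := fun f => by rw [Finset.prod_pow]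
  rw [Finset.sum_congr rfl (fun f _ => e1 f),
    ← Finset.prod_univ_sum (fun _ : Fin ℓ => range 19) (fun i k => cc I A ((i : ℕ) + 1) k ^ 2)]
  rw [Finset.prod_congr rfl (fun (i : Fin ℓ) _ => cc_sq_sum I A ((i : ℕ) + 1))]
  rw [← prod_Icc_fin ℓ (fun t => if t ∈ I then (67 / 1000 : ℝ) else if t ∈ A then 1 / 10 else 1)]
  have e2 : ∀ t ∈ Icc 1 ℓ, (if t ∈ I then (67 / 1000 : ℝ) else if t ∈ A then 1 / 10 else 1) =
      (if t ∈ I then (67 / 1000 : ℝ) else 1) * (if t ∈ A then 1 / 10 else 1) := by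
    intro t _
    by_cases h : t ∈ I
    · have : t ∉ A := Finset.disjoint_left.mp hIA h
      simp [h, this]
    · simp [h]
  rw [Finset.prod_congr rfl e2, Finset.prod_mul_distrib, Finset.prod_ite_mem, Finset.prod_ite_mem,
    Finset.inter_eq_right.mpr hI, Finset.inter_eq_right.mpr hA, Finset.prod_const,
    Finset.prod_const]

/-- expansion of the block product -/
lemma GF_expand (κ T ℓ : ℕ) (I A : Finset ℕ) (hℓ : ℓ ≤ T) (hI : I ⊆ Icc 1 ℓ) (hA : A ⊆ Icc 1 ℓ)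
    (hIA : Disjoint I A) (α : ℝ) :
    GF κ T I α ^ 2 * GF κ T A α =
      ‖∑ f ∈ KK ℓ 19, ((ct I A ℓ f : ℝ) : ℂ) *
        ee (α * ((κ * 10 ^ (T - ℓ) * vl ℓ f : ℕ) : ℝ))‖ := by
  have e1 : GF κ T I α ^ 2 * GF κ T A α = ∏ t ∈ Icc 1 ℓ,
      (if t ∈ I then ph (α * ((κ * ww 10 T t : ℕ) : ℝ)) ^ 2 else
        if t ∈ A then ph (α * ((κ * ww 10 T t : ℕ) : ℝ)) else 1) := by
    unfold GF
    have e2 : ∀ t ∈ Icc 1 ℓ, (if t ∈ I then ph (α * ((κ * ww 10 T t : ℕ) : ℝ)) ^ 2 else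
        if t ∈ A then ph (α * ((κ * ww 10 T t : ℕ) : ℝ)) else 1) =
      (if t ∈ I then ph (α * ((κ * ww 10 T t : ℕ) : ℝ)) ^ 2 else 1) *
        (if t ∈ A then ph (α * ((κ * ww 10 T t : ℕ) : ℝ)) else 1) := by
      intro t _
      by_cases h : t ∈ I
      · have : t ∉ A := Finset.disjoint_left.mp hIA h
        simp [h, this]
      · simp [h]
    rw [Finset.prod_congr rfl e2, Finset.prod_mul_distrib, Finset.prod_ite_mem,
      Finset.prod_ite_mem, Finset.inter_eq_right.mpr hI, Finset.inter_eq_right.mpr hA,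
      Finset.prod_pow]
  rw [e1]
  have e3 : ∀ t ∈ Icc 1 ℓ, (if t ∈ I then ph (α * ((κ * ww 10 T t : ℕ) : ℝ)) ^ 2 else
        if t ∈ A then ph (α * ((κ * ww 10 T t : ℕ) : ℝ)) else 1) =
      ‖∑ k ∈ range 19, ((cc I A t k : ℝ) : ℂ) *
        ee ((k : ℝ) * (α * ((κ * 10 ^ (T - ℓ) * ww 10 ℓ t : ℕ) : ℝ)))‖ := by
    intro t ht
    rw [cc_norm]
    have h2 := ww_add_left 10 ℓ t (T - ℓ) (Finset.mem_Icc.mp ht).2
    rw [show ℓ + (T - ℓ) = T by omega] at h2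
    rw [h2, ← mul_assoc]
  rw [Finset.prod_congr rfl e3, prod_Icc_fin, ← norm_prod]
  unfold KK ct
  rw [Finset.prod_univ_sum (fun _ : Fin ℓ => range 19)]
  congr 1
  apply Finset.sum_congr rfl
  intro f _
  rw [Finset.prod_mul_distrib]
  congr 1
  · push_cast
    rfl
  · rw [← ee_sum]
    congr 1
    unfold vl
    push_cast
    rw [Finset.mul_sum, Finset.mul_sum]
    apply Finset.sum_congr rfl
    intro i _
    ring

end Pool.Agent.Helper10.P5
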