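import Pool.Agent.Helper10.ArithSums

/-! The sum of `1 / φ(k)` over square-free `k ≤ t` coprime to `10` is `(2/5) log t + O(1)`. -/

namespace Pool.Agent.Helper10.P5

open Finset Pool.Agent.Helper10

/-- `G(t) = Σ_{k ≤ t, squarefree, (k,10)=1} 1/φ(k)` -/
noncomputable def G5 (t : ℕ) : ℝ := ∑ k ∈ DD t, 1 / (Nat.totient k : ℝ)

/-- integers up to `t` coprime to `10` -/
def CC (t : ℕ) : Finset ℕ := (Icc 1 t).filter (fun m => m.Coprime 10)

/-- `H(t) = Σ_{m ≤ t, (m,10)=1} 1/m` -/
noncomputable def H5 (t : ℕ) : ℝ := ∑ m ∈ CC t, 1 / (m : ℝ)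

lemma mem_CC (t m : ℕ) : m ∈ CC t ↔ (1 ≤ m ∧ m ≤ t) ∧ m.Coprime 10 := by
  unfold CC
  rw [Finset.mem_filter, Finset.mem_Icc]

lemma H5_ge (t : ℕ) (ht : 1 ≤ t) : 2 / 5 * (Real.log t - Real.log 10) ≤ H5 t := by
  classical
  set n := t / 10 with hn
  set C4 : Finset ℕ := {1, 3, 7, 9} with hC4
  have e1 : ∑ x ∈ Icc 1 n ×ˢ C4, 1 / ((10 * x.1 - x.2 : ℕ) : ℝ) ≤ ∑ m ∈ CC t, 1 / (m : ℝ) := by
    rw [← Finset.sum_image (s := Icc 1 n ×ˢ C4) (g := fun x : ℕ × ℕ => 10 * x.1 - x.2)
      (f := fun m : ℕ => 1 / (m : ℝ))]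
    · apply Finset.sum_le_sum_of_subset_of_nonneg
      · intro m hm
        rw [Finset.mem_image] at hm
        obtain ⟨⟨i, c⟩, hx, rfl⟩ := hm
        rw [Finset.mem_product, Finset.mem_Icc, hC4] at hx
        simp only at hx ⊢
        obtain ⟨⟨hi1, hi2⟩, hc⟩ := hx
        have hc' : c = 1 ∨ c = 3 ∨ c = 7 ∨ c = 9 := by simpa using hc
        rw [mem_CC]
        refine ⟨⟨by omega, by omega⟩, ?_⟩
        rw [show (10 : ℕ) = 2 * 5 by norm_num, Nat.Coprime, ← Nat.Coprime,
          Nat.coprime_mul_iff_right]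
        constructor
        · rw [Nat.coprime_two_right, Nat.odd_iff]
          omega
        · rw [Nat.coprime_comm, Nat.Prime.coprime_iff_not_dvd (by norm_num)]
          omega
      · intro _ _ _
        positivity
    · intro x hx y hy hxy
      rw [Finset.mem_coe, Finset.mem_product, Finset.mem_Icc, hC4] at hx hy
      obtain ⟨i, c⟩ := x
      obtain ⟨i', c'⟩ := y
      simp only at hx hy hxy
      have hc : c = 1 ∨ c = 3 ∨ c = 7 ∨ c = 9 := by simpa using hx.2
      have hc' : c' = 1 ∨ c' = 3 ∨ c' = 7 ∨ c' = 9 := by simpa using hy.2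
      have : i = i' ∧ c = c' := by omega
      rw [this.1, this.2]
  have e2 : 2 / 5 * ∑ i ∈ Icc 1 n, (1 : ℝ) / i ≤
      ∑ x ∈ Icc 1 n ×ˢ C4, 1 / ((10 * x.1 - x.2 : ℕ) : ℝ) := by
    rw [Finset.sum_product, Finset.mul_sum]
    apply Finset.sum_le_sum
    intro i hi
    rw [Finset.mem_Icc] at hi
    have hi0 : (0 : ℝ) < i := by exact_mod_cast hi.1
    have e3 : ∑ c ∈ C4, 1 / (10 * (i : ℝ)) ≤ ∑ c ∈ C4, 1 / ((10 * i - c : ℕ) : ℝ) := by
      apply Finset.sum_le_sum
      intro c hc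
      have hc' : c = 1 ∨ c = 3 ∨ c = 7 ∨ c = 9 := by simpa [hC4] using hc
      apply one_div_le_one_div_of_le
      · have : 0 < 10 * i - c := by omega
        exact_mod_cast this
      · have : 10 * i - c ≤ 10 * i := Nat.sub_le _ _
        exact_mod_cast this
    have e4 : C4.card = 4 := by rw [hC4]; rfl
    rw [Finset.sum_const, e4, nsmul_eq_mul] at e3
    refine le_trans (le_of_eq ?_) e3
    push_cast
    field_simp
    norm_num
  have e5 : Real.log t - Real.log 10 ≤ Real.log ((n : ℝ) + 1) := by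
    have hY0 : (0 : ℝ) < t := by exact_mod_cast ht
    rw [← Real.log_div hY0.ne' (by norm_num)]
    apply Real.log_le_log (by positivity)
    rw [div_le_iff₀ (by norm_num)]
    have : t < (n + 1) * 10 := by omega
    exact_mod_cast this.le
  have e6 := harm_ge n
  unfold H5
  linarith

lemma H5_le (t : ℕ) (ht : 1 ≤ t) : H5 t ≤ 2 / 5 * Real.log t + 5 := by
  classical
  set n := t / 10 with hn
  set C4 : Finset ℕ := {1, 3, 7, 9} with hC4
  have hsub : CC t ⊆ (Icc 0 n ×ˢ C4).image (fun x : ℕ × ℕ => 10 * x.1 + x.2) := by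
    intro m hm
    rw [mem_CC] at hm
    rw [Finset.mem_image]
    refine ⟨(m / 10, m % 10), ?_, ?_⟩
    · rw [Finset.mem_product, Finset.mem_Icc, hC4]
      refine ⟨⟨Nat.zero_le _, by simp only; omega⟩, ?_⟩
      have h2 : m % 2 = 1 := by
        have := Nat.Coprime.coprime_dvd_right (by norm_num : 2 ∣ 10) hm.2
        rw [Nat.coprime_two_right, Nat.odd_iff] at this
        exact this
      have h5 : ¬ 5 ∣ m := by
        have := Nat.Coprime.coprime_dvd_right (by norm_num : 5 ∣ 10) hm.2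
        rw [Nat.coprime_comm, Nat.Prime.coprime_iff_not_dvd (by norm_num)] at this
        exact this
      have : m % 10 = 1 ∨ m % 10 = 3 ∨ m % 10 = 7 ∨ m % 10 = 9 := by omega
      simpa using this
    · simp only
      omega
  have h1 : H5 t ≤ ∑ x ∈ Icc 0 n ×ˢ C4, 1 / ((10 * x.1 + x.2 : ℕ) : ℝ) := by
    unfold H5
    calc ∑ m ∈ CC t, 1 / (m : ℝ) ≤
        ∑ m ∈ (Icc 0 n ×ˢ C4).image (fun x : ℕ × ℕ => 10 * x.1 + x.2), 1 / (m : ℝ) :=
          Finset.sum_le_sum_of_subset_of_nonneg hsub (fun _ _ _ => by positivity)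
      _ = ∑ x ∈ Icc 0 n ×ˢ C4, 1 / ((10 * x.1 + x.2 : ℕ) : ℝ) := by
          rw [Finset.sum_image]
          intro x hx y hy hxy
          rw [Finset.mem_coe, Finset.mem_product, Finset.mem_Icc, hC4] at hx hy
          obtain ⟨i, c⟩ := x
          obtain ⟨i', c'⟩ := y
          simp only at hx hy hxy
          have hc : c = 1 ∨ c = 3 ∨ c = 7 ∨ c = 9 := by simpa using hx.2
          have hc' : c' = 1 ∨ c' = 3 ∨ c' = 7 ∨ c' = 9 := by simpa using hy.2
          have : i = i' ∧ c = c' := by omega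
          rw [this.1, this.2]
  have h2 : ∑ x ∈ Icc 0 n ×ˢ C4, 1 / ((10 * x.1 + x.2 : ℕ) : ℝ) ≤
      4 + 2 / 5 * ∑ i ∈ Icc 1 n, (1 : ℝ) / i := by
    rw [Finset.sum_product]
    have e1 : Icc 0 n = insert 0 (Icc 1 n) := by
      ext i
      rw [Finset.mem_insert, Finset.mem_Icc, Finset.mem_Icc]
      omega
    rw [e1, Finset.sum_insert (by rw [Finset.mem_Icc]; omega)]
    apply add_le_add
    · have e3 : ∑ c ∈ C4, 1 / ((10 * 0 + c : ℕ) : ℝ) ≤ ∑ c ∈ C4, (1 : ℝ) := by
        apply Finset.sum_le_sum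
        intro c hc
        have hc' : c = 1 ∨ c = 3 ∨ c = 7 ∨ c = 9 := by simpa [hC4] using hc
        rw [div_le_one]
        · have : 1 ≤ 10 * 0 + c := by omega
          exact_mod_cast this
        · have : 0 < 10 * 0 + c := by omega
          exact_mod_cast this
      refine e3.trans (le_of_eq ?_)
      have e4 : C4.card = 4 := by rw [hC4]; rfl
      rw [Finset.sum_const, e4]
      norm_num
    · rw [Finset.mul_sum]
      apply Finset.sum_le_sum
      intro i hi
      rw [Finset.mem_Icc] at hi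
      have hi0 : (0 : ℝ) < i := by exact_mod_cast hi.1
      have e3 : ∑ c ∈ C4, 1 / ((10 * i + c : ℕ) : ℝ) ≤ ∑ c ∈ C4, 1 / (10 * (i : ℝ)) := by
        apply Finset.sum_le_sum
        intro c hc
        apply one_div_le_one_div_of_le (by positivity)
        have : 10 * i ≤ 10 * i + c := by omega
        exact_mod_cast this
      have e4 : C4.card = 4 := by rw [hC4]; rfl
      refine e3.trans (le_of_eq ?_)
      rw [Finset.sum_const, e4, nsmul_eq_mul]
      push_cast
      field_simp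
      norm_num
  rcases Nat.eq_zero_or_pos n with h0 | h0
  · rw [h0] at h2
    rw [h0] at h1
    have hlog : 0 ≤ Real.log t := Real.log_natCast_nonneg t
    simp only [Nat.lt_one_iff, Finset.Icc_eq_empty_of_lt, Finset.sum_empty, mul_zero,
      add_zero] at h2
    linarith
  · have h3 := harmonic_Icc_le n h0
    have h4 : Real.log n ≤ Real.log t := by
      apply Real.log_le_log (by exact_mod_cast h0)
      have : n ≤ t := by omega
      exact_mod_cast this
    linarith

/-- the inverse as a monoid hom -/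
noncomputable def finv : ℕ →* ℝ where
  toFun n := ((n : ℝ))⁻¹
  map_one' := by simp
  map_mul' m n := by push_cast; rw [mul_inv]

/-- the inverse square root as a monoid hom -/
noncomputable def fsq : ℕ →* ℝ where
  toFun n := (n : ℝ) ^ (-(1 / 2) : ℝ)
  map_one' := by simp
  map_mul' m n := by push_cast; rw [Real.mul_rpow (by positivity) (by positivity)]

lemma finv_apply (n : ℕ) : finv n = ((n : ℝ))⁻¹ := rfl
lemma fsq_apply (n : ℕ) : fsq n = (n : ℝ) ^ (-(1 / 2) : ℝ) := rfl

lemma finv_lt {p : ℕ} (hp : p.Prime) : ‖finv p‖ < 1 := by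
  rw [finv_apply, Real.norm_eq_abs, abs_of_nonneg (by positivity)]
  apply inv_lt_one_of_one_lt₀
  exact_mod_cast hp.one_lt

lemma fsq_lt {p : ℕ} (hp : p.Prime) : ‖fsq p‖ < 1 := by
  rw [fsq_apply, Real.norm_eq_abs, abs_of_nonneg (by positivity)]
  apply Real.rpow_lt_one_of_one_lt_of_neg
  · exact_mod_cast hp.one_lt
  · norm_num

lemma sum_fac_le (f : ℕ →* ℝ) (hf0 : ∀ n, 0 ≤ f n) (h : ∀ {p : ℕ}, p.Prime → ‖f p‖ < 1)
    (s S : Finset ℕ) (hS : ∀ l ∈ S, l ∈ Nat.factoredNumbers s) :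
    ∑ l ∈ S, f l ≤ ∏ p ∈ s with p.Prime, (1 - f p)⁻¹ := by
  have h2 := (EulerProduct.summable_and_hasSum_factoredNumbers_prod_filter_prime_geometric h s).2
  have h3 := sum_le_hasSum (S.subtype (· ∈ Nat.factoredNumbers s)) (fun i _ => hf0 i) h2
  rwa [Finset.sum_subtype_of_mem (f := fun n => f n) hS] at h3

lemma prod_fac_le (s : Finset ℕ) (u : ℕ) :
    ∏ p ∈ s with p.Prime, (1 - finv p)⁻¹ ≤
      ∑ l ∈ (Icc 1 u).filter (fun l => l ∈ Nat.factoredNumbers s), 1 / (l : ℝ) +
        ((u : ℝ) + 1) ^ (-(1 / 2) : ℝ) * ∏ p ∈ s with p.Prime, (1 - fsq p)⁻¹ := by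
  classical
  have h1 := (EulerProduct.summable_and_hasSum_factoredNumbers_prod_filter_prime_geometric
    (f := finv) finv_lt s).2
  have h2 := (EulerProduct.summable_and_hasSum_factoredNumbers_prod_filter_prime_geometric
    (f := fsq) fsq_lt s).2
  apply hasSum_le_of_sum_le h1
  intro S
  rw [← Finset.sum_filter_add_sum_filter_not S
    (fun l : ↑(Nat.factoredNumbers s) => (l : ℕ) ≤ u)]
  apply add_le_add
  · -- small part
    rw [← Finset.sum_image (s := S.filter (fun l : ↑(Nat.factoredNumbers s) => (l : ℕ) ≤ u))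
      (g := fun l : ↑(Nat.factoredNumbers s) => (l : ℕ)) (f := fun l : ℕ => finv l)]
    · calc ∑ l ∈ (S.filter (fun l : ↑(Nat.factoredNumbers s) => (l : ℕ) ≤ u)).image
            (fun l : ↑(Nat.factoredNumbers s) => (l : ℕ)), finv l
          ≤ ∑ l ∈ (Icc 1 u).filter (fun l => l ∈ Nat.factoredNumbers s), finv l := by
            apply Finset.sum_le_sum_of_subset_of_nonneg
            · intro l hl
              rw [Finset.mem_image] at hl
              obtain ⟨x, hx, rfl⟩ := hl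
              rw [Finset.mem_filter] at hx
              rw [Finset.mem_filter, Finset.mem_Icc]
              have := Nat.ne_zero_of_mem_factoredNumbers x.2
              exact ⟨⟨by omega, hx.2⟩, x.2⟩
            · intro l _ _
              rw [finv_apply]
              positivity
        _ = ∑ l ∈ (Icc 1 u).filter (fun l => l ∈ Nat.factoredNumbers s), 1 / (l : ℝ) := by
            apply Finset.sum_congr rfl
            intro l _
            rw [finv_apply, one_div]
    · intro x _ y _ hxy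
      exact Subtype.ext hxy
  · -- large part
    have h3 : ∀ l ∈ S.filter (fun l : ↑(Nat.factoredNumbers s) => ¬ (l : ℕ) ≤ u),
        finv (l : ℕ) ≤ ((u : ℝ) + 1) ^ (-(1 / 2) : ℝ) * fsq (l : ℕ) := by
      intro l hl
      rw [Finset.mem_filter] at hl
      have hlu : u + 1 ≤ (l : ℕ) := by omega
      have hluR : (u : ℝ) + 1 ≤ ((l : ℕ) : ℝ) := by exact_mod_cast hlu
      have hl0 : (0 : ℝ) < ((l : ℕ) : ℝ) := by
        have : (0 : ℝ) ≤ u := by positivity
        linarith
      rw [finv_apply, fsq_apply]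
      have e1 : (((l : ℕ) : ℝ))⁻¹ = ((l : ℕ) : ℝ) ^ (-(1 / 2) : ℝ) * ((l : ℕ) : ℝ) ^ (-(1 / 2) : ℝ) := by
        rw [← Real.rpow_add hl0, ← Real.rpow_neg_one]
        norm_num
      rw [e1]
      apply mul_le_mul_of_nonneg_right _ (by positivity)
      exact Real.rpow_le_rpow_of_nonpos (by positivity) hluR (by norm_num)
    refine (Finset.sum_le_sum h3).trans ?_
    rw [← Finset.mul_sum]
    apply mul_le_mul_of_nonneg_left _ (by positivity)
    exact sum_le_hasSum _ (fun i _ => by rw [fsq_apply]; positivity) h2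

lemma inv_totient (k : ℕ) (hk : 0 < k) :
    1 / (Nat.totient k : ℝ) = 1 / k * ∏ p ∈ k.primeFactors with p.Prime, (1 - finv p)⁻¹ := by
  have hk0 : (k : ℝ) ≠ 0 := by positivity
  have h1 : (Nat.totient k : ℝ) = k * ∏ p ∈ k.primeFactors, (1 - (p : ℝ)⁻¹) := by
    have := Nat.totient_eq_mul_prod_factors k
    have h2 := congrArg (fun x : ℚ => (x : ℝ)) this
    push_cast at h2
    exact h2
  have h2 : k.primeFactors.filter Nat.Prime = k.primeFactors := by
    apply Finset.filter_true_of_mem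
    intro p hp
    exact Nat.prime_of_mem_primeFactors hp
  rw [h2, h1, Finset.prod_inv_distrib]
  simp only [finv_apply]
  rw [one_div_mul_eq_div, one_div, mul_inv]
  ring

lemma DD_of_prod (t m : ℕ) (hm : m ∈ CC t) : (∏ p ∈ m.primeFactors, p) ∈ DD t := by
  rw [mem_CC] at hm
  rw [mem_DD]
  have hdvd := Nat.prod_primeFactors_dvd m
  have hle := Nat.le_of_dvd (by omega) hdvd
  have hpos := Nat.pos_of_dvd_of_pos hdvd (by omega)
  refine ⟨⟨hpos, hle.trans hm.1.2⟩, ?_, Nat.Coprime.coprime_dvd_left hdvd hm.2⟩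
  refine Finset.squarefree_prod_of_pairwise_isCoprime (fun p hp q hq hpq ↦ ?_)
    fun p hp ↦ (Nat.prime_of_mem_primeFactors hp).squarefree
  simp only [Function.onFun, ← Nat.coprime_iff_isRelPrime]
  exact (Nat.coprime_primes (Nat.prime_of_mem_primeFactors hp)
    (Nat.prime_of_mem_primeFactors hq)).mpr hpq

lemma H5_le_G5 (t : ℕ) : H5 t ≤ G5 t := by
  classical
  unfold H5 G5
  rw [← Finset.sum_fiberwise_of_maps_to (g := fun m : ℕ => ∏ p ∈ m.primeFactors, p)
    (fun m hm => DD_of_prod t m hm)]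
  apply Finset.sum_le_sum
  intro k hk
  have hk' := (mem_DD t k).mp hk
  have hk0 : 0 < k := by omega
  have hkR : (k : ℝ) ≠ 0 := by positivity
  rw [inv_totient k hk0]
  set S := (CC t).filter (fun m => ∏ p ∈ m.primeFactors, p = k) with hS
  have hdvd : ∀ m ∈ S, k ∣ m := by
    intro m hm
    rw [hS, Finset.mem_filter] at hm
    rw [← hm.2]
    exact Nat.prod_primeFactors_dvd m
  have e1 : ∑ m ∈ S, 1 / (m : ℝ) = 1 / k * ∑ l ∈ S.image (fun m => m / k), finv l := by
    rw [Finset.sum_image, Finset.mul_sum]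
    · apply Finset.sum_congr rfl
      intro m hm
      rw [finv_apply, Nat.cast_div (hdvd m hm) hkR]
      have hm0 : (m : ℝ) ≠ 0 := by
        rw [hS, Finset.mem_filter, mem_CC] at hm
        have : 0 < m := by omega
        positivity
      field_simp
    · intro x hx y hy hxy
      simp only at hxy
      rw [← Nat.div_mul_cancel (hdvd x hx), ← Nat.div_mul_cancel (hdvd y hy), hxy]
  rw [e1]
  apply mul_le_mul_of_nonneg_left _ (by positivity)
  apply sum_fac_le finv (fun n => by rw [finv_apply]; positivity) finv_lt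
  intro l hl
  rw [Finset.mem_image] at hl
  obtain ⟨m, hm, rfl⟩ := hl
  have hd := hdvd m hm
  rw [hS, Finset.mem_filter, mem_CC] at hm
  have hm0 : 0 < m := by omega
  rw [Nat.mem_factoredNumbers_iff_primeFactors_subset]
  constructor
  · have := Nat.div_pos (Nat.le_of_dvd hm0 hd) hk0
    omega
  · have h1 : (m / k).primeFactors ⊆ m.primeFactors :=
      Nat.primeFactors_mono (Nat.div_dvd_of_dvd hd) (by omega)
    have h2 : k.primeFactors = m.primeFactors := by
      rw [← hm.2, Nat.primeFactors_prod_primeFactors]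
    rw [h2]
    exact h1

/-- `n ↦ n^{-1/4}` -/
noncomputable def f4 : ArithmeticFunction ℝ :=
  ⟨fun n => if n = 0 then 0 else (n : ℝ) ^ (-(1 / 4) : ℝ), by simp⟩

lemma f4_apply (n : ℕ) (hn : n ≠ 0) : f4 n = (n : ℝ) ^ (-(1 / 4) : ℝ) := by
  change (if n = 0 then (0 : ℝ) else (n : ℝ) ^ (-(1 / 4) : ℝ)) = _
  rw [if_neg hn]

lemma f4_mult : f4.IsMultiplicative := by
  rw [ArithmeticFunction.IsMultiplicative.iff_ne_zero]
  constructor
  · rw [f4_apply 1 (by norm_num)]
    simp
  · intro m n hm hn _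
    rw [f4_apply _ (Nat.mul_ne_zero hm hn), f4_apply _ hm, f4_apply _ hn]
    push_cast
    rw [Real.mul_rpow (by positivity) (by positivity)]

lemma local_factor (p : ℕ) (hp : p.Prime) (hp10 : p.Coprime 10) :
    (1 - fsq p)⁻¹ ≤ (if p = 3 then 2 else 1) * (1 + f4 p) := by
  have hp3 := three_le_of_prime p hp hp10
  have hpR : (3 : ℝ) ≤ p := by exact_mod_cast hp3
  rw [f4_apply p hp.ne_zero, fsq_apply]
  set x : ℝ := (p : ℝ) ^ (-(1 / 4) : ℝ) with hx
  have hx0 : 0 < x := by positivity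
  have e1 : (p : ℝ) ^ (-(1 / 2) : ℝ) = x ^ 2 := by
    rw [hx, ← Real.rpow_natCast, ← Real.rpow_mul (by positivity)]
    norm_num
  have e4 : x ^ 4 = 1 / p := by
    rw [hx, ← Real.rpow_natCast, ← Real.rpow_mul (by positivity)]
    norm_num
    rw [Real.rpow_neg_one]
  rw [e1]
  have hx4 : x ^ 4 ≤ 1 / 3 := by
    rw [e4]
    exact one_div_le_one_div_of_le (by norm_num) hpR
  have hx2 : x ^ 2 < 3 / 5 := by
    by_contra hcon
    push Not at hcon
    nlinarith
  split_ifs with h3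
  · -- p = 3
    rw [inv_le_comm₀ (by linarith) (by positivity)]
    rw [inv_eq_one_div, div_le_iff₀ (by positivity)]
    have hx34 : 3 / 4 ≤ x := by
      by_contra hcon
      push Not at hcon
      have h5 : x ^ 4 < (3 / 4) ^ 4 := pow_lt_pow_left₀ hcon hx0.le (by norm_num)
      rw [e4, h3] at h5
      norm_num at h5
    nlinarith
  · have hp7 : 7 ≤ p := by
      by_contra hcon
      push Not at hcon
      have : p = 3 ∨ p = 4 ∨ p = 5 ∨ p = 6 := by omega
      rcases this with h | h | h | h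
      · exact h3 h
      · rw [h] at hp; norm_num at hp
      · rw [h] at hp10; norm_num at hp10
      · rw [h] at hp; norm_num at hp
    have hpR7 : (7 : ℝ) ≤ p := by exact_mod_cast hp7
    have hx47 : x ^ 4 ≤ 1 / 7 := by
      rw [e4]
      exact one_div_le_one_div_of_le (by norm_num) hpR7
    have hx618 : x ≤ 309 / 500 := by
      by_contra hcon
      push Not at hcon
      have h5 : (309 / 500 : ℝ) ^ 4 < x ^ 4 := pow_lt_pow_left₀ hcon (by norm_num) (by norm_num)
      norm_num at h5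
      linarith
    rw [one_mul, inv_le_comm₀ (by nlinarith) (by positivity)]
    rw [inv_eq_one_div, div_le_iff₀ (by positivity)]
    nlinarith [mul_pos hx0 hx0]

lemma Bk_le (t k : ℕ) (hk : k ∈ DD t) :
    ∏ p ∈ k.primeFactors with p.Prime, (1 - fsq p)⁻¹ ≤ 2 * ∑ d ∈ k.divisors, f4 d := by
  classical
  have hk' := (mem_DD t k).mp hk
  have hk0 : k ≠ 0 := by omega
  have h2 : k.primeFactors.filter Nat.Prime = k.primeFactors := by
    apply Finset.filter_true_of_mem
    intro p hp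
    exact Nat.prime_of_mem_primeFactors hp
  rw [h2, ← f4_mult.prodPrimeFactors_one_add_of_squarefree hk'.2.1]
  calc ∏ p ∈ k.primeFactors, (1 - fsq p)⁻¹
      ≤ ∏ p ∈ k.primeFactors, ((if p = 3 then 2 else 1) * (1 + f4 p)) := by
        apply Finset.prod_le_prod
        · intro p hp
          have := fsq_lt (Nat.prime_of_mem_primeFactors hp)
          rw [Real.norm_eq_abs, abs_lt] at this
          rw [inv_nonneg]
          linarith
        · intro p hp
          apply local_factor p (Nat.prime_of_mem_primeFactors hp)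
          exact Nat.Coprime.coprime_dvd_left (Nat.dvd_of_mem_primeFactors hp) hk'.2.2
    _ = (∏ p ∈ k.primeFactors, (if p = 3 then (2 : ℝ) else 1)) * ∏ p ∈ k.primeFactors, (1 + f4 p) :=
        Finset.prod_mul_distrib
    _ ≤ 2 * ∏ p ∈ k.primeFactors, (1 + f4 p) := by
        apply mul_le_mul_of_nonneg_right
        · rw [Finset.prod_ite_eq']
          split_ifs <;> norm_num
        · apply Finset.prod_nonneg
          intro p hp
          rw [f4_apply p (Nat.prime_of_mem_primeFactors hp).ne_zero]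
          positivity

lemma sum_rsqrt_le (n : ℕ) : ∑ e ∈ Icc 1 n, (e : ℝ) ^ (-(1 / 2) : ℝ) ≤ 2 * (n : ℝ) ^ ((1 / 2) : ℝ) := by
  induction n with
  | zero => simp
  | succ n ih =>
    rw [Finset.sum_Icc_succ_top (by omega)]
    refine (add_le_add_left ih _).trans ?_
    rw [← Real.sqrt_eq_rpow, ← Real.sqrt_eq_rpow, Real.rpow_neg (by positivity),
      ← Real.sqrt_eq_rpow]
    have h1 : (0 : ℝ) < ((n + 1 : ℕ) : ℝ) := by positivity
    set a := Real.sqrt (n : ℝ) with ha
    set b := Real.sqrt ((n + 1 : ℕ) : ℝ) with hb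
    have hb0 : 0 < b := Real.sqrt_pos.mpr h1
    have ha0 : 0 ≤ a := Real.sqrt_nonneg _
    have hb2 : b ^ 2 = n + 1 := by
      rw [hb, Real.sq_sqrt h1.le]
      push_cast
      ring
    have ha2 : a ^ 2 = n := by
      rw [ha, Real.sq_sqrt (by positivity)]
    have key : 2 * a * b + 1 ≤ 2 * b * b := by nlinarith [sq_nonneg (b - a)]
    have : 2 * a + b⁻¹ = (2 * a * b + 1) / b := by
      field_simp
    rw [this, div_le_iff₀ hb0]
    linarith

lemma G5_le_H5 : ∃ C : ℝ, 0 ≤ C ∧ ∀ t : ℕ, 1 ≤ t → G5 t ≤ H5 t + C := by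
  classical
  have hsummable : Summable (fun n : ℕ => 1 / (n : ℝ) ^ (5 / 4 : ℝ)) :=
    Real.summable_one_div_nat_rpow.mpr (by norm_num)
  set Sinf := ∑' n : ℕ, 1 / (n : ℝ) ^ (5 / 4 : ℝ) with hSinfdef
  have hS0 : 0 ≤ Sinf := tsum_nonneg fun n => by positivity
  refine ⟨4 * Sinf, by positivity, ?_⟩
  intro t ht
  have htR : (0 : ℝ) < t := by exact_mod_cast ht
  -- step 1
  have h1 : G5 t ≤ ∑ k ∈ DD t, (∑ l ∈ (Icc 1 (t / k)).filter
      (fun l => l ∈ Nat.factoredNumbers k.primeFactors), 1 / ((k * l : ℕ) : ℝ)) +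
      ∑ k ∈ DD t, (t : ℝ) ^ (-(1 / 2) : ℝ) * ((k : ℝ) ^ (-(1 / 2) : ℝ) *
        (2 * ∑ d ∈ k.divisors, f4 d)) := by
    unfold G5
    rw [← Finset.sum_add_distrib]
    apply Finset.sum_le_sum
    intro k hk
    have hk' := (mem_DD t k).mp hk
    have hk0 : 0 < k := by omega
    have hkR : (0 : ℝ) < k := by exact_mod_cast hk0
    rw [inv_totient k hk0]
    have h2 := prod_fac_le k.primeFactors (t / k)
    have h3 := Bk_le t k hk
    have h4 : (((t / k : ℕ) : ℝ) + 1) ^ (-(1 / 2) : ℝ) ≤ ((t : ℝ) / k) ^ (-(1 / 2) : ℝ) := by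
      apply Real.rpow_le_rpow_of_nonpos (by positivity) _ (by norm_num)
      rw [div_le_iff₀ hkR]
      have : t < (t / k + 1) * k := by
        have := Nat.lt_div_mul_add (a := t) hk0
        linarith
      exact_mod_cast this.le
    have h5 : 0 ≤ 2 * ∑ d ∈ k.divisors, f4 d := by
      apply mul_nonneg (by norm_num)
      apply Finset.sum_nonneg
      intro d hd
      have : d ≠ 0 := by
        rintro rfl
        simp at hd
      rw [f4_apply d this]
      positivity
    have hB0 : 0 ≤ ∏ p ∈ k.primeFactors with p.Prime, (1 - fsq p)⁻¹ := by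
      apply Finset.prod_nonneg
      intro p hp
      have := fsq_lt (Finset.mem_filter.mp hp).2
      rw [Real.norm_eq_abs, abs_lt] at this
      rw [inv_nonneg]
      linarith
    have h6 : 1 / (k : ℝ) * ∏ p ∈ k.primeFactors with p.Prime, (1 - finv p)⁻¹ ≤
        1 / (k : ℝ) * (∑ l ∈ (Icc 1 (t / k)).filter
          (fun l => l ∈ Nat.factoredNumbers k.primeFactors), 1 / (l : ℝ) +
          ((t : ℝ) / k) ^ (-(1 / 2) : ℝ) * (2 * ∑ d ∈ k.divisors, f4 d)) := by
      apply mul_le_mul_of_nonneg_left _ (by positivity)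
      refine h2.trans ?_
      apply add_le_add (le_refl _)
      exact mul_le_mul h4 h3 hB0 (by positivity)
    refine h6.trans (le_of_eq ?_)
    rw [mul_add, Finset.mul_sum]
    congr 1
    · apply Finset.sum_congr rfl
      intro l _
      push_cast
      rw [div_mul_div_comm, one_mul]
    · have e3 : 1 / (k : ℝ) * ((t : ℝ) / k) ^ (-(1 / 2) : ℝ) =
          (t : ℝ) ^ (-(1 / 2) : ℝ) * (k : ℝ) ^ (-(1 / 2) : ℝ) := by
        rw [Real.div_rpow (by positivity) (by positivity), Real.rpow_neg hkR.le (1 / 2 : ℝ)]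
        set r := (k : ℝ) ^ (1 / 2 : ℝ) with hr
        have e1 : (k : ℝ) = r * r := by
          rw [hr, ← Real.rpow_add hkR]
          norm_num
        have e2 : r ≠ 0 := by positivity
        rw [div_inv_eq_mul, e1]
        field_simp
      rw [← mul_assoc, e3, mul_assoc]
  refine h1.trans ?_
  apply add_le_add
  · -- the main part
    rw [Finset.sum_sigma', ← Finset.sum_image
      (s := (DD t).sigma (fun k => (Icc 1 (t / k)).filter
        (fun l => l ∈ Nat.factoredNumbers k.primeFactors)))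
      (g := fun x : (Σ _ : ℕ, ℕ) => x.1 * x.2) (f := fun m : ℕ => 1 / (m : ℝ))]
    · unfold H5
      apply Finset.sum_le_sum_of_subset_of_nonneg
      · intro m hm
        rw [Finset.mem_image] at hm
        obtain ⟨x, hx, rfl⟩ := hm
        rw [Finset.mem_sigma, mem_DD, Finset.mem_filter, Finset.mem_Icc,
          Nat.mem_factoredNumbers_iff_primeFactors_subset] at hx
        obtain ⟨⟨⟨h2, h3⟩, h4, h5⟩, ⟨h6, h7⟩, h8, h9⟩ := hx
        rw [mem_CC]
        refine ⟨⟨Nat.mul_pos h2 h6, ?_⟩, ?_⟩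
        · rw [Nat.le_div_iff_mul_le (by omega)] at h7
          linarith
        · apply Nat.Coprime.mul_left h5
          rw [Nat.coprime_iff_gcd_eq_one]
          by_contra hne
          obtain ⟨p, hp, hpd⟩ := Nat.exists_prime_and_dvd hne
          have hpl : p ∣ x.2 := hpd.trans (Nat.gcd_dvd_left _ _)
          have hp10 : p ∣ 10 := hpd.trans (Nat.gcd_dvd_right _ _)
          have hpk : p ∈ x.1.primeFactors := h9 (Nat.mem_primeFactors.mpr ⟨hp, hpl, h8⟩)
          have h10 := Nat.dvd_gcd (Nat.dvd_of_mem_primeFactors hpk) hp10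
          rw [h5] at h10
          exact hp.one_lt.ne' (Nat.dvd_one.mp h10)
      · intro _ _ _
        positivity
    · intro x hx y hy hxy
      have key : ∀ z : (Σ _ : ℕ, ℕ), z ∈ (DD t).sigma (fun k => (Icc 1 (t / k)).filter
          (fun l => l ∈ Nat.factoredNumbers k.primeFactors)) →
          ∏ p ∈ (z.1 * z.2).primeFactors, p = z.1 := by
        intro z hz
        rw [Finset.mem_sigma, mem_DD, Finset.mem_filter, Finset.mem_Icc,
          Nat.mem_factoredNumbers_iff_primeFactors_subset] at hz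
        obtain ⟨⟨⟨h2, h3⟩, h4, h5⟩, ⟨h6, h7⟩, h8, h9⟩ := hz
        rw [Nat.primeFactors_mul (by omega) h8, Finset.union_eq_left.mpr h9]
        exact Nat.prod_primeFactors_of_squarefree h4
      simp only at hxy
      have k1 := key x hx
      have k2 := key y hy
      rw [hxy, k2] at k1
      obtain ⟨a, b⟩ := x
      obtain ⟨a', b'⟩ := y
      simp only at hxy k1
      subst k1
      rw [Finset.mem_coe, Finset.mem_sigma, mem_DD] at hx
      have : 0 < a' := by simp only at hx; omega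
      rw [Nat.eq_of_mul_eq_mul_left this hxy]
  · -- the error part
    rw [← Finset.mul_sum]
    have h2 : ∑ k ∈ DD t, (k : ℝ) ^ (-(1 / 2) : ℝ) * (2 * ∑ d ∈ k.divisors, f4 d) ≤
        ∑ d ∈ Icc 1 t, ∑ e ∈ Icc 1 (t / d), 2 * ((d : ℝ) ^ (-(3 / 4) : ℝ) * (e : ℝ) ^ (-(1 / 2) : ℝ)) := by
      have e1 : ∀ k ∈ DD t, (k : ℝ) ^ (-(1 / 2) : ℝ) * (2 * ∑ d ∈ k.divisors, f4 d) =
          ∑ d ∈ k.divisors, 2 * ((d : ℝ) ^ (-(3 / 4) : ℝ) * ((k / d : ℕ) : ℝ) ^ (-(1 / 2) : ℝ)) := by
        intro k hk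
        have hk0 := ((mem_DD t k).mp hk).1.1
        rw [Finset.mul_sum, Finset.mul_sum]
        apply Finset.sum_congr rfl
        intro d hd
        rw [Nat.mem_divisors] at hd
        obtain ⟨⟨e, rfl⟩, _⟩ := hd
        have hd0 : 0 < d := Nat.pos_of_mul_pos_right (by omega : 0 < d * e)
        have he0 : 0 < e := Nat.pos_of_mul_pos_left (by omega : 0 < d * e)
        have hdR : (0 : ℝ) < d := by exact_mod_cast hd0
        rw [Nat.mul_div_cancel_left e hd0, f4_apply d hd0.ne']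
        push_cast
        rw [Real.mul_rpow (by positivity) (by positivity)]
        have e2 : (d : ℝ) ^ (-(3 / 4) : ℝ) = (d : ℝ) ^ (-(1 / 2) : ℝ) * (d : ℝ) ^ (-(1 / 4) : ℝ) := by
          rw [← Real.rpow_add hdR]
          norm_num
        rw [e2]
        ring
      rw [Finset.sum_congr rfl e1, Finset.sum_sigma', Finset.sum_sigma',
        ← Finset.sum_image (s := (DD t).sigma (fun k => k.divisors))
        (g := fun x : (Σ _ : ℕ, ℕ) => (⟨x.2, x.1 / x.2⟩ : Σ _ : ℕ, ℕ))
        (f := fun y : (Σ _ : ℕ, ℕ) => 2 * ((y.1 : ℝ) ^ (-(3 / 4) : ℝ) * (y.2 : ℝ) ^ (-(1 / 2) : ℝ)))]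
      · apply Finset.sum_le_sum_of_subset_of_nonneg
        · intro y hy
          rw [Finset.mem_image] at hy
          obtain ⟨x, hx, rfl⟩ := hy
          rw [Finset.mem_sigma, mem_DD, Nat.mem_divisors] at hx
          obtain ⟨⟨⟨h2, h3⟩, _⟩, h6, h7⟩ := hx
          have hle := Nat.le_of_dvd (by omega) h6
          have hpos := Nat.pos_of_dvd_of_pos h6 (by omega)
          rw [Finset.mem_sigma, Finset.mem_Icc, Finset.mem_Icc]
          exact ⟨⟨hpos, hle.trans h3⟩, Nat.div_pos hle hpos, Nat.div_le_div_right h3⟩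
        · intro _ _ _
          positivity
      · intro x hx y hy hxy
        rw [Finset.mem_coe, Finset.mem_sigma, Nat.mem_divisors] at hx hy
        obtain ⟨k, d⟩ := x
        obtain ⟨k', d'⟩ := y
        simp only [Sigma.mk.injEq, heq_eq_eq] at hxy hx hy
        obtain ⟨rfl, h5⟩ := hxy
        have e1 : k = k' := by
          rw [← Nat.div_mul_cancel hx.2.1, ← Nat.div_mul_cancel hy.2.1, h5]
        rw [e1]
    have h3 : ∑ d ∈ Icc 1 t, ∑ e ∈ Icc 1 (t / d),
        2 * ((d : ℝ) ^ (-(3 / 4) : ℝ) * (e : ℝ) ^ (-(1 / 2) : ℝ)) ≤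
        ∑ d ∈ Icc 1 t, 4 * ((t : ℝ) ^ (1 / 2 : ℝ) * (1 / (d : ℝ) ^ (5 / 4 : ℝ))) := by
      apply Finset.sum_le_sum
      intro d hd
      rw [Finset.mem_Icc] at hd
      have hdR : (0 : ℝ) < d := by exact_mod_cast hd.1
      rw [← Finset.mul_sum, ← Finset.mul_sum]
      have h4 := sum_rsqrt_le (t / d)
      have h5 : ((t / d : ℕ) : ℝ) ^ (1 / 2 : ℝ) ≤ ((t : ℝ) / d) ^ (1 / 2 : ℝ) := by
        apply Real.rpow_le_rpow (by positivity) _ (by norm_num)
        exact Nat.cast_div_le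
      calc 2 * ((d : ℝ) ^ (-(3 / 4) : ℝ) * ∑ e ∈ Icc 1 (t / d), (e : ℝ) ^ (-(1 / 2) : ℝ))
          ≤ 2 * ((d : ℝ) ^ (-(3 / 4) : ℝ) * (2 * ((t : ℝ) / d) ^ (1 / 2 : ℝ))) := by
            apply mul_le_mul_of_nonneg_left _ (by norm_num)
            apply mul_le_mul_of_nonneg_left _ (by positivity)
            linarith
        _ = 4 * ((t : ℝ) ^ (1 / 2 : ℝ) * (1 / (d : ℝ) ^ (5 / 4 : ℝ))) := by
            rw [Real.div_rpow (by positivity) (by positivity)]
            have e1 : (1 : ℝ) / (d : ℝ) ^ (5 / 4 : ℝ) = (d : ℝ) ^ (-(3 / 4) : ℝ) / (d : ℝ) ^ (1 / 2 : ℝ) := by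
              rw [← Real.rpow_sub hdR, one_div, ← Real.rpow_neg hdR.le]
              norm_num
            rw [e1]
            ring
    have h4 : ∑ d ∈ Icc 1 t, 4 * ((t : ℝ) ^ (1 / 2 : ℝ) * (1 / (d : ℝ) ^ (5 / 4 : ℝ))) ≤
        4 * ((t : ℝ) ^ (1 / 2 : ℝ) * Sinf) := by
      rw [← Finset.mul_sum, ← Finset.mul_sum]
      apply mul_le_mul_of_nonneg_left _ (by norm_num)
      apply mul_le_mul_of_nonneg_left _ (by positivity)
      exact hsummable.sum_le_tsum _ (fun _ _ => by positivity)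
    calc (t : ℝ) ^ (-(1 / 2) : ℝ) * ∑ k ∈ DD t, (k : ℝ) ^ (-(1 / 2) : ℝ) *
          (2 * ∑ d ∈ k.divisors, f4 d)
        ≤ (t : ℝ) ^ (-(1 / 2) : ℝ) * (4 * ((t : ℝ) ^ (1 / 2 : ℝ) * Sinf)) := by
          apply mul_le_mul_of_nonneg_left _ (by positivity)
          exact (h2.trans h3).trans h4
      _ = 4 * Sinf := by
          have : (t : ℝ) ^ (-(1 / 2) : ℝ) * (t : ℝ) ^ (1 / 2 : ℝ) = 1 := by
            rw [← Real.rpow_add htR]
            norm_num
          calc (t : ℝ) ^ (-(1 / 2) : ℝ) * (4 * ((t : ℝ) ^ (1 / 2 : ℝ) * Sinf))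
              = ((t : ℝ) ^ (-(1 / 2) : ℝ) * (t : ℝ) ^ (1 / 2 : ℝ)) * (4 * Sinf) := by ring
            _ = 4 * Sinf := by rw [this, one_mul]

/-- **Asymptotics for `G`.** -/
theorem G5_asymp : ∃ C : ℝ, 1 ≤ C ∧ ∀ t : ℕ, 1 ≤ t →
    2 / 5 * Real.log t - C ≤ G5 t ∧ G5 t ≤ 2 / 5 * Real.log t + C := by
  obtain ⟨C, hC, h⟩ := G5_le_H5
  have hlog : 0 ≤ Real.log 10 := Real.log_nonneg (by norm_num)
  refine ⟨C + 5 + Real.log 10, by linarith, ?_⟩
  intro t ht
  have h1 := h t ht
  have h2 := H5_le t ht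
  have h3 := H5_ge t ht
  have h4 := H5_le_G5 t
  constructor <;> linarith

end Pool.Agent.Helper10.P5
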