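import Pool.Agent.Helper10.P5.Low5

/-! Asymptotics on the logarithmic grid `U = 10^(2m)`. -/

namespace Pool.Agent.Helper10.P5

open Finset Pool.Agent.Helper10

/-- primes in `(U^i, U^(i+1)]` -/
def cellP (U i : ℕ) : Finset ℕ := (PL (U ^ (i + 1))).filter (fun p => U ^ i < p)

lemma mem_cellP (U i p : ℕ) : p ∈ cellP U i ↔ (U ^ i < p ∧ p ≤ U ^ (i + 1)) ∧ p.Prime := by
  unfold cellP
  rw [Finset.mem_filter, mem_PL]
  tauto

lemma cell_recip (U i : ℕ) (C : ℝ) (hU : 2 ≤ U) (hi : 1 ≤ i)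
    (hC : ∀ a b : ℕ, 1 ≤ a → a ≤ b →
      ∑ p ∈ (PL b).filter (fun p => a < p), Real.log p / p ≤ Real.log b - Real.log a + C) :
    ∑ p ∈ cellP U i, 1 / (p : ℝ) ≤ (1 + C / Real.log U) / i := by
  have hUR : (1 : ℝ) < U := by exact_mod_cast hU
  have hl : 0 < Real.log U := Real.log_pos hUR
  have hiR : (0 : ℝ) < i := by exact_mod_cast hi
  have h1 := hC (U ^ i) (U ^ (i + 1)) (Nat.one_le_pow _ _ (by omega))
    (Nat.pow_le_pow_right (by omega) (by omega))
  have h2 : Real.log ((U ^ (i + 1) : ℕ) : ℝ) - Real.log ((U ^ i : ℕ) : ℝ) = Real.log U := by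
    push_cast
    rw [Real.log_pow, Real.log_pow]
    push_cast
    ring
  rw [h2] at h1
  have h3 : (i * Real.log U) * ∑ p ∈ cellP U i, 1 / (p : ℝ) ≤ Real.log U + C := by
    refine le_trans ?_ h1
    rw [Finset.mul_sum]
    apply Finset.sum_le_sum
    intro p hp
    rw [mem_cellP] at hp
    have hp0 : (0 : ℝ) < p := by exact_mod_cast hp.2.pos
    rw [mul_one_div]
    apply div_le_div_of_nonneg_right _ hp0.le
    rw [← Real.log_pow]
    apply Real.log_le_log (by positivity)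
    exact_mod_cast hp.1.1.le
  have h4 : (1 + C / Real.log U) / i = (Real.log U + C) / (i * Real.log U) := by
    field_simp
  rw [h4, le_div_iff₀ (by positivity)]
  linarith

/-- all the grid estimates, for `U = 10^(2m)`, `V = 2/5 log U` -/
structure GridOK (ε : ℝ) (m : ℕ) (V : ℝ) (C : ℝ) : Prop where
  hV : V = 2 / 5 * Real.log ((10 ^ (2 * m) : ℕ) : ℝ)
  pos : 1 ≤ ε * V
  G : ∀ j : ℕ, |G5 ((10 ^ (2 * m)) ^ j) - V * j| ≤ ε * V
  G2 : ∀ j : ℕ, V * (j / 2 - ε) ≤ G5 (10 ^ (m * j))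
  cell : ∀ i : ℕ, 1 ≤ i → ∑ p ∈ cellP (10 ^ (2 * m)) i, 1 / (p : ℝ) ≤ (1 + ε) / i
  first : ∑ p ∈ PL (10 ^ (2 * m)), (1 / (p : ℝ)) * (2 / 5 * Real.log p +
    (2 / 5 * Real.log 2 + 2 * C)) ≤ (1 + ε) * V
  asymp : ∀ t : ℕ, 1 ≤ t → 2 / 5 * Real.log t - C ≤ G5 t ∧ G5 t ≤ 2 / 5 * Real.log t + C

theorem grid_ok (ε : ℝ) (hε : 0 < ε) : ∃ C : ℝ, ∃ m0 : ℕ, ∀ m : ℕ, m0 ≤ m →
    ∃ V : ℝ, GridOK ε m V C := by
  obtain ⟨C, hC1, hG⟩ := G5_asymp
  obtain ⟨C2, hC2, hcell⟩ := mertens_interval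
  set K := 2 / 5 * Real.log 2 + 2 * C with hK
  have hlog2 : 0 ≤ Real.log 2 := Real.log_nonneg (by norm_num)
  have hlog4 : 0 ≤ Real.log 4 := Real.log_nonneg (by norm_num)
  have hK0 : 0 < K := by rw [hK]; linarith
  obtain ⟨C3, hC3, hrec⟩ := recip_small (ε / (5 * K)) (by positivity)
  have hlog10 : 0 < Real.log 10 := Real.log_pos (by norm_num)
  -- large `m`
  set R := (C + 1) / ε + C2 / ε + (Real.log 4 + 5 * K * C3 + 1) * (5 / ε) + 1 with hR
  have hR0 : 0 ≤ R := by positivity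
  obtain ⟨m0, hm0⟩ := exists_nat_gt (5 * R / Real.log 10)
  refine ⟨C, m0, ?_⟩
  intro m hm
  have hlogU : Real.log ((10 ^ (2 * m) : ℕ) : ℝ) = 2 * m * Real.log 10 := by
    push_cast
    rw [Real.log_pow]
    push_cast
    ring
  have hbig : 5 * R ≤ m * Real.log 10 := by
    have h1 : (m0 : ℝ) ≤ m := by exact_mod_cast hm
    rw [div_lt_iff₀ hlog10] at hm0
    nlinarith
  have hVR : R ≤ 2 / 5 * Real.log ((10 ^ (2 * m) : ℕ) : ℝ) := by
    rw [hlogU]
    linarith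
  have hlogUR : R ≤ Real.log ((10 ^ (2 * m) : ℕ) : ℝ) := by linarith
  have hR1 : (C + 1) ≤ ε * R := by
    have h1 : (C + 1) / ε ≤ R := by
      rw [hR]
      have : 0 ≤ C2 / ε := by positivity
      have : 0 ≤ (Real.log 4 + 5 * K * C3 + 1) * (5 / ε) := by positivity
      linarith
    rw [div_le_iff₀ hε] at h1
    linarith
  have hR2 : C2 ≤ ε * R := by
    have h1 : C2 / ε ≤ R := by
      rw [hR]
      have : 0 ≤ (C + 1) / ε := by positivity
      have : 0 ≤ (Real.log 4 + 5 * K * C3 + 1) * (5 / ε) := by positivity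
      linarith
    rw [div_le_iff₀ hε] at h1
    linarith
  have hR3 : 5 * (Real.log 4 + 5 * K * C3 + 1) ≤ ε * R := by
    have h1 : (Real.log 4 + 5 * K * C3 + 1) * 5 / ε ≤ R := by
      rw [hR]
      have : 0 ≤ (C + 1) / ε := by positivity
      have : 0 ≤ C2 / ε := by positivity
      have : (Real.log 4 + 5 * K * C3 + 1) * 5 / ε = (Real.log 4 + 5 * K * C3 + 1) * (5 / ε) := by
        ring
      linarith
    rw [div_le_iff₀ hε] at h1
    linarith
  have hR4 : 1 ≤ R := by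
    rw [hR]
    have : 0 ≤ (C + 1) / ε := by positivity
    have : 0 ≤ C2 / ε := by positivity
    have : 0 ≤ (Real.log 4 + 5 * K * C3 + 1) * (5 / ε) := by positivity
    linarith
  set lU := Real.log ((10 ^ (2 * m) : ℕ) : ℝ) with hlU
  have hlU0 : 0 < lU := by linarith
  have hm1 : 1 ≤ m := by
    rcases Nat.eq_zero_or_pos m with h | h
    · rw [h] at hbig
      simp only [Nat.cast_zero, zero_mul] at hbig
      linarith
    · exact h
  have hU2 : 2 ≤ 10 ^ (2 * m) := by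
    calc 2 ≤ 10 ^ 1 := by norm_num
      _ ≤ 10 ^ (2 * m) := Nat.pow_le_pow_right (by norm_num) (by omega)
  refine ⟨2 / 5 * lU, ⟨rfl, ?_, ?_, ?_, ?_, ?_, hG⟩⟩
  · nlinarith
  · intro j
    have hpos : 1 ≤ (10 ^ (2 * m)) ^ j := Nat.one_le_pow _ _ (by omega)
    have h1 := hG _ hpos
    have h2 : Real.log (((10 ^ (2 * m)) ^ j : ℕ) : ℝ) = j * lU := by
      rw [Nat.cast_pow, Real.log_pow]
    rw [h2] at h1
    rw [abs_le]
    have h3 : C ≤ ε * (2 / 5 * lU) := by nlinarith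
    constructor <;> linarith [h1.1, h1.2]
  · intro j
    have hpos : 1 ≤ 10 ^ (m * j) := Nat.one_le_pow _ _ (by norm_num)
    have h1 := (hG _ hpos).1
    have h2 : Real.log ((10 ^ (m * j) : ℕ) : ℝ) = j / 2 * lU := by
      rw [hlogU, Nat.cast_pow, Real.log_pow]
      push_cast
      ring
    rw [h2] at h1
    have h3 : C ≤ ε * (2 / 5 * lU) := by nlinarith
    linarith
  · intro i hi
    have h1 := cell_recip (10 ^ (2 * m)) i C2 hU2 hi hcell
    refine h1.trans ?_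
    apply div_le_div_of_nonneg_right _ (by positivity)
    have h2 : C2 / lU ≤ ε := by
      rw [div_le_iff₀ hlU0]
      nlinarith
    linarith
  · have h1 : ∑ p ∈ PL (10 ^ (2 * m)), Real.log p / p ≤
        Real.log ((10 ^ (2 * m) : ℕ) : ℝ) + Real.log 4 := mertens_upper _ (by omega)
    have h2 := hrec (10 ^ (2 * m)) (by omega)
    have e1 : ∑ p ∈ PL (10 ^ (2 * m)), (1 / (p : ℝ)) * (2 / 5 * Real.log p + K) =
        2 / 5 * ∑ p ∈ PL (10 ^ (2 * m)), Real.log p / p + K * ∑ p ∈ PL (10 ^ (2 * m)), 1 / (p : ℝ) := by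
      rw [Finset.mul_sum, Finset.mul_sum, ← Finset.sum_add_distrib]
      apply Finset.sum_congr rfl
      intro p _
      ring
    rw [e1]
    have h3 : K * ∑ p ∈ PL (10 ^ (2 * m)), 1 / (p : ℝ) ≤ K * (ε / (5 * K) * lU + C3) :=
      mul_le_mul_of_nonneg_left h2 hK0.le
    have h4 : K * (ε / (5 * K) * lU + C3) = ε / 5 * lU + K * C3 := by
      field_simp
    rw [h4] at h3
    have h5 : 2 / 5 * Real.log 4 + K * C3 ≤ ε / 5 * lU := by
      have h6 : 0 ≤ K * C3 := by positivity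
      nlinarith
    rw [← hlU] at h1
    linarith

/-- the square-sum at the lower sieve -/
lemma low_main (m : ℕ) (V C : ℝ) (hg : GridOK (1 / 10 ^ 6) m V C)
    (hnum : ∀ i ∈ Icc 1 39, (Acell 59 i : ℝ) / i ≤ ((Acell 59 i / i + 1 : ℕ) : ℝ))
    (hnum2 : ∑ i ∈ Icc 1 39, (Acell 59 i / i + 1) = 36000)
    (hnum3 : ∑ i ∈ Icc 1 59, ∑ j ∈ Icc 1 59, min i j = 70210) :
    34150 * V ≤ ∑ k ∈ DD ((10 ^ (2 * m)) ^ 59), ys (10 ^ (2 * m)) 59 k ^ 2 / (Nat.totient k : ℝ) -
      ∑ p ∈ PP ((10 ^ (2 * m)) ^ 40), (1 / (p : ℝ)) * ∑ k ∈ DD ((10 ^ (2 * m)) ^ 59),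
        (ys (10 ^ (2 * m)) 59 k - ys (10 ^ (2 * m)) 59 (k * p)) ^ 2 / (Nat.totient k : ℝ) := by
  classical
  set U := 10 ^ (2 * m) with hU
  have hU1 : 1 ≤ U := Nat.one_le_pow _ _ (by norm_num)
  set ε : ℝ := 1 / 10 ^ 6 with hε
  have hε0 : 0 < ε := by rw [hε]; norm_num
  have hV0 : 0 < V := by
    have := hg.pos
    by_contra hcon
    push Not at hcon
    nlinarith
  -- first term
  have hQ0 : V * (70210 - 59 ^ 2 * ε) ≤
      ∑ k ∈ DD (U ^ 59), ys U 59 k ^ 2 / (Nat.totient k : ℝ) := by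
    rw [ys_Q0 U 59 hU1]
    have h1 : ∀ i ∈ Icc 1 59, ∀ j ∈ Icc 1 59, V * ((min i j : ℕ) : ℝ) - ε * V ≤ G5 (U ^ (min i j)) := by
      intro i _ j _
      have := (abs_le.mp (hg.G (min i j))).1
      linarith
    calc V * (70210 - 59 ^ 2 * ε) = ∑ i ∈ Icc 1 59, ∑ j ∈ Icc 1 59, (V * ((min i j : ℕ) : ℝ) - ε * V) := by
          simp only [Finset.sum_sub_distrib, ← Finset.mul_sum, Finset.sum_const, Nat.card_Icc,
            nsmul_eq_mul]
          have : (∑ i ∈ Icc 1 59, ∑ j ∈ Icc 1 59, ((min i j : ℕ) : ℝ)) = 70210 := by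
            rw [← Nat.cast_ofNat (n := 70210), ← hnum3]
            push_cast
            rfl
          rw [this]
          norm_num
          ring
      _ ≤ _ := Finset.sum_le_sum fun i hi => Finset.sum_le_sum fun j hj => h1 i hi j hj
  -- the primes
  set Qs : ℕ → ℝ := fun p => ∑ k ∈ DD (U ^ 59),
    (ys U 59 k - ys U 59 (k * p)) ^ 2 / (Nat.totient k : ℝ) with hQs
  have hQs0 : ∀ p, 0 ≤ Qs p := fun p => Finset.sum_nonneg fun _ _ =>
    div_nonneg (sq_nonneg _) (Nat.cast_nonneg _)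
  have hinv : ∀ p : ℕ, 0 ≤ 1 / (p : ℝ) := fun p => one_div_nonneg.mpr (Nat.cast_nonneg p)
  have hcov : PP (U ^ 40) ⊆ PL U ∪ (Icc 1 39).biUnion (fun i => cellP U i) := by
    intro p hp
    rw [mem_PP] at hp
    rw [Finset.mem_union, Finset.mem_biUnion]
    rcases Nat.lt_or_ge U p with h | h
    · right
      have hex : ∃ i, p ≤ U ^ (i + 1) := ⟨39, hp.1.le⟩
      obtain ⟨i, hi, hmin⟩ : ∃ i, p ≤ U ^ (i + 1) ∧ ∀ j < i, ¬ p ≤ U ^ (j + 1) :=
        ⟨Nat.find hex, Nat.find_spec hex, fun j hj => Nat.find_min hex hj⟩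
      have hi0 : i ≠ 0 := by
        rintro rfl
        rw [zero_add, pow_one] at hi
        omega
      refine ⟨i, ?_, ?_⟩
      · rw [Finset.mem_Icc]
        refine ⟨by omega, ?_⟩
        by_contra hcon
        push Not at hcon
        exact hmin 39 hcon hp.1.le
      · rw [mem_cellP]
        have h2 := hmin (i - 1) (by omega)
        rw [show i - 1 + 1 = i by omega] at h2
        exact ⟨⟨by omega, hi⟩, hp.2.1⟩
    · left
      rw [mem_PL]
      exact ⟨h, hp.2.1⟩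
  have hsum : ∑ p ∈ PP (U ^ 40), (1 / (p : ℝ)) * Qs p ≤
      ∑ p ∈ PL U, (1 / (p : ℝ)) * Qs p + ∑ i ∈ Icc 1 39, ∑ p ∈ cellP U i, (1 / (p : ℝ)) * Qs p := by
    have hn : ∀ p : ℕ, 0 ≤ (1 / (p : ℝ)) * Qs p := fun p => mul_nonneg (hinv p) (hQs0 p)
    calc ∑ p ∈ PP (U ^ 40), (1 / (p : ℝ)) * Qs p
        ≤ ∑ p ∈ PL U ∪ (Icc 1 39).biUnion (fun i => cellP U i), (1 / (p : ℝ)) * Qs p :=
          Finset.sum_le_sum_of_subset_of_nonneg hcov (fun p _ _ => hn p)
      _ ≤ ∑ p ∈ PL U, (1 / (p : ℝ)) * Qs p +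
          ∑ p ∈ (Icc 1 39).biUnion (fun i => cellP U i), (1 / (p : ℝ)) * Qs p := by
          rw [← Finset.sum_union_inter]
          have : 0 ≤ ∑ p ∈ PL U ∩ (Icc 1 39).biUnion (fun i => cellP U i), (1 / (p : ℝ)) * Qs p :=
            Finset.sum_nonneg fun p _ => hn p
          linarith
      _ ≤ _ := by
          have : ∑ p ∈ (Icc 1 39).biUnion (fun i => cellP U i), (1 / (p : ℝ)) * Qs p ≤
              ∑ i ∈ Icc 1 39, ∑ p ∈ cellP U i, (1 / (p : ℝ)) * Qs p := by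
            rw [Finset.sum_biUnion]
            intro i _ j _ hij
            rw [Function.onFun, Finset.disjoint_left]
            intro p hp hp2
            rw [mem_cellP] at hp hp2
            rcases Nat.lt_or_gt_of_ne hij with h | h
            · have : U ^ (i + 1) ≤ U ^ j := Nat.pow_le_pow_right hU1 h
              omega
            · have : U ^ (j + 1) ≤ U ^ i := Nat.pow_le_pow_right hU1 h
              omega
          linarith
  have hfirst : ∑ p ∈ PL U, (1 / (p : ℝ)) * Qs p ≤ 59 * ((1 + ε) * V) := by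
    calc ∑ p ∈ PL U, (1 / (p : ℝ)) * Qs p
        ≤ ∑ p ∈ PL U, 59 * ((1 / (p : ℝ)) * (2 / 5 * Real.log p +
          (2 / 5 * Real.log 2 + 2 * C))) := by
          apply Finset.sum_le_sum
          intro p hp
          rw [mem_PL] at hp
          have h1 := Qfirst U 59 p C hU1 hp.2.pos hp.1 hg.asymp
          calc (1 / (p : ℝ)) * Qs p ≤ (1 / (p : ℝ)) * ((59 : ℕ) * (2 / 5 * Real.log p +
                (2 / 5 * Real.log 2 + 2 * C))) := mul_le_mul_of_nonneg_left h1 (hinv p)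
            _ = _ := by push_cast; ring
      _ ≤ 59 * ((1 + ε) * V) := by
          rw [← Finset.mul_sum]
          exact mul_le_mul_of_nonneg_left hg.first (by norm_num)
  have hcells : ∑ i ∈ Icc 1 39, ∑ p ∈ cellP U i, (1 / (p : ℝ)) * Qs p ≤
      V * ((1 + ε) * (36000 + 39 * (3 * ε * 59 ^ 2))) := by
    have h1 : ∀ i ∈ Icc 1 39, ∑ p ∈ cellP U i, (1 / (p : ℝ)) * Qs p ≤
        V * ((1 + ε) * (((Acell 59 i / i + 1 : ℕ) : ℝ) + 3 * ε * 59 ^ 2)) := by
      intro i hi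
      have hi' := Finset.mem_Icc.mp hi
      have hiR : (1 : ℝ) ≤ i := by exact_mod_cast hi'.1
      calc ∑ p ∈ cellP U i, (1 / (p : ℝ)) * Qs p
          ≤ ∑ p ∈ cellP U i, (1 / (p : ℝ)) * (V * ((Acell 59 i : ℝ) + 3 * ε * 59 ^ 2)) := by
            apply Finset.sum_le_sum
            intro p hp
            rw [mem_cellP] at hp
            apply mul_le_mul_of_nonneg_left _ (hinv p)
            have := Qcell U 59 i p V ε hU1 hp.2.pos hp.1.2 hV0.le hg.pos (fun j _ => hg.G j)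
            exact_mod_cast this
        _ = (∑ p ∈ cellP U i, 1 / (p : ℝ)) * (V * ((Acell 59 i : ℝ) + 3 * ε * 59 ^ 2)) := by
            rw [Finset.sum_mul]
        _ ≤ ((1 + ε) / i) * (V * ((Acell 59 i : ℝ) + 3 * ε * 59 ^ 2)) := by
            apply mul_le_mul_of_nonneg_right (hg.cell i hi'.1)
            apply mul_nonneg hV0.le
            apply add_nonneg (Nat.cast_nonneg _)
            apply mul_nonneg _ (sq_nonneg _)
            apply mul_nonneg (by norm_num) hε0.le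
        _ = V * ((1 + ε) * ((Acell 59 i : ℝ) / i + 3 * ε * 59 ^ 2 / i)) := by
            field_simp
        _ ≤ V * ((1 + ε) * (((Acell 59 i / i + 1 : ℕ) : ℝ) + 3 * ε * 59 ^ 2)) := by
            apply mul_le_mul_of_nonneg_left _ hV0.le
            apply mul_le_mul_of_nonneg_left _ (by linarith)
            apply add_le_add (hnum i hi)
            apply div_le_self _ hiR
            apply mul_nonneg _ (sq_nonneg _)
            apply mul_nonneg (by norm_num) hε0.le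
    calc ∑ i ∈ Icc 1 39, ∑ p ∈ cellP U i, (1 / (p : ℝ)) * Qs p
        ≤ ∑ i ∈ Icc 1 39, V * ((1 + ε) * (((Acell 59 i / i + 1 : ℕ) : ℝ) + 3 * ε * 59 ^ 2)) :=
          Finset.sum_le_sum h1
      _ = V * ((1 + ε) * (36000 + 39 * (3 * ε * 59 ^ 2))) := by
          rw [← Finset.mul_sum, ← Finset.mul_sum, Finset.sum_add_distrib, Finset.sum_const,
            Nat.card_Icc, ← Nat.cast_sum, hnum2, nsmul_eq_mul]
          norm_num
  have hfin : 34150 ≤ 70210 - 59 ^ 2 * ε - 59 * (1 + ε) - (1 + ε) * (36000 + 39 * (3 * ε * 59 ^ 2)) := by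
    rw [hε]
    norm_num
  have := mul_le_mul_of_nonneg_left hfin hV0.le
  simp only [hQs] at hsum hfirst hcells
  linarith

end Pool.Agent.Helper10.P5
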