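import Pool.Agent.Helper10.P5.Sv3

/-! The two sieve inequalities with general profiles. -/

namespace Pool.Agent.Helper10.P5

open Finset Pool.Agent.Helper10

variable {ι : Type*}

/-- members without a prime factor below `z` (apart from 2 and 5) -/
noncomputable def sift (E : Finset ι) (N : ι → ℕ) (z : ℕ) : Finset ι :=
  E.filter (fun e => ∀ p ∈ PP z, ¬ p ∣ N e)

/-- **Lower bound sieve** with a general profile. -/
theorem low5 (E : Finset ι) (N : ι → ℕ) (X : ℝ) (hX : 0 ≤ X) (r : ℕ → ℝ)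
    (hr0 : ∀ q, 0 ≤ r q)
    (hr : ∀ q : ℕ, 0 < q → q.Coprime 10 →
      |((E.filter (fun e => q ∣ N e)).card : ℝ) - X / q| ≤ r q)
    (Y z : ℕ) (hz : 1 ≤ z) (y : ℕ → ℝ) (hy : ∀ k, Y < k → y k = 0) (B L : ℝ)
    (hB : ∀ d ∈ DD Y, |lm Y y d| ≤ B)
    (hL : ∀ e ∈ E, (∀ p ∈ PP z, ¬ p ∣ N e) → |wt5 Y y (N e)| ≤ L) :
    X * (∑ k ∈ DD Y, y k ^ 2 / (Nat.totient k : ℝ) - ∑ p ∈ PP z, (1 / (p : ℝ)) *
      ∑ k ∈ DD Y, (y k - y (k * p)) ^ 2 / (Nat.totient k : ℝ)) - B ^ 2 * errTot r (Y * Y * z) ≤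
      L ^ 2 * ((sift E N z).card : ℝ) := by
  classical
  set S : ℕ → ℝ := fun m => ∑ e ∈ E.filter (fun e => m ∣ N e), wt5 Y y (N e) ^ 2 with hS
  set Qf : ℕ → ℝ := fun m => ∑ d1 ∈ DD Y, ∑ d2 ∈ DD Y, lm Y y d1 * lm Y y d2 /
        ((Nat.lcm (Nat.lcm d1 d2) m : ℕ) : ℝ) with hQf
  set Rf : ℕ → ℝ := fun m => ∑ d1 ∈ DD Y, ∑ d2 ∈ DD Y, r (Nat.lcm (Nat.lcm d1 d2) m) with hRf
  -- comparison
  have h1 : S 1 - ∑ p ∈ PP z, S p ≤ L ^ 2 * ((sift E N z).card : ℝ) := by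
    have e1 : ∑ p ∈ PP z, S p = ∑ e ∈ E, ∑ p ∈ (PP z).filter (fun p => p ∣ N e),
        wt5 Y y (N e) ^ 2 := by
      simp only [hS]
      simp only [Finset.sum_filter]
      rw [Finset.sum_comm]
    have e2 : S 1 = ∑ e ∈ E, wt5 Y y (N e) ^ 2 := by
      simp only [hS]
      congr 1
      apply Finset.filter_true_of_mem
      intro _ _
      exact one_dvd _
    rw [e1, e2, ← Finset.sum_sub_distrib]
    have e3 : L ^ 2 * ((sift E N z).card : ℝ) =
        ∑ e ∈ E, if (∀ p ∈ PP z, ¬ p ∣ N e) then L ^ 2 else 0 := by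
      unfold sift
      rw [← Finset.sum_filter, Finset.sum_const, nsmul_eq_mul, mul_comm]
    rw [e3]
    apply Finset.sum_le_sum
    intro e he
    by_cases hs : ∀ p ∈ PP z, ¬ p ∣ N e
    · rw [if_pos hs]
      have h2 := hL e he hs
      have h3 : 0 ≤ ∑ p ∈ (PP z).filter (fun p => p ∣ N e), wt5 Y y (N e) ^ 2 :=
        Finset.sum_nonneg fun _ _ => sq_nonneg _
      have h4 : wt5 Y y (N e) ^ 2 ≤ L ^ 2 := by
        rw [← sq_abs (wt5 Y y (N e))]
        exact pow_le_pow_left₀ (abs_nonneg _) h2 2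
      linarith
    · rw [if_neg hs]
      push Not at hs
      obtain ⟨p, hp1, hp2⟩ := hs
      have : wt5 Y y (N e) ^ 2 ≤ ∑ p ∈ (PP z).filter (fun p => p ∣ N e), wt5 Y y (N e) ^ 2 :=
        Finset.single_le_sum (f := fun _ => wt5 Y y (N e) ^ 2) (fun _ _ => sq_nonneg _)
          (Finset.mem_filter.mpr ⟨hp1, hp2⟩)
      linarith
  have h2 : X * Qf 1 - B ^ 2 * Rf 1 ≤ S 1 := by
    have := sum_wt5_approx E N X r hr Y 1 y B hB (by norm_num) (Nat.coprime_one_left 10)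
    have := (abs_le.mp this).1
    simp only [hS, hQf, hRf]
    linarith
  have h3 : ∀ p ∈ PP z, S p ≤ X * ((1 / (p : ℝ)) *
      ∑ k ∈ DD Y, (y k - y (k * p)) ^ 2 / (Nat.totient k : ℝ)) + B ^ 2 * Rf p := by
    intro p hp
    rw [mem_PP] at hp
    have := sum_wt5_approx E N X r hr Y p y B hB hp.2.1.pos hp.2.2
    have := (abs_le.mp this).2
    have h4 := mul_le_mul_of_nonneg_left (Qp_lm Y p y hy hp.2.1 hp.2.2) hX
    simp only [hS, hRf]
    linarith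
  have h4 : ∑ p ∈ PP z, S p ≤ X * ∑ p ∈ PP z, (1 / (p : ℝ)) *
      ∑ k ∈ DD Y, (y k - y (k * p)) ^ 2 / (Nat.totient k : ℝ) + B ^ 2 * ∑ p ∈ PP z, Rf p := by
    rw [Finset.mul_sum, Finset.mul_sum, ← Finset.sum_add_distrib]
    exact Finset.sum_le_sum h3
  have h5 : Rf 1 + ∑ p ∈ PP z, Rf p ≤ errTot r (Y * Y * z) := by
    have hnot : 1 ∉ PP z := by
      rw [mem_PP]
      rintro ⟨_, h, _⟩
      exact Nat.not_prime_one h
    rw [← Finset.sum_insert hnot]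
    apply err_regroup r hr0 Y z
    intro m hm
    rw [Finset.mem_insert] at hm
    rcases hm with rfl | hm
    · exact ⟨le_refl _, hz, Nat.coprime_one_left 10⟩
    · rw [mem_PP] at hm
      exact ⟨hm.2.1.pos, hm.1.le, hm.2.2⟩
  have e0 : Qf 1 = ∑ k ∈ DD Y, y k ^ 2 / (Nat.totient k : ℝ) := by
    rw [← Q0_lm Y y]
    simp only [hQf]
    apply Finset.sum_congr rfl
    intro d1 _
    apply Finset.sum_congr rfl
    intro d2 _
    rw [Nat.lcm_one_right]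
  rw [e0] at h2
  have h6 := mul_le_mul_of_nonneg_left h5 (sq_nonneg B)
  have h7 : X * (∑ k ∈ DD Y, y k ^ 2 / (Nat.totient k : ℝ) - ∑ p ∈ PP z, (1 / (p : ℝ)) *
      ∑ k ∈ DD Y, (y k - y (k * p)) ^ 2 / (Nat.totient k : ℝ)) =
      X * ∑ k ∈ DD Y, y k ^ 2 / (Nat.totient k : ℝ) - X * ∑ p ∈ PP z, (1 / (p : ℝ)) *
      ∑ k ∈ DD Y, (y k - y (k * p)) ^ 2 / (Nat.totient k : ℝ) := by ring
  rw [h7]
  linarith

/-- the constant profile -/
noncomputable def yc (W k : ℕ) : ℝ := if k ≤ W then 1 / G5 W else 0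

lemma yc_lm_one (W : ℕ) (hW : 1 ≤ W) : lm W (yc W) 1 = 1 := by
  have hG : 0 < G5 W := lt_of_lt_of_le one_pos (G5_ge_one W hW)
  rw [lm_one]
  have h1 : ∀ k ∈ DD W, yc W k / (Nat.totient k : ℝ) = (1 / G5 W) * (1 / (Nat.totient k : ℝ)) := by
    intro k hk
    unfold yc
    rw [if_pos ((mem_DD W k).mp hk).1.2]
    ring
  rw [Finset.sum_congr rfl h1, ← Finset.mul_sum]
  unfold G5 at hG ⊢
  rw [one_div, inv_mul_cancel₀ hG.ne']

lemma yc_Q0 (W : ℕ) (hW : 1 ≤ W) : ∑ k ∈ DD W, yc W k ^ 2 / (Nat.totient k : ℝ) = 1 / G5 W := by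
  have hG : 0 < G5 W := lt_of_lt_of_le one_pos (G5_ge_one W hW)
  have h1 : ∀ k ∈ DD W, yc W k ^ 2 / (Nat.totient k : ℝ) =
      (1 / G5 W) ^ 2 * (1 / (Nat.totient k : ℝ)) := by
    intro k hk
    unfold yc
    rw [if_pos ((mem_DD W k).mp hk).1.2]
    ring
  rw [Finset.sum_congr rfl h1, ← Finset.mul_sum]
  unfold G5 at hG ⊢
  field_simp

lemma yc_nonneg (W k : ℕ) : 0 ≤ yc W k := by
  unfold yc
  have := G5_nonneg W
  split_ifs
  · positivity
  · exact le_refl 0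

lemma yc_le (W k : ℕ) : yc W k ≤ 1 / G5 W := by
  unfold yc
  have := G5_nonneg W
  split_ifs
  · exact le_refl _
  · positivity

lemma yc_lm_abs (W d : ℕ) (hW : 1 ≤ W) (hd : d ∈ DD W) : |lm W (yc W) d| ≤ 1 + Real.log W := by
  have hG : 0 < G5 W := lt_of_lt_of_le one_pos (G5_ge_one W hW)
  have h := lm_abs_le W (yc W) (1 / G5 W) (yc_nonneg W) (yc_le W) d hd
  have e : 1 / G5 W * (G5 W * (1 + Real.log W)) = 1 + Real.log W := by field_simp
  rwa [e] at h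

/-- **Upper bound sieve** for the multiples of a prime. -/
theorem up5 (E : Finset ι) (N : ι → ℕ) (X : ℝ) (r : ℕ → ℝ)
    (hr : ∀ q : ℕ, 0 < q → q.Coprime 10 →
      |((E.filter (fun e => q ∣ N e)).card : ℝ) - X / q| ≤ r q)
    (W p : ℕ) (hW : 1 ≤ W) (hp : p.Prime) (hp10 : p.Coprime 10) (hpW : W < p)
    (E' : Finset ι) (hE' : E' ⊆ E) (h : ∀ e ∈ E', p ∣ N e ∧ ∀ d ∈ DD W, d ∣ N e → d = 1) :
    (E'.card : ℝ) ≤ X / (p * G5 W) + (1 + Real.log W) ^ 2 *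
      ∑ d1 ∈ DD W, ∑ d2 ∈ DD W, r (Nat.lcm (Nat.lcm d1 d2) p) := by
  classical
  have hG : 0 < G5 W := lt_of_lt_of_le one_pos (G5_ge_one W hW)
  have hp0 : (0 : ℝ) < p := by exact_mod_cast hp.pos
  have h1 : (E'.card : ℝ) ≤ ∑ e ∈ E.filter (fun e => p ∣ N e), wt5 W (yc W) (N e) ^ 2 := by
    have e1 : (E'.card : ℝ) = ∑ e ∈ E', wt5 W (yc W) (N e) ^ 2 := by
      have e2 : ∀ e ∈ E', wt5 W (yc W) (N e) ^ 2 = 1 := by
        intro e he
        have h2 : (DD W).filter (fun d => d ∣ N e) = {1} := by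
          ext d
          rw [Finset.mem_filter, Finset.mem_singleton]
          constructor
          · rintro ⟨h3, h4⟩
            exact (h e he).2 d h3 h4
          · rintro rfl
            exact ⟨one_mem_DD W hW, one_dvd _⟩
        unfold wt5
        rw [h2, Finset.sum_singleton, yc_lm_one W hW]
        norm_num
      rw [Finset.sum_congr rfl e2]
      simp
    rw [e1]
    apply Finset.sum_le_sum_of_subset_of_nonneg
    · intro e he
      exact Finset.mem_filter.mpr ⟨hE' he, (h e he).1⟩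
    · intro _ _ _
      exact sq_nonneg _
  have h2 := sum_wt5_approx E N X r hr W p (yc W) (1 + Real.log W)
    (fun d hd => yc_lm_abs W d hW hd) hp.pos hp10
  have h3 := (abs_le.mp h2).2
  have h4 : ∑ d1 ∈ DD W, ∑ d2 ∈ DD W, lm W (yc W) d1 * lm W (yc W) d2 /
      ((Nat.lcm (Nat.lcm d1 d2) p : ℕ) : ℝ) = (1 / (p : ℝ)) * (1 / G5 W) := by
    rw [← yc_Q0 W hW, ← Q0_lm W (yc W), Finset.mul_sum]
    apply Finset.sum_congr rfl
    intro d1 hd1
    rw [Finset.mul_sum]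
    apply Finset.sum_congr rfl
    intro d2 hd2
    have h5 : Nat.Coprime (Nat.lcm d1 d2) p := by
      rw [mem_DD] at hd1 hd2
      apply lcm_coprime
      · exact (Nat.coprime_comm.mp ((Nat.Prime.coprime_iff_not_dvd hp).mpr
          (fun h => by have := Nat.le_of_dvd (by omega) h; omega)))
      · exact (Nat.coprime_comm.mp ((Nat.Prime.coprime_iff_not_dvd hp).mpr
          (fun h => by have := Nat.le_of_dvd (by omega) h; omega)))
    rw [Nat.Coprime.lcm_eq_mul h5]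
    push_cast
    by_cases hl : ((Nat.lcm d1 d2 : ℕ) : ℝ) = 0
    · rw [hl]
      simp
    · field_simp
  rw [h4] at h3
  have h6 : X * (1 / (p : ℝ) * (1 / G5 W)) = X / (p * G5 W) := by
    rw [one_div_mul_one_div, mul_one_div]
  linarith

end Pool.Agent.Helper10.P5
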