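import Pool.Agent.Helper10.P5.GSum

/-! Mertens-type estimates for sums over primes. -/

namespace Pool.Agent.Helper10.P5

open Finset Pool.Agent.Helper10

/-- primes up to `n` -/
def PL (n : ℕ) : Finset ℕ := (Icc 1 n).filter Nat.Prime

lemma mem_PL (n p : ℕ) : p ∈ PL n ↔ p ≤ n ∧ p.Prime := by
  unfold PL
  rw [Finset.mem_filter, Finset.mem_Icc]
  constructor
  · rintro ⟨⟨_, h⟩, h2⟩
    exact ⟨h, h2⟩
  · rintro ⟨h, h2⟩
    exact ⟨⟨h2.pos, h⟩, h2⟩

lemma log_factorial_eq (n : ℕ) :
    Real.log (n.factorial : ℝ) = ∑ p ∈ PL n, (n.factorial.factorization p : ℝ) * Real.log p := by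
  have h1 : (n.factorial : ℝ) = ∏ p ∈ PL n, (p : ℝ) ^ (n.factorial.factorization p) := by
    have h2 := Nat.prod_factorization_pow_eq_self (Nat.factorial_ne_zero n)
    have h3 : n.factorial.factorization.prod (fun p k => p ^ k) =
        ∏ p ∈ PL n, p ^ (n.factorial.factorization p) := by
      rw [Finsupp.prod]
      apply Finset.prod_subset
      · intro p hp
        rw [Nat.support_factorization, Nat.mem_primeFactors] at hp
        rw [mem_PL]
        exact ⟨(Nat.Prime.dvd_factorial hp.1).mp hp.2.1, hp.1⟩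
      · intro p _ hp
        rw [Finsupp.notMem_support_iff] at hp
        rw [hp, pow_zero]
    rw [h3] at h2
    exact_mod_cast h2.symm
  rw [h1, Real.log_prod]
  · apply Finset.sum_congr rfl
    intro p _
    rw [Real.log_pow]
  · intro p hp
    rw [mem_PL] at hp
    have := hp.2.pos
    positivity

lemma log_factorial_ge (n : ℕ) (hn : 1 ≤ n) :
    n * Real.log n - n ≤ Real.log (n.factorial : ℝ) := by
  have h := Real.pow_div_factorial_le_exp (x := (n : ℝ)) (by positivity) n
  have hn0 : (0 : ℝ) < n := by exact_mod_cast hn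
  have hf : (0 : ℝ) < n.factorial := by exact_mod_cast Nat.factorial_pos n
  have h2 := Real.log_le_log (by positivity) h
  rw [Real.log_exp, Real.log_div (by positivity) hf.ne', Real.log_pow] at h2
  linarith

/-- Mertens' first theorem, lower bound -/
theorem mertens_lower : ∃ C : ℝ, 0 ≤ C ∧ ∀ n : ℕ, 1 ≤ n →
    Real.log n - C ≤ ∑ p ∈ PL n, Real.log p / p := by
  have hsummable : Summable (fun n : ℕ => 1 / (n : ℝ) ^ (3 / 2 : ℝ)) :=
    Real.summable_one_div_nat_rpow.mpr (by norm_num)
  set S := ∑' n : ℕ, 1 / (n : ℝ) ^ (3 / 2 : ℝ) with hS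
  have hS0 : 0 ≤ S := tsum_nonneg fun n => by positivity
  refine ⟨1 + 4 * S, by positivity, ?_⟩
  intro n hn
  have hn0 : (0 : ℝ) < n := by exact_mod_cast hn
  have h1 := log_factorial_ge n hn
  rw [log_factorial_eq] at h1
  have h2 : ∑ p ∈ PL n, (n.factorial.factorization p : ℝ) * Real.log p ≤
      ∑ p ∈ PL n, (n * (Real.log p / p) + n * (4 * (1 / (p : ℝ) ^ (3 / 2 : ℝ)))) := by
    apply Finset.sum_le_sum
    intro p hp
    rw [mem_PL] at hp
    have hp2 := hp.2.two_le
    have hpR : (2 : ℝ) ≤ p := by exact_mod_cast hp2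
    have hp0 : (0 : ℝ) < p := by linarith
    have h3 : ((n.factorial.factorization p : ℕ) : ℝ) ≤ n / (p - 1) := by
      have h4 := Nat.factorization_factorial_le_div_pred hp.2 n
      have h5 : ((n.factorial.factorization p : ℕ) : ℝ) ≤ ((n / (p - 1) : ℕ) : ℝ) := by
        exact_mod_cast h4
      refine h5.trans (Nat.cast_div_le.trans (le_of_eq ?_))
      rw [Nat.cast_sub (by omega)]
      simp
    have hlog0 : 0 ≤ Real.log p := Real.log_nonneg (by linarith)
    have hlog : Real.log p ≤ 2 * (p : ℝ) ^ (1 / 2 : ℝ) := by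
      have := Real.log_le_rpow_div hp0.le (show (0 : ℝ) < 1 / 2 by norm_num)
      linarith
    have e1 : (n : ℝ) / (p - 1) = n / p + n / (p * (p - 1)) := by
      have : (p : ℝ) - 1 ≠ 0 := by linarith
      field_simp
      ring
    have e2 : (n : ℝ) / (p * (p - 1)) ≤ n * (2 / (p : ℝ) ^ 2) := by
      rw [div_le_iff₀ (by nlinarith)]
      have : n * (2 / (p : ℝ) ^ 2) * (p * (p - 1)) = n * (2 * (p - 1) / p) := by
        field_simp
      rw [this]
      have h6 : 1 ≤ 2 * ((p : ℝ) - 1) / p := by
        rw [le_div_iff₀ hp0]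
        linarith
      nlinarith
    have e3 : 2 / (p : ℝ) ^ 2 * Real.log p ≤ 4 * (1 / (p : ℝ) ^ (3 / 2 : ℝ)) := by
      calc 2 / (p : ℝ) ^ 2 * Real.log p ≤ 2 / (p : ℝ) ^ 2 * (2 * (p : ℝ) ^ (1 / 2 : ℝ)) :=
            mul_le_mul_of_nonneg_left hlog (by positivity)
        _ = 4 * (1 / (p : ℝ) ^ (3 / 2 : ℝ)) := by
            have : (p : ℝ) ^ (1 / 2 : ℝ) / (p : ℝ) ^ 2 = 1 / (p : ℝ) ^ (3 / 2 : ℝ) := by
              rw [← Real.rpow_natCast, ← Real.rpow_sub hp0]
              have e5 : (1 : ℝ) / (p : ℝ) ^ (3 / 2 : ℝ) = (p : ℝ) ^ (-(3 / 2) : ℝ) := by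
                rw [Real.rpow_neg hp0.le, one_div]
              rw [e5]
              norm_num
            rw [← this]
            ring
    calc (n.factorial.factorization p : ℝ) * Real.log p ≤ (n / (p - 1)) * Real.log p :=
          mul_le_mul_of_nonneg_right h3 hlog0
      _ = n * (Real.log p / p) + (n / (p * (p - 1))) * Real.log p := by rw [e1]; ring
      _ ≤ n * (Real.log p / p) + (n * (2 / (p : ℝ) ^ 2)) * Real.log p := by
          have := mul_le_mul_of_nonneg_right e2 hlog0
          linarith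
      _ ≤ n * (Real.log p / p) + n * (4 * (1 / (p : ℝ) ^ (3 / 2 : ℝ))) := by
          have := mul_le_mul_of_nonneg_left e3 hn0.le
          linarith
  rw [Finset.sum_add_distrib, ← Finset.mul_sum, ← Finset.mul_sum, ← Finset.mul_sum] at h2
  have h3 : ∑ p ∈ PL n, 1 / (p : ℝ) ^ (3 / 2 : ℝ) ≤ S :=
    hsummable.sum_le_tsum _ (fun _ _ => by positivity)
  have h4 : n * (Real.log n - (1 + 4 * S)) ≤ n * ∑ p ∈ PL n, Real.log p / p := by
    nlinarith
  exact le_of_mul_le_mul_left h4 hn0

/-- sum of `log p / p` over primes in an interval -/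
theorem mertens_interval : ∃ C : ℝ, 0 ≤ C ∧ ∀ a b : ℕ, 1 ≤ a → a ≤ b →
    ∑ p ∈ (PL b).filter (fun p => a < p), Real.log p / p ≤ Real.log b - Real.log a + C := by
  obtain ⟨C, hC, h⟩ := mertens_lower
  refine ⟨C + Real.log 4, by
    have : 0 ≤ Real.log 4 := Real.log_nonneg (by norm_num)
    linarith, ?_⟩
  intro a b ha hab
  have h1 := h a ha
  have h2 : ∑ p ∈ PL b, Real.log p / p ≤ Real.log b + Real.log 4 :=
    mertens_upper b (by omega)
  have h3 : ∑ p ∈ PL b, Real.log p / p = ∑ p ∈ (PL b).filter (fun p => a < p), Real.log p / p +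
      ∑ p ∈ (PL b).filter (fun p => ¬ a < p), Real.log p / p :=
    (Finset.sum_filter_add_sum_filter_not _ _ _).symm
  have h4 : (PL b).filter (fun p => ¬ a < p) = PL a := by
    ext p
    rw [Finset.mem_filter, mem_PL, mem_PL]
    constructor
    · rintro ⟨⟨_, h5⟩, h6⟩
      exact ⟨by omega, h5⟩
    · rintro ⟨h5, h6⟩
      exact ⟨⟨by omega, h6⟩, by omega⟩
  rw [h4] at h3
  linarith

/-- reciprocals of primes are `o(log)`. -/
theorem recip_small (ε : ℝ) (hε : 0 < ε) : ∃ C : ℝ, 0 ≤ C ∧ ∀ n : ℕ, 1 ≤ n →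
    ∑ p ∈ PL n, 1 / (p : ℝ) ≤ ε * Real.log n + C := by
  obtain ⟨w, hw⟩ := exists_nat_gt (Real.exp (1 / ε))
  have hw0 : (0 : ℝ) < w := (Real.exp_pos _).trans hw
  have hlw : 1 / ε < Real.log w := by
    rw [Real.lt_log_iff_exp_lt hw0]
    exact hw
  have hlw0 : 0 < Real.log w := lt_trans (by positivity) hlw
  refine ⟨w + ε * Real.log 4, by
    have : 0 ≤ Real.log 4 := Real.log_nonneg (by norm_num)
    positivity, ?_⟩
  intro n hn
  have h1 : ∑ p ∈ PL n, Real.log p / p ≤ Real.log n + Real.log 4 := mertens_upper n hn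
  calc ∑ p ∈ PL n, 1 / (p : ℝ)
      = ∑ p ∈ (PL n).filter (fun p => p ≤ w), 1 / (p : ℝ) +
        ∑ p ∈ (PL n).filter (fun p => ¬ p ≤ w), 1 / (p : ℝ) :=
        (Finset.sum_filter_add_sum_filter_not _ _ _).symm
    _ ≤ ∑ p ∈ Icc 1 w, (1 : ℝ) + ∑ p ∈ (PL n).filter (fun p => ¬ p ≤ w), ε * (Real.log p / p) := by
        apply add_le_add
        · calc ∑ p ∈ (PL n).filter (fun p => p ≤ w), 1 / (p : ℝ)
              ≤ ∑ p ∈ (PL n).filter (fun p => p ≤ w), (1 : ℝ) := by
                apply Finset.sum_le_sum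
                intro p hp
                rw [Finset.mem_filter, mem_PL] at hp
                have : (1 : ℝ) ≤ p := by exact_mod_cast hp.1.2.pos
                rw [div_le_one (by linarith)]
                exact this
            _ ≤ ∑ p ∈ Icc 1 w, (1 : ℝ) := by
                apply Finset.sum_le_sum_of_subset_of_nonneg
                · intro p hp
                  rw [Finset.mem_filter, mem_PL] at hp
                  rw [Finset.mem_Icc]
                  exact ⟨hp.1.2.pos, hp.2⟩
                · intro _ _ _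
                  norm_num
        · apply Finset.sum_le_sum
          intro p hp
          rw [Finset.mem_filter, mem_PL] at hp
          have hp0 : (0 : ℝ) < p := by exact_mod_cast hp.1.2.pos
          have h2 : Real.log w ≤ Real.log p := by
            apply Real.log_le_log hw0
            exact_mod_cast (by omega : w ≤ p)
          rw [← mul_div_assoc]
          apply div_le_div_of_nonneg_right _ hp0.le
          have h3 : 1 ≤ ε * Real.log w := by
            rw [div_lt_iff₀ hε] at hlw
            linarith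
          nlinarith
    _ ≤ w + ε * (Real.log n + Real.log 4) := by
        apply add_le_add
        · rw [Finset.sum_const, Nat.card_Icc, nsmul_eq_mul, mul_one, Nat.add_sub_cancel]
        · rw [← Finset.mul_sum]
          apply mul_le_mul_of_nonneg_left _ hε.le
          refine le_trans ?_ h1
          apply Finset.sum_le_sum_of_subset_of_nonneg (Finset.filter_subset _ _)
          intro p _ _
          have := Real.log_natCast_nonneg p
          positivity
    _ = ε * Real.log n + (w + ε * Real.log 4) := by ring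

end Pool.Agent.Helper10.P5
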