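import Pool.Agent.Helper10.P5.Dig

/-! Second moments over reduced fractions for general sets of moduli. -/

namespace Pool.Agent.Helper10.P5

open Finset Pool.Agent.Helper10

lemma parseval_w {ι : Type*} [DecidableEq ι] (q : ℕ) (hq : 0 < q) (K : Finset ι) (C : ι → ℝ)
    (M : ι → ℕ) :
    ∑ a ∈ range q, ‖∑ k ∈ K, ((C k : ℝ) : ℂ) * ee ((a : ℝ) / q * (M k : ℝ))‖ ^ 2 =
      (q : ℝ) * ∑ p ∈ (K ×ˢ K).filter (fun p => (q : ℤ) ∣ (M p.1 : ℤ) - M p.2), C p.1 * C p.2 := by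
  have h1 : ((∑ a ∈ range q, ‖∑ k ∈ K, ((C k : ℝ) : ℂ) * ee ((a : ℝ) / q * (M k : ℝ))‖ ^ 2 : ℝ) : ℂ) =
      (((q : ℝ) * ∑ p ∈ (K ×ˢ K).filter (fun p => (q : ℤ) ∣ (M p.1 : ℤ) - M p.2),
        C p.1 * C p.2 : ℝ) : ℂ) := by
    rw [Complex.ofReal_sum]
    have h2 : ∀ a ∈ range q, ((‖∑ k ∈ K, ((C k : ℝ) : ℂ) * ee ((a : ℝ) / q * (M k : ℝ))‖ ^ 2 : ℝ) : ℂ) =
        ∑ p ∈ K ×ˢ K, ((C p.1 * C p.2 : ℝ) : ℂ) *
          ee ((a : ℝ) * ((((M p.1 : ℤ) - M p.2 : ℤ) : ℝ) / q)) := by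
      intro a _
      rw [ofReal_norm_sq, map_sum, Finset.sum_mul_sum, ← Finset.sum_product']
      apply Finset.sum_congr rfl
      intro p _
      rw [map_mul, Complex.conj_ofReal, ← ee_neg]
      have e1 : ee ((a : ℝ) * ((((M p.1 : ℤ) - M p.2 : ℤ) : ℝ) / q)) =
          ee ((a : ℝ) / q * (M p.1 : ℝ)) * ee (-((a : ℝ) / q * (M p.2 : ℝ))) := by
        rw [← ee_add]
        congr 1
        push_cast
        ring
      rw [e1]
      push_cast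
      ring
    rw [Finset.sum_congr rfl h2, Finset.sum_comm]
    have h3 : ∀ p ∈ K ×ˢ K, ∑ a ∈ range q, ((C p.1 * C p.2 : ℝ) : ℂ) *
          ee ((a : ℝ) * ((((M p.1 : ℤ) - M p.2 : ℤ) : ℝ) / q)) =
        if (q : ℤ) ∣ (M p.1 : ℤ) - M p.2 then (q : ℂ) * ((C p.1 * C p.2 : ℝ) : ℂ) else 0 := by
      intro p _
      rw [← Finset.mul_sum, sum_ee_eq q hq]
      split_ifs
      · ring
      · ring
    rw [Finset.sum_congr rfl h3, ← Finset.sum_filter, ← Finset.mul_sum]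
    push_cast
    ring
  exact_mod_cast h1

/-- the second moment for a general set of moduli -/
theorem T2_gen (κ T ℓ Qm D : ℕ) (I A : Finset ℕ)
    (hκ : ∀ q : ℕ, q.Coprime 10 → q.Coprime κ) (hℓ : ℓ ≤ T) (hI : I ⊆ Icc 1 ℓ) (hA : A ⊆ Icc 1 ℓ)
    (hIA : Disjoint I A) (S : Finset ℕ) (hS : ∀ q ∈ S, 0 < q ∧ q ≤ Qm ∧ q.Coprime 10)
    (hD : ∀ n : ℕ, 1 ≤ n → n ≤ 18 * 10 ^ (2 * ℓ + 1) → (S.filter (fun q => q ∣ n)).card ≤ D) :
    ∑ q ∈ S, ∑ a ∈ AA q, (GF κ T I ((a : ℝ) / q) ^ 2 * GF κ T A ((a : ℝ) / q)) ^ 2 ≤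
      Qm * (S.card * ((67 / 1000) ^ I.card * (1 / 10) ^ A.card) + D) := by
  classical
  set K := KK ℓ 19 with hK
  set κ' := κ * 10 ^ (T - ℓ) with hκ'
  set M : (Fin ℓ → ℕ) → ℕ := fun f => κ' * vl ℓ f with hM
  set C : (Fin ℓ → ℕ) → ℝ := ct I A ℓ with hC
  have hC0 : ∀ f ∈ K, 0 ≤ C f := fun f hf => ct_nonneg I A ℓ f hf
  -- step 1
  have h1 : ∀ q ∈ S, ∑ a ∈ AA q, (GF κ T I ((a : ℝ) / q) ^ 2 * GF κ T A ((a : ℝ) / q)) ^ 2 ≤
      Qm * ∑ p ∈ K ×ˢ K, if (q : ℤ) ∣ (vl ℓ p.1 : ℤ) - vl ℓ p.2 then C p.1 * C p.2 else 0 := by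
    intro q hq
    obtain ⟨hq0, hqm, hq10⟩ := hS q hq
    have hcop : IsCoprime (q : ℤ) (κ' : ℤ) := by
      rw [Nat.isCoprime_iff_coprime, hκ']
      exact Nat.Coprime.mul_right (hκ q hq10) (Nat.Coprime.pow_right _ hq10)
    calc ∑ a ∈ AA q, (GF κ T I ((a : ℝ) / q) ^ 2 * GF κ T A ((a : ℝ) / q)) ^ 2
        ≤ ∑ a ∈ range q, (GF κ T I ((a : ℝ) / q) ^ 2 * GF κ T A ((a : ℝ) / q)) ^ 2 := by
          apply Finset.sum_le_sum_of_subset_of_nonneg (Finset.filter_subset _ _)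
          intro _ _ _
          positivity
      _ = ∑ a ∈ range q, ‖∑ f ∈ K, ((C f : ℝ) : ℂ) * ee ((a : ℝ) / q * (M f : ℝ))‖ ^ 2 := by
          apply Finset.sum_congr rfl
          intro a _
          rw [GF_expand κ T ℓ I A hℓ hI hA hIA]
      _ = (q : ℝ) * ∑ p ∈ (K ×ˢ K).filter (fun p => (q : ℤ) ∣ (M p.1 : ℤ) - M p.2), C p.1 * C p.2 :=
          parseval_w q hq0 K C M
      _ = (q : ℝ) * ∑ p ∈ K ×ˢ K, (if (q : ℤ) ∣ (vl ℓ p.1 : ℤ) - vl ℓ p.2 then C p.1 * C p.2 else 0) := by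
          congr 1
          rw [Finset.sum_filter]
          apply Finset.sum_congr rfl
          intro p _
          have e1 : (M p.1 : ℤ) - M p.2 = (κ' : ℤ) * ((vl ℓ p.1 : ℤ) - vl ℓ p.2) := by
            simp only [hM]
            push_cast
            ring
          rw [e1]
          by_cases h : (q : ℤ) ∣ (vl ℓ p.1 : ℤ) - vl ℓ p.2
          · rw [if_pos h, if_pos (Dvd.dvd.mul_left h _)]
          · rw [if_neg h, if_neg (fun h' => h (hcop.dvd_of_dvd_mul_left h'))]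
      _ ≤ Qm * ∑ p ∈ K ×ˢ K, (if (q : ℤ) ∣ (vl ℓ p.1 : ℤ) - vl ℓ p.2 then C p.1 * C p.2 else 0) := by
          apply mul_le_mul_of_nonneg_right (by exact_mod_cast hqm)
          apply Finset.sum_nonneg
          intro p hp
          rw [Finset.mem_product] at hp
          have := mul_nonneg (hC0 _ hp.1) (hC0 _ hp.2)
          split_ifs
          · exact this
          · exact le_refl _
  refine (Finset.sum_le_sum h1).trans ?_
  rw [← Finset.mul_sum]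
  apply mul_le_mul_of_nonneg_left _ (by positivity)
  rw [Finset.sum_comm]
  have h2 : ∀ p ∈ K ×ˢ K, ∑ q ∈ S, (if (q : ℤ) ∣ (vl ℓ p.1 : ℤ) - vl ℓ p.2 then C p.1 * C p.2 else 0) ≤
      (if p.1 = p.2 then (S.card : ℝ) * (C p.1 * C p.2) else 0) + D * (C p.1 * C p.2) := by
    intro p hp
    rw [Finset.mem_product] at hp
    have hnn := mul_nonneg (hC0 _ hp.1) (hC0 _ hp.2)
    rw [← Finset.sum_filter, Finset.sum_const, nsmul_eq_mul]
    by_cases hpp : p.1 = p.2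
    · rw [if_pos hpp]
      have h3 : ((S.filter (fun q : ℕ => (q : ℤ) ∣ (vl ℓ p.1 : ℤ) - vl ℓ p.2)).card : ℝ) ≤ S.card := by
        exact_mod_cast Finset.card_filter_le _ _
      have h4 := mul_le_mul_of_nonneg_right h3 hnn
      have h5 : 0 ≤ (D : ℝ) * (C p.1 * C p.2) := by positivity
      linarith
    · rw [if_neg hpp, zero_add]
      apply mul_le_mul_of_nonneg_right _ hnn
      set n := ((vl ℓ p.1 : ℤ) - vl ℓ p.2).natAbs with hn
      have hne : (vl ℓ p.1 : ℤ) - vl ℓ p.2 ≠ 0 := by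
        intro h0
        apply hpp
        apply vl_inj ℓ 19 (by norm_num) _ _ hp.1 hp.2
        have : (vl ℓ p.1 : ℤ) = vl ℓ p.2 := by linarith
        exact_mod_cast this
      have hn1 : 1 ≤ n := by
        rw [hn]
        exact Int.natAbs_pos.mpr hne
      have hb1 := vl_le ℓ 19 _ hp.1
      have hb2 := vl_le ℓ 19 _ hp.2
      have hn2 : n ≤ 18 * 10 ^ (2 * ℓ + 1) := by
        norm_num at hb1 hb2
        omega
      have h3 := hD n hn1 hn2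
      have h4 : S.filter (fun q : ℕ => (q : ℤ) ∣ (vl ℓ p.1 : ℤ) - vl ℓ p.2) =
          S.filter (fun q => q ∣ n) := by
        apply Finset.filter_congr
        intro q _
        rw [hn, Int.natCast_dvd]
      rw [h4]
      exact_mod_cast h3
  refine (Finset.sum_le_sum h2).trans ?_
  rw [Finset.sum_add_distrib]
  have h3 : ∑ p ∈ K ×ˢ K, (if p.1 = p.2 then (S.card : ℝ) * (C p.1 * C p.2) else 0) =
      S.card * ((67 / 1000) ^ I.card * (1 / 10) ^ A.card) := by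
    rw [Finset.sum_product, ← ct_sq_sum I A ℓ hI hA hIA, Finset.mul_sum]
    apply Finset.sum_congr rfl
    intro f hf
    rw [Finset.sum_ite_eq, if_pos hf]
    ring
  have h4 : ∑ p ∈ K ×ˢ K, (D : ℝ) * (C p.1 * C p.2) = D := by
    rw [← Finset.mul_sum, Finset.sum_product]
    simp only
    rw [← Finset.sum_mul_sum, hC, ct_sum, mul_one, mul_one]
  rw [h3, h4]

/-- spacing of fractions with bounded denominators -/
lemma spacing_gen (S : Finset ℕ) (Qm κ' : ℕ) (hS : ∀ q ∈ S, 0 < q ∧ q ≤ Qm ∧ q.Coprime κ')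
    (p p' : Σ _ : ℕ, ℕ) (hp : p ∈ S.sigma (fun q => AA q)) (hp' : p' ∈ S.sigma (fun q => AA q))
    (hne : p ≠ p') :
    1 / ((Qm : ℝ) ^ 2) ≤ nd ((κ' : ℝ) * ((p.2 : ℝ) / p.1) - (κ' : ℝ) * ((p'.2 : ℝ) / p'.1)) := by
  unfold AA at hp hp'
  rw [Finset.mem_sigma, Finset.mem_filter, Finset.mem_range] at hp hp'
  obtain ⟨q, a⟩ := p
  obtain ⟨q', a'⟩ := p'
  simp only at hp hp' ⊢
  obtain ⟨hqS, h4, h5⟩ := hp
  obtain ⟨hqS', h4', h5'⟩ := hp'
  obtain ⟨hq, h2, h3⟩ := hS q hqS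
  obtain ⟨hq', h2', h3'⟩ := hS q' hqS'
  have hqR : (0 : ℝ) < q := by exact_mod_cast hq
  have hqR' : (0 : ℝ) < q' := by exact_mod_cast hq'
  have e1 : (κ' : ℝ) * ((a : ℝ) / q) - (κ' : ℝ) * ((a' : ℝ) / q') =
      (((κ' : ℤ) * ((a : ℤ) * q' - a' * q) : ℤ) : ℝ) / ((q * q' : ℕ) : ℝ) := by
    push_cast
    field_simp
  rw [e1]
  have hnd : ¬ ((q * q' : ℕ) : ℤ) ∣ (κ' : ℤ) * ((a : ℤ) * q' - a' * q) := by
    intro hdv
    apply hne
    have hcop : IsCoprime ((q * q' : ℕ) : ℤ) (κ' : ℤ) := by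
      rw [Nat.isCoprime_iff_coprime]
      exact Nat.Coprime.mul_left h3 h3'
    have hdv2 := hcop.dvd_of_dvd_mul_left hdv
    have hA : (q : ℤ) ∣ (a : ℤ) * q' := by
      have : (q : ℤ) ∣ (a : ℤ) * q' - a' * q := (Dvd.intro (q' : ℤ) (by push_cast; ring)).trans hdv2
      have h6 := dvd_add this (Dvd.intro_left (a' : ℤ) rfl : (q : ℤ) ∣ (a' : ℤ) * q)
      simpa using h6
    have hB : (q' : ℤ) ∣ (a' : ℤ) * q := by
      have : (q' : ℤ) ∣ (a : ℤ) * q' - a' * q :=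
        (Dvd.intro_left (q : ℤ) (by push_cast; ring)).trans hdv2
      have h6 := dvd_sub (Dvd.intro_left (a : ℤ) rfl : (q' : ℤ) ∣ (a : ℤ) * q') this
      simpa using h6
    have hA' : q ∣ q' := by
      have : q ∣ a * q' := by exact_mod_cast hA
      exact (Nat.Coprime.dvd_of_dvd_mul_left h5.symm this)
    have hB' : q' ∣ q := by
      have : q' ∣ a' * q := by exact_mod_cast hB
      exact (Nat.Coprime.dvd_of_dvd_mul_left h5'.symm this)
    have hqq := Nat.dvd_antisymm hA' hB'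
    subst hqq
    have hC : (q : ℤ) ∣ (a : ℤ) - a' := by
      have e2 : (a : ℤ) * q - a' * q = (q : ℤ) * ((a : ℤ) - a') := by ring
      rw [e2] at hdv2
      push_cast at hdv2
      exact Int.dvd_of_mul_dvd_mul_left (by exact_mod_cast hq.ne') hdv2
    have hD : (a : ℤ) - a' = 0 := by
      apply Int.eq_zero_of_abs_lt_dvd hC
      rw [abs_lt]
      constructor <;> push_cast <;> omega
    have : a = a' := by
      have : (a : ℤ) = a' := by linarith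
      exact_mod_cast this
    rw [this]
  refine le_trans ?_ (nd_ge_of_not_dvd _ _ (Nat.mul_pos hq hq') hnd)
  apply one_div_le_one_div_of_le (by positivity)
  push_cast
  rw [sq]
  apply mul_le_mul _ _ hqR'.le (by positivity)
  · exact_mod_cast h2
  · exact_mod_cast h2'

/-- the second moment by the large sieve -/
theorem LS_gen (κ T ℓ Qm : ℕ) (I A : Finset ℕ)
    (hκ : ∀ q : ℕ, q.Coprime 10 → q.Coprime κ) (hℓ : ℓ ≤ T) (hI : I ⊆ Icc 1 ℓ) (hA : A ⊆ Icc 1 ℓ)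
    (hIA : Disjoint I A) (S : Finset ℕ) (hS : ∀ q ∈ S, 0 < q ∧ q ≤ Qm ∧ q.Coprime 10)
    (hQ1 : 1 ≤ Qm) (hQ : Qm ^ 2 ≤ 18 * 10 ^ (2 * ℓ + 1) + 1) :
    ∑ q ∈ S, ∑ a ∈ AA q, (GF κ T I ((a : ℝ) / q) ^ 2 * GF κ T A ((a : ℝ) / q)) ^ 2 ≤
      5 * ((18 * 10 ^ (2 * ℓ + 1) + 1 : ℕ) : ℝ) * ((67 / 1000) ^ I.card * (1 / 10) ^ A.card) := by
  classical
  set κ' : ℕ := κ * 10 ^ (T - ℓ) with hκ'
  have hκ'c : ∀ q : ℕ, q.Coprime 10 → q.Coprime κ' := fun q hq =>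
    Nat.Coprime.mul_right (hκ q hq) (Nat.Coprime.pow_right _ hq)
  rw [Finset.sum_sigma' S AA
    (fun q a => (GF κ T I ((a : ℝ) / q) ^ 2 * GF κ T A ((a : ℝ) / q)) ^ 2)]
  have hQR : (0 : ℝ) < Qm := by exact_mod_cast hQ1
  have LS := large_sieve (S.sigma (fun q => AA q))
    (fun p : (Σ _ : ℕ, ℕ) => (κ' : ℝ) * ((p.2 : ℝ) / p.1)) (1 / (Qm : ℝ) ^ 2) (by positivity)
    (fun p hp p' hp' hne => spacing_gen S Qm κ' (fun q hq => ⟨(hS q hq).1, (hS q hq).2.1,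
      hκ'c q (hS q hq).2.2⟩) p p' hp hp' hne) (KK ℓ 19) (vl ℓ)
    (by
      intro f hf f' hf' h
      exact vl_inj ℓ 19 (by norm_num) f f' hf hf' h)
    (18 * 10 ^ (2 * ℓ + 1) + 1)
    (by
      intro f hf
      rw [Nat.lt_succ_iff]
      exact vl_le ℓ 19 f hf)
    (by
      rw [one_div_one_div]
      exact_mod_cast hQ)
    (fun f => ((ct I A ℓ f : ℝ) : ℂ))
  have hcn : ∑ f ∈ KK ℓ 19, ‖((ct I A ℓ f : ℝ) : ℂ)‖ ^ 2 =
      (67 / 1000) ^ I.card * (1 / 10) ^ A.card := by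
    rw [← ct_sq_sum I A ℓ hI hA hIA]
    apply Finset.sum_congr rfl
    intro f _
    rw [Complex.norm_real, Real.norm_eq_abs, sq_abs]
  rw [hcn] at LS
  refine le_trans (le_of_eq ?_) LS
  apply Finset.sum_congr rfl
  intro p _
  rw [GF_expand κ T ℓ I A hℓ hI hA hIA]
  congr 2
  apply Finset.sum_congr rfl
  intro f _
  congr 2
  rw [hκ']
  push_cast
  ring

end Pool.Agent.Helper10.P5
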