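import Pool.Agent.Helper10.SieveMain
import Pool.Agent.Helper10.P5.GSum

/-! Selberg weights attached to a general profile `y`. -/

namespace Pool.Agent.Helper10.P5

open Finset Pool.Agent.Helper10

/-- sieve weights attached to the profile `y` -/
noncomputable def lm (Y : ℕ) (y : ℕ → ℝ) (d : ℕ) : ℝ :=
  ((ArithmeticFunction.moebius d : ℤ) : ℝ) * d *
    ∑ k ∈ (DD Y).filter (fun k => d ∣ k), y k / (Nat.totient k : ℝ)

/-- the diagonalizing variables -/
noncomputable def uu (Y : ℕ) (y : ℕ → ℝ) (k : ℕ) : ℝ :=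
  ∑ d ∈ (DD Y).filter (fun d => k ∣ d), lm Y y d / d

lemma tot_ne (Y k : ℕ) (hk : k ∈ DD Y) : (Nat.totient k : ℝ) ≠ 0 := by
  have h := ((mem_DD Y k).mp hk).1.1
  have := Nat.totient_pos.mpr h
  positivity

lemma uu_eq (Y : ℕ) (y : ℕ → ℝ) (k : ℕ) (hk : 0 < k) :
    uu Y y k = if k ∈ DD Y then ((ArithmeticFunction.moebius k : ℤ) : ℝ) *
      (y k / (Nat.totient k : ℝ)) else 0 := by
  unfold uu
  have h1 : ∀ d ∈ (DD Y).filter (fun d => k ∣ d), lm Y y d / d =
      ∑ j ∈ DD Y, if d ∣ j then (y j / (Nat.totient j : ℝ)) *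
        ((ArithmeticFunction.moebius d : ℤ) : ℝ) else 0 := by
    intro d hd
    rw [Finset.mem_filter] at hd
    have hd1 : (d : ℝ) ≠ 0 := by
      have := ((mem_DD Y d).mp hd.1).1.1
      positivity
    rw [← Finset.sum_filter]
    unfold lm
    rw [← Finset.sum_mul]
    field_simp
  rw [Finset.sum_congr rfl h1, Finset.sum_comm]
  have h2 : ∀ j ∈ DD Y, (∑ d ∈ (DD Y).filter (fun d => k ∣ d), if d ∣ j then
      (y j / (Nat.totient j : ℝ)) * ((ArithmeticFunction.moebius d : ℤ) : ℝ) else 0) =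
      if j = k then (y j / (Nat.totient j : ℝ)) *
        ((ArithmeticFunction.moebius k : ℤ) : ℝ) else 0 := by
    intro j hj
    rw [← Finset.sum_filter, Finset.filter_filter]
    have e1 : (DD Y).filter (fun d => k ∣ d ∧ d ∣ j) = j.divisors.filter (fun d => k ∣ d) := by
      ext d
      rw [Finset.mem_filter, Finset.mem_filter, Nat.mem_divisors]
      constructor
      · rintro ⟨h1, h2, h3⟩
        exact ⟨⟨h3, by have := ((mem_DD Y j).mp hj).1.1; omega⟩, h2⟩
      · rintro ⟨⟨h1, _⟩, h2⟩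
        exact ⟨dvd_mem_DD Y j d hj h1, h2, h1⟩
    rw [e1, ← Finset.mul_sum, ← Int.cast_sum, sum_mu j k ((mem_DD Y j).mp hj).2.1 hk]
    split_ifs <;> simp
  rw [Finset.sum_congr rfl h2, Finset.sum_ite_eq']
  split_ifs with h
  · ring
  · rfl

lemma filter_DD (Y : ℕ) : (Icc 1 Y).filter (fun k => k ∈ DD Y) = DD Y := by
  ext k
  rw [Finset.mem_filter]
  constructor
  · exact fun h => h.2
  · intro h
    exact ⟨Finset.mem_Icc.mpr ((mem_DD Y k).mp h).1, h⟩

/-- main term without a prime -/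
lemma Q0_lm (Y : ℕ) (y : ℕ → ℝ) :
    ∑ d1 ∈ DD Y, ∑ d2 ∈ DD Y, lm Y y d1 * lm Y y d2 / ((Nat.lcm d1 d2 : ℕ) : ℝ) =
      ∑ k ∈ DD Y, y k ^ 2 / (Nat.totient k : ℝ) := by
  have h := diag_form Y (DD Y) (fun d => d) (by
    intro d hd
    rw [Finset.mem_Icc]
    exact ((mem_DD Y d).mp hd).1) (lm Y y)
  rw [h]
  have h1 : ∀ k ∈ Icc 1 Y, (Nat.totient k : ℝ) *
      (∑ d ∈ (DD Y).filter (fun d => k ∣ d), lm Y y d / (d : ℝ)) ^ 2 =
      if k ∈ DD Y then y k ^ 2 / (Nat.totient k : ℝ) else 0 := by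
    intro k hk
    have hk1 := (Finset.mem_Icc.mp hk).1
    have h2 := uu_eq Y y k hk1
    unfold uu at h2
    rw [h2]
    split_ifs with h3
    · have := tot_ne Y k h3
      rw [mul_pow, mu_sq Y k h3]
      field_simp
    · ring
  rw [Finset.sum_congr rfl h1, ← Finset.sum_filter, filter_DD]

/-- main term with a prime -/
lemma Qp_lm (Y p : ℕ) (y : ℕ → ℝ) (hy : ∀ k, Y < k → y k = 0) (hp : p.Prime)
    (hp10 : p.Coprime 10) :
    ∑ d1 ∈ DD Y, ∑ d2 ∈ DD Y, lm Y y d1 * lm Y y d2 / ((Nat.lcm (Nat.lcm d1 d2) p : ℕ) : ℝ) ≤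
      (1 / p) * ∑ k ∈ DD Y, (y k - y (k * p)) ^ 2 / (Nat.totient k : ℝ) := by
  have hp0 : (0 : ℝ) < p := by exact_mod_cast hp.pos
  set s : ℕ → ℕ := fun d => d / Nat.gcd d p with hs
  have hslcm : ∀ d, Nat.lcm d p = p * s d := by
    intro d
    simp only [hs]
    unfold Nat.lcm
    rw [mul_comm d p, Nat.mul_div_assoc _ (Nat.gcd_dvd_left d p)]
  have h1 : ∀ d1 d2, Nat.lcm (Nat.lcm d1 d2) p = p * Nat.lcm (s d1) (s d2) := by
    intro d1 d2
    have e1 : Nat.lcm (Nat.lcm d1 d2) p = Nat.lcm (Nat.lcm d1 p) (Nat.lcm d2 p) := by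
      apply Nat.dvd_antisymm
      · apply Nat.lcm_dvd
        · apply Nat.lcm_dvd
          · exact (Nat.dvd_lcm_left d1 p).trans (Nat.dvd_lcm_left _ _)
          · exact (Nat.dvd_lcm_left d2 p).trans (Nat.dvd_lcm_right _ _)
        · exact (Nat.dvd_lcm_right d1 p).trans (Nat.dvd_lcm_left _ _)
      · apply Nat.lcm_dvd
        · apply Nat.lcm_dvd
          · exact (Nat.dvd_lcm_left d1 d2).trans (Nat.dvd_lcm_left _ _)
          · exact Nat.dvd_lcm_right _ _
        · apply Nat.lcm_dvd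
          · exact (Nat.dvd_lcm_right d1 d2).trans (Nat.dvd_lcm_left _ _)
          · exact Nat.dvd_lcm_right _ _
    rw [e1, hslcm d1, hslcm d2, Nat.lcm_mul_left]
  have h2 : ∑ d1 ∈ DD Y, ∑ d2 ∈ DD Y, lm Y y d1 * lm Y y d2 /
      ((Nat.lcm (Nat.lcm d1 d2) p : ℕ) : ℝ) =
      (1 / p) * ∑ d1 ∈ DD Y, ∑ d2 ∈ DD Y, lm Y y d1 * lm Y y d2 /
        ((Nat.lcm (s d1) (s d2) : ℕ) : ℝ) := by
    rw [Finset.mul_sum]
    apply Finset.sum_congr rfl
    intro d1 _
    rw [Finset.mul_sum]
    apply Finset.sum_congr rfl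
    intro d2 _
    rw [h1 d1 d2]
    push_cast
    rw [div_mul_div_comm, one_mul]
  have hsmem : ∀ d ∈ DD Y, s d ∈ Icc 1 Y := by
    intro d hd
    have hd' := ((mem_DD Y d).mp hd).1
    have : s d ∣ d := Nat.div_dvd_of_dvd (Nat.gcd_dvd_left d p)
    have h3 := Nat.le_of_dvd (by omega) this
    have h4 := Nat.pos_of_dvd_of_pos this (by omega)
    rw [Finset.mem_Icc]
    omega
  rw [h2, diag_form Y (DD Y) s hsmem (lm Y y)]
  have hgcd : ∀ d, Nat.gcd d p = if p ∣ d then p else 1 := by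
    intro d
    split_ifs with h
    · exact Nat.gcd_eq_right h
    · exact Nat.Coprime.symm ((Nat.Prime.coprime_iff_not_dvd hp).mpr h)
  have hinner : ∀ k ∈ Icc 1 Y, (Nat.totient k : ℝ) *
      (∑ d ∈ (DD Y).filter (fun d => k ∣ s d), lm Y y d / (s d : ℝ)) ^ 2 ≤
      if k ∈ DD Y then (y k - y (k * p)) ^ 2 / (Nat.totient k : ℝ) else 0 := by
    intro k hk
    have hk1 := (Finset.mem_Icc.mp hk).1
    have hk0 : (0 : ℝ) < k := by exact_mod_cast hk1
    have hnn : 0 ≤ (if k ∈ DD Y then (y k - y (k * p)) ^ 2 / (Nat.totient k : ℝ) else 0) := by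
      positivity
    by_cases hpk : p ∣ k
    · have e1 : (DD Y).filter (fun d => k ∣ s d) = ∅ := by
        apply Finset.filter_false_of_mem
        intro d hd h
        have hsq := ((mem_DD Y d).mp hd).2.1
        have hpd : p ∣ s d := hpk.trans h
        have hpd' : p ∣ d := hpd.trans (Nat.div_dvd_of_dvd (Nat.gcd_dvd_left d p))
        simp only [hs] at hpd
        rw [hgcd d, if_pos hpd'] at hpd
        have : p * p ∣ d := by
          obtain ⟨e, he⟩ := hpd
          refine ⟨e, ?_⟩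
          rw [← Nat.div_mul_cancel hpd', he]
          ring
        exact hp.one_lt.ne' (Nat.isUnit_iff.mp (hsq p this))
      rw [e1]
      simpa using hnn
    · have hcop : Nat.Coprime k p := ((Nat.Prime.coprime_iff_not_dvd hp).mpr hpk).symm
      have e1 : (DD Y).filter (fun d => k ∣ s d) = (DD Y).filter (fun d => k ∣ d) := by
        apply Finset.filter_congr
        intro d _
        constructor
        · intro h
          exact h.trans (Nat.div_dvd_of_dvd (Nat.gcd_dvd_left d p))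
        · intro h
          have h5 : s d * Nat.gcd d p = d := Nat.div_mul_cancel (Nat.gcd_dvd_left d p)
          rw [← h5] at h
          exact Nat.Coprime.dvd_of_dvd_mul_right
            (Nat.Coprime.coprime_dvd_right (Nat.gcd_dvd_right d p) hcop) h
      have e2 : ∑ d ∈ (DD Y).filter (fun d => k ∣ s d), lm Y y d / (s d : ℝ) =
          uu Y y k + (p - 1) * uu Y y (k * p) := by
        rw [e1]
        unfold uu
        have e3 : (DD Y).filter (fun d => k * p ∣ d) =
            ((DD Y).filter (fun d => k ∣ d)).filter (fun d => p ∣ d) := by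
          rw [Finset.filter_filter]
          apply Finset.filter_congr
          intro d _
          constructor
          · intro h
            exact ⟨(Dvd.intro _ rfl).trans h, (Dvd.intro_left _ rfl).trans h⟩
          · rintro ⟨h6, h7⟩
            exact Nat.Coprime.mul_dvd_of_dvd_of_dvd hcop h6 h7
        rw [e3, Finset.sum_filter (fun d => p ∣ d), Finset.mul_sum, ← Finset.sum_add_distrib]
        apply Finset.sum_congr rfl
        intro d hd
        rw [Finset.mem_filter] at hd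
        have hd0 : (d : ℝ) ≠ 0 := by
          have := ((mem_DD Y d).mp hd.1).1.1
          positivity
        simp only [hs]
        rw [hgcd d]
        split_ifs with h8
        · rw [Nat.cast_div h8 hp0.ne']
          field_simp
          ring
        · simp
      rw [e2]
      have hy1 := uu_eq Y y k hk1
      have hy2 := uu_eq Y y (k * p) (Nat.mul_pos hk1 hp.pos)
      by_cases hkD : k ∈ DD Y
      · rw [if_pos hkD] at hy1
        have hφ := tot_ne Y k hkD
        have hmain : uu Y y k + (p - 1) * uu Y y (k * p) =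
            ((ArithmeticFunction.moebius k : ℤ) : ℝ) * ((y k - y (k * p)) / (Nat.totient k : ℝ)) := by
          by_cases hkp : k * p ∈ DD Y
          · rw [if_pos hkp] at hy2
            have hmu : ArithmeticFunction.moebius (k * p) = - ArithmeticFunction.moebius k := by
              rw [ArithmeticFunction.isMultiplicative_moebius.map_mul_of_coprime hcop,
                ArithmeticFunction.moebius_apply_prime hp]
              ring
            have htot : (Nat.totient (k * p) : ℝ) = (Nat.totient k : ℝ) * (p - 1) := by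
              rw [Nat.totient_mul hcop, Nat.totient_prime hp]
              push_cast
              rw [Nat.cast_sub hp.pos]
              simp
            have hp1 : (p : ℝ) - 1 ≠ 0 := by
              have : (1 : ℝ) < p := by exact_mod_cast hp.one_lt
              linarith
            rw [hy1, hy2, hmu, htot]
            push_cast
            field_simp
            ring
          · rw [if_neg hkp] at hy2
            have hlt : Y < k * p := by
              by_contra hcon
              push Not at hcon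
              apply hkp
              rw [mem_DD] at hkD ⊢
              refine ⟨⟨Nat.mul_pos hk1 hp.pos, hcon⟩, ?_, ?_⟩
              · rw [Nat.squarefree_mul hcop]
                exact ⟨hkD.2.1, hp.squarefree⟩
              · exact Nat.Coprime.mul_left hkD.2.2 hp10
            rw [hy1, hy2, hy _ hlt]
            ring
        rw [hmain, if_pos hkD, mul_pow, mu_sq Y k hkD, one_mul, div_pow]
        apply le_of_eq
        field_simp
      · have hkp : k * p ∉ DD Y := fun h => hkD (dvd_mem_DD Y _ k h (Dvd.intro _ rfl))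
        rw [if_neg hkD] at hy1
        rw [if_neg hkp] at hy2
        rw [hy1, hy2]
        simpa using hnn
  apply mul_le_mul_of_nonneg_left _ (by positivity)
  refine (Finset.sum_le_sum hinner).trans (le_of_eq ?_)
  rw [← Finset.sum_filter, filter_DD]

/-- weights of the members -/
noncomputable def wt5 (Y : ℕ) (y : ℕ → ℝ) (n : ℕ) : ℝ :=
  ∑ d ∈ (DD Y).filter (fun d => d ∣ n), lm Y y d

lemma sum_wt5 {ι : Type*} (E : Finset ι) (N : ι → ℕ) (Y m : ℕ) (y : ℕ → ℝ) :
    ∑ e ∈ E.filter (fun e => m ∣ N e), wt5 Y y (N e) ^ 2 =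
      ∑ d1 ∈ DD Y, ∑ d2 ∈ DD Y, lm Y y d1 * lm Y y d2 *
        ((E.filter (fun e => Nat.lcm (Nat.lcm d1 d2) m ∣ N e)).card : ℝ) := by
  classical
  have h1 : ∀ e ∈ E.filter (fun e => m ∣ N e), wt5 Y y (N e) ^ 2 =
      ∑ d1 ∈ DD Y, ∑ d2 ∈ DD Y, if (d1 ∣ N e ∧ d2 ∣ N e) then lm Y y d1 * lm Y y d2 else 0 := by
    intro e _
    unfold wt5
    rw [sq, Finset.sum_mul_sum, Finset.sum_filter]
    apply Finset.sum_congr rfl
    intro d1 _
    rw [Finset.sum_filter]
    split_ifs with h
    · apply Finset.sum_congr rfl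
      intro d2 _
      simp [h]
    · symm
      apply Finset.sum_eq_zero
      intro d2 _
      simp [h]
  rw [Finset.sum_congr rfl h1, Finset.sum_comm]
  apply Finset.sum_congr rfl
  intro d1 _
  rw [Finset.sum_comm]
  apply Finset.sum_congr rfl
  intro d2 _
  rw [← Finset.sum_filter, Finset.filter_filter, Finset.sum_const, nsmul_eq_mul, mul_comm]
  congr 3
  apply Finset.filter_congr
  intro e _
  rw [Nat.lcm_dvd_iff, Nat.lcm_dvd_iff]
  tauto

lemma sum_wt5_approx {ι : Type*} (E : Finset ι) (N : ι → ℕ) (X : ℝ) (r : ℕ → ℝ)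
    (hr : ∀ q : ℕ, 0 < q → q.Coprime 10 →
      |((E.filter (fun e => q ∣ N e)).card : ℝ) - X / q| ≤ r q)
    (Y m : ℕ) (y : ℕ → ℝ) (B : ℝ) (hB : ∀ d ∈ DD Y, |lm Y y d| ≤ B)
    (hm : 0 < m) (hm10 : m.Coprime 10) :
    |∑ e ∈ E.filter (fun e => m ∣ N e), wt5 Y y (N e) ^ 2 -
      X * ∑ d1 ∈ DD Y, ∑ d2 ∈ DD Y, lm Y y d1 * lm Y y d2 /
        ((Nat.lcm (Nat.lcm d1 d2) m : ℕ) : ℝ)| ≤
      B ^ 2 * ∑ d1 ∈ DD Y, ∑ d2 ∈ DD Y, r (Nat.lcm (Nat.lcm d1 d2) m) := by
  rw [sum_wt5, Finset.mul_sum, ← Finset.sum_sub_distrib, Finset.mul_sum]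
  refine (Finset.abs_sum_le_sum_abs _ _).trans ?_
  apply Finset.sum_le_sum
  intro d1 hd1
  rw [Finset.mul_sum, ← Finset.sum_sub_distrib, Finset.mul_sum]
  refine (Finset.abs_sum_le_sum_abs _ _).trans ?_
  apply Finset.sum_le_sum
  intro d2 hd2
  have h1 := (mem_DD Y d1).mp hd1
  have h2 := (mem_DD Y d2).mp hd2
  set q := Nat.lcm (Nat.lcm d1 d2) m with hq
  have hq0 : 0 < q := Nat.lcm_pos (Nat.lcm_pos (by omega) (by omega)) hm
  have hq10 : q.Coprime 10 := lcm_coprime _ _ _ (lcm_coprime _ _ _ h1.2.2 h2.2.2) hm10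
  have e1 : lm Y y d1 * lm Y y d2 * ((E.filter (fun e => q ∣ N e)).card : ℝ) -
      X * (lm Y y d1 * lm Y y d2 / (q : ℝ)) =
      (lm Y y d1 * lm Y y d2) * (((E.filter (fun e => q ∣ N e)).card : ℝ) - X / q) := by ring
  rw [e1, abs_mul, abs_mul]
  have h3 := hB d1 hd1
  have h4 := hB d2 hd2
  have h5 := hr q hq0 hq10
  have h6 : |lm Y y d1| * |lm Y y d2| ≤ B ^ 2 := by
    rw [sq]
    exact mul_le_mul h3 h4 (abs_nonneg _) ((abs_nonneg _).trans h3)
  exact mul_le_mul h6 h5 (abs_nonneg _) (sq_nonneg _)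

end Pool.Agent.Helper10.P5
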