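import Pool.Agent.Helper10.P5.Sv
import Pool.Agent.Helper10.P5.Mert

/-! The step profile: values of the quadratic forms on a logarithmic grid. -/

namespace Pool.Agent.Helper10.P5

open Finset Pool.Agent.Helper10

lemma lm_one (Y : ℕ) (y : ℕ → ℝ) : lm Y y 1 = ∑ k ∈ DD Y, y k / (Nat.totient k : ℝ) := by
  unfold lm
  have : (DD Y).filter (fun k => 1 ∣ k) = DD Y := by
    apply Finset.filter_true_of_mem
    intro j _
    exact one_dvd j
  rw [this]
  simp

/-- `n ↦ 1/φ(n)` -/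
noncomputable def fph : ArithmeticFunction ℝ := ⟨fun n => 1 / (Nat.totient n : ℝ), by simp⟩

lemma fph_apply (n : ℕ) : fph n = 1 / (Nat.totient n : ℝ) := rfl

lemma fph_mult : fph.IsMultiplicative := by
  constructor
  · rw [fph_apply]; simp
  · intro m n h
    rw [fph_apply, fph_apply, fph_apply, Nat.totient_mul h]
    push_cast
    rw [one_div_mul_one_div]

lemma ratio_le (Y k : ℕ) (hk : k ∈ DD Y) : (k : ℝ) * (1 / (Nat.totient k : ℝ)) ≤ G5 Y := by
  classical
  have hk' := (mem_DD Y k).mp hk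
  have hk0 : 0 < k := by omega
  have hkR : (k : ℝ) ≠ 0 := by positivity
  have h2 : k.primeFactors.filter Nat.Prime = k.primeFactors := by
    apply Finset.filter_true_of_mem
    intro p hp
    exact Nat.prime_of_mem_primeFactors hp
  rw [inv_totient k hk0, h2]
  have h3 : ∏ p ∈ k.primeFactors, (1 - finv p)⁻¹ = ∏ p ∈ k.primeFactors, (1 + fph p) := by
    apply Finset.prod_congr rfl
    intro p hp
    have hpp := Nat.prime_of_mem_primeFactors hp
    have hp1 : (1 : ℝ) < p := by exact_mod_cast hpp.one_lt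
    rw [finv_apply, fph_apply, Nat.totient_prime hpp, Nat.cast_sub hpp.pos]
    push_cast
    have h4 : (p : ℝ) - 1 ≠ 0 := by linarith
    have h5 : 1 - ((p : ℝ))⁻¹ ≠ 0 := by
      have : ((p : ℝ))⁻¹ < 1 := inv_lt_one_of_one_lt₀ hp1
      linarith
    field_simp
    ring
  rw [h3, fph_mult.prodPrimeFactors_one_add_of_squarefree hk'.2.1]
  have e1 : (k : ℝ) * (1 / k * ∑ d ∈ k.divisors, fph d) = ∑ d ∈ k.divisors, fph d := by
    field_simp
  rw [e1]
  unfold G5
  apply Finset.sum_le_sum_of_subset_of_nonneg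
  · intro d hd
    exact dvd_mem_DD Y k d hk (Nat.dvd_of_mem_divisors hd)
  · intro x _ _
    show 0 ≤ 1 / (Nat.totient x : ℝ)
    positivity

lemma G5_nonneg (Y : ℕ) : 0 ≤ G5 Y := by unfold G5; positivity

lemma G5_ge_one (Y : ℕ) (hY : 1 ≤ Y) : 1 ≤ G5 Y := by
  unfold G5
  have := Finset.single_le_sum (f := fun d : ℕ => 1 / (Nat.totient d : ℝ))
    (fun i _ => by positivity) (one_mem_DD Y hY)
  simpa using this

lemma lm_abs_le (Y : ℕ) (y : ℕ → ℝ) (ym : ℝ) (hy0 : ∀ k, 0 ≤ y k) (hy : ∀ k, y k ≤ ym) (d : ℕ)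
    (hd : d ∈ DD Y) : |lm Y y d| ≤ ym * (G5 Y * (1 + Real.log Y)) := by
  classical
  have hd' := (mem_DD Y d).mp hd
  have hdR : (0 : ℝ) < d := by exact_mod_cast (by omega : 0 < d)
  have hY : 1 ≤ Y := by omega
  have hym : 0 ≤ ym := (hy0 1).trans (hy 1)
  unfold lm
  rw [abs_mul, abs_mul]
  have h2 : |((ArithmeticFunction.moebius d : ℤ) : ℝ)| ≤ 1 := by
    have := ArithmeticFunction.abs_moebius_le_one (n := d)
    exact_mod_cast this
  have hS0 : 0 ≤ ∑ k ∈ (DD Y).filter (fun k => d ∣ k), y k / (Nat.totient k : ℝ) := by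
    apply Finset.sum_nonneg
    intro k _
    have := hy0 k
    positivity
  rw [abs_of_pos hdR, abs_of_nonneg hS0]
  have h3 : (d : ℝ) * ∑ k ∈ (DD Y).filter (fun k => d ∣ k), y k / (Nat.totient k : ℝ) ≤
      ym * (G5 Y * (1 + Real.log Y)) := by
    calc (d : ℝ) * ∑ k ∈ (DD Y).filter (fun k => d ∣ k), y k / (Nat.totient k : ℝ)
        ≤ (d : ℝ) * ∑ k ∈ (DD Y).filter (fun k => d ∣ k), ym * (G5 Y * (1 / (k : ℝ))) := by
          apply mul_le_mul_of_nonneg_left _ hdR.le
          apply Finset.sum_le_sum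
          intro k hk
          rw [Finset.mem_filter] at hk
          have hk0 : (0 : ℝ) < k := by
            have := ((mem_DD Y k).mp hk.1).1.1
            exact_mod_cast this
          have h4 := ratio_le Y k hk.1
          have h5 : 1 / (Nat.totient k : ℝ) ≤ G5 Y * (1 / (k : ℝ)) := by
            rw [mul_one_div, le_div_iff₀ hk0]
            linarith
          calc y k / (Nat.totient k : ℝ) = y k * (1 / (Nat.totient k : ℝ)) := by ring
            _ ≤ ym * (G5 Y * (1 / (k : ℝ))) :=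
              mul_le_mul (hy k) h5 (by positivity) hym
      _ = ym * (G5 Y * ∑ k ∈ (DD Y).filter (fun k => d ∣ k), (d : ℝ) * (1 / (k : ℝ))) := by
          rw [← Finset.mul_sum, ← Finset.mul_sum, ← Finset.mul_sum]
          ring
      _ ≤ ym * (G5 Y * (1 + Real.log Y)) := by
          apply mul_le_mul_of_nonneg_left _ hym
          apply mul_le_mul_of_nonneg_left _ (G5_nonneg Y)
          refine le_trans ?_ (harmonic_Icc_le Y hY)
          have e1 : ∀ j ∈ (DD Y).filter (fun j => d ∣ j), (d : ℝ) * (1 / (j : ℝ)) =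
              1 / ((j / d : ℕ) : ℝ) := by
            intro j hj
            rw [Finset.mem_filter] at hj
            rw [Nat.cast_div hj.2 hdR.ne']
            have : (j : ℝ) ≠ 0 := by
              have := ((mem_DD Y j).mp hj.1).1.1
              positivity
            field_simp
          rw [Finset.sum_congr rfl e1,
            ← Finset.sum_image (s := (DD Y).filter (fun j => d ∣ j)) (g := fun j => j / d)
              (f := fun e : ℕ => 1 / (e : ℝ))]
          · apply Finset.sum_le_sum_of_subset_of_nonneg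
            · intro e he
              rw [Finset.mem_image] at he
              obtain ⟨j, hj, rfl⟩ := he
              rw [Finset.mem_filter] at hj
              have := (mem_DD Y _).mp (dvd_mem_DD Y j _ hj.1 (Nat.div_dvd_of_dvd hj.2))
              rw [Finset.mem_Icc]
              exact this.1
            · intro _ _ _
              positivity
          · intro x hx z hz hxz
            rw [Finset.mem_coe, Finset.mem_filter] at hx hz
            simp only at hxz
            rw [← Nat.div_mul_cancel hx.2, ← Nat.div_mul_cancel hz.2, hxz]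
  calc |((ArithmeticFunction.moebius d : ℤ) : ℝ)| * d *
        ∑ k ∈ (DD Y).filter (fun k => d ∣ k), y k / (Nat.totient k : ℝ)
      = |((ArithmeticFunction.moebius d : ℤ) : ℝ)| *
        (d * ∑ k ∈ (DD Y).filter (fun k => d ∣ k), y k / (Nat.totient k : ℝ)) := by ring
    _ ≤ 1 * (d * ∑ k ∈ (DD Y).filter (fun k => d ∣ k), y k / (Nat.totient k : ℝ)) :=
        mul_le_mul_of_nonneg_right h2 (by positivity)
    _ ≤ _ := by rw [one_mul]; exact h3

/-- step profile -/
noncomputable def ys (U J k : ℕ) : ℝ := ∑ j ∈ Icc 1 J, if k ≤ U ^ j then 1 else 0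

lemma ys_nonneg (U J k : ℕ) : 0 ≤ ys U J k := by
  unfold ys
  apply Finset.sum_nonneg
  intro j _
  split_ifs <;> norm_num

lemma ys_le (U J k : ℕ) : ys U J k ≤ J := by
  unfold ys
  calc ∑ j ∈ Icc 1 J, (if k ≤ U ^ j then (1 : ℝ) else 0) ≤ ∑ j ∈ Icc 1 J, (1 : ℝ) := by
        apply Finset.sum_le_sum
        intro j _
        split_ifs <;> norm_num
    _ = J := by simp

lemma ys_zero (U J k : ℕ) (hU : 1 ≤ U) (hk : U ^ J < k) : ys U J k = 0 := by
  unfold ys
  apply Finset.sum_eq_zero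
  intro j hj
  rw [Finset.mem_Icc] at hj
  rw [if_neg]
  have : U ^ j ≤ U ^ J := Nat.pow_le_pow_right hU hj.2
  omega

lemma DD_filter (Y Y' : ℕ) (h : Y' ≤ Y) : (DD Y).filter (fun k => k ≤ Y') = DD Y' := by
  ext k
  rw [Finset.mem_filter, mem_DD, mem_DD]
  constructor
  · rintro ⟨⟨⟨h1, h2⟩, h3⟩, h4⟩
    exact ⟨⟨h1, h4⟩, h3⟩
  · rintro ⟨⟨h1, h2⟩, h3⟩
    exact ⟨⟨⟨h1, by omega⟩, h3⟩, h2⟩

lemma ys_lm_one (U J : ℕ) (hU : 1 ≤ U) :
    lm (U ^ J) (ys U J) 1 = ∑ j ∈ Icc 1 J, G5 (U ^ j) := by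
  rw [lm_one]
  unfold ys G5
  have h1 : ∀ k ∈ DD (U ^ J), (∑ j ∈ Icc 1 J, if k ≤ U ^ j then (1 : ℝ) else 0) / (Nat.totient k : ℝ) =
      ∑ j ∈ Icc 1 J, if k ≤ U ^ j then 1 / (Nat.totient k : ℝ) else 0 := by
    intro k _
    rw [Finset.sum_div]
    apply Finset.sum_congr rfl
    intro j _
    split_ifs <;> simp
  rw [Finset.sum_congr rfl h1, Finset.sum_comm]
  apply Finset.sum_congr rfl
  intro j hj
  rw [Finset.mem_Icc] at hj
  rw [← Finset.sum_filter, DD_filter _ _ (Nat.pow_le_pow_right hU hj.2)]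

lemma ys_Q0 (U J : ℕ) (hU : 1 ≤ U) :
    ∑ k ∈ DD (U ^ J), ys U J k ^ 2 / (Nat.totient k : ℝ) =
      ∑ i ∈ Icc 1 J, ∑ j ∈ Icc 1 J, G5 (U ^ (min i j)) := by
  unfold ys G5
  have h1 : ∀ k ∈ DD (U ^ J), (∑ j ∈ Icc 1 J, if k ≤ U ^ j then (1 : ℝ) else 0) ^ 2 /
      (Nat.totient k : ℝ) =
      ∑ i ∈ Icc 1 J, ∑ j ∈ Icc 1 J, if k ≤ U ^ (min i j) then 1 / (Nat.totient k : ℝ) else 0 := by
    intro k _
    rw [sq, Finset.sum_mul_sum, Finset.sum_div]
    apply Finset.sum_congr rfl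
    intro i _
    rw [Finset.sum_div]
    apply Finset.sum_congr rfl
    intro j _
    rcases le_total i j with h | h
    · rw [min_eq_left h]
      have h2 : k ≤ U ^ i → k ≤ U ^ j := fun h3 => h3.trans (Nat.pow_le_pow_right hU h)
      by_cases h4 : k ≤ U ^ i
      · simp [h4, h2 h4]
      · simp [h4]
    · rw [min_eq_right h]
      have h2 : k ≤ U ^ j → k ≤ U ^ i := fun h3 => h3.trans (Nat.pow_le_pow_right hU h)
      by_cases h4 : k ≤ U ^ j
      · simp [h4, h2 h4]
      · simp [h4]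
  rw [Finset.sum_congr rfl h1, Finset.sum_comm]
  apply Finset.sum_congr rfl
  intro i hi
  rw [Finset.sum_comm]
  apply Finset.sum_congr rfl
  intro j hj
  rw [Finset.mem_Icc] at hi hj
  rw [← Finset.sum_filter, DD_filter _ _ (Nat.pow_le_pow_right hU (by omega))]

lemma ys_diff_sq (U J k p : ℕ) (hp : 1 ≤ p) :
    (ys U J k - ys U J (k * p)) ^ 2 = ∑ i ∈ Icc 1 J, ∑ j ∈ Icc 1 J,
      if (k ≤ U ^ i ∧ U ^ i < k * p) ∧ (k ≤ U ^ j ∧ U ^ j < k * p) then 1 else 0 := by
  have h1 : ys U J k - ys U J (k * p) = ∑ j ∈ Icc 1 J, if (k ≤ U ^ j ∧ U ^ j < k * p) then 1 else 0 := by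
    unfold ys
    rw [← Finset.sum_sub_distrib]
    apply Finset.sum_congr rfl
    intro j _
    have hk : k ≤ k * p := Nat.le_mul_of_pos_right _ hp
    by_cases h1 : k ≤ U ^ j
    · by_cases h2 : k * p ≤ U ^ j
      · rw [if_pos h1, if_pos h2, if_neg (by omega)]
        norm_num
      · rw [if_pos h1, if_neg h2, if_pos (by omega)]
        norm_num
    · rw [if_neg h1, if_neg (by omega), if_neg (by tauto)]
      norm_num
  rw [h1, sq, Finset.sum_mul_sum]
  apply Finset.sum_congr rfl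
  intro i _
  apply Finset.sum_congr rfl
  intro j _
  by_cases h2 : (k ≤ U ^ i ∧ U ^ i < k * p) <;> by_cases h3 : (k ≤ U ^ j ∧ U ^ j < k * p) <;>
    simp [h2, h3]

/-- difference count for a cell -/
def Acell (J i : ℕ) : ℕ := ∑ j ∈ Icc 1 J, ∑ j' ∈ Icc 1 J, (min j j' - (max j j' - (i + 1)))

/-- `Q_p` for `p ≤ U^{i+1}` -/
lemma Qcell (U J i p : ℕ) (V ε : ℝ) (hU : 1 ≤ U) (hp : 1 ≤ p) (hpi : p ≤ U ^ (i + 1)) (hV : 0 ≤ V)
    (hε : 1 ≤ ε * V) (hG : ∀ j ≤ J, |G5 (U ^ j) - V * j| ≤ ε * V) :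
    ∑ k ∈ DD (U ^ J), (ys U J k - ys U J (k * p)) ^ 2 / (Nat.totient k : ℝ) ≤
      V * ((Acell J i : ℝ) + 3 * ε * J ^ 2) := by
  classical
  have h1 : ∑ k ∈ DD (U ^ J), (ys U J k - ys U J (k * p)) ^ 2 / (Nat.totient k : ℝ) =
      ∑ a ∈ Icc 1 J, ∑ b ∈ Icc 1 J, ∑ k ∈ DD (U ^ J),
        if (k ≤ U ^ a ∧ U ^ a < k * p) ∧ (k ≤ U ^ b ∧ U ^ b < k * p) then 1 / (Nat.totient k : ℝ)
        else 0 := by
    have e1 : ∀ k ∈ DD (U ^ J), (ys U J k - ys U J (k * p)) ^ 2 / (Nat.totient k : ℝ) =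
        ∑ a ∈ Icc 1 J, ∑ b ∈ Icc 1 J, if (k ≤ U ^ a ∧ U ^ a < k * p) ∧ (k ≤ U ^ b ∧ U ^ b < k * p)
          then 1 / (Nat.totient k : ℝ) else 0 := by
      intro k _
      rw [ys_diff_sq U J k p hp, Finset.sum_div]
      apply Finset.sum_congr rfl
      intro a _
      rw [Finset.sum_div]
      apply Finset.sum_congr rfl
      intro b _
      split_ifs <;> simp
    rw [Finset.sum_congr rfl e1, Finset.sum_comm]
    apply Finset.sum_congr rfl
    intro a _
    exact Finset.sum_comm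
  rw [h1]
  have h2 : ∀ a ∈ Icc 1 J, ∀ b ∈ Icc 1 J, (∑ k ∈ DD (U ^ J),
        if (k ≤ U ^ a ∧ U ^ a < k * p) ∧ (k ≤ U ^ b ∧ U ^ b < k * p) then 1 / (Nat.totient k : ℝ)
        else 0) ≤ V * ((min a b - (max a b - (i + 1)) : ℕ) : ℝ) + 3 * ε * V := by
    intro a ha b hb
    rw [Finset.mem_Icc] at ha hb
    set s := min a b with hs
    set c := max a b - (i + 1) with hc
    have hsJ : s ≤ J := by omega
    have hcJ : c ≤ J := by omega
    rw [← Finset.sum_filter]
    have hsub : (DD (U ^ J)).filter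
        (fun k => (k ≤ U ^ a ∧ U ^ a < k * p) ∧ (k ≤ U ^ b ∧ U ^ b < k * p)) ⊆
        insert 1 (DD (U ^ s) \ DD (U ^ c)) := by
      intro k hk
      rw [Finset.mem_filter] at hk
      obtain ⟨hkD, ⟨h3, h4⟩, h5, h6⟩ := hk
      rw [Finset.mem_insert]
      by_cases hk1 : k = 1
      · left; exact hk1
      right
      have hk' := (mem_DD _ k).mp hkD
      rw [Finset.mem_sdiff, mem_DD, mem_DD]
      constructor
      · refine ⟨⟨hk'.1.1, ?_⟩, hk'.2⟩
        rcases le_total a b with h | h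
        · rw [hs, min_eq_left h]; exact h3
        · rw [hs, min_eq_right h]; exact h5
      · rintro ⟨⟨_, h7⟩, _⟩
        by_cases hci : i + 1 ≤ max a b
        · have h8 : U ^ (max a b) < k * p := by
            rcases le_total a b with h | h
            · rw [max_eq_right h]; exact h6
            · rw [max_eq_left h]; exact h4
          have h9 : k * p ≤ U ^ c * U ^ (i + 1) := Nat.mul_le_mul h7 hpi
          rw [← pow_add, show c + (i + 1) = max a b by omega] at h9
          omega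
        · have : c = 0 := by omega
          rw [this, pow_zero] at h7
          omega
    have h3 : ∑ k ∈ (DD (U ^ J)).filter
        (fun k => (k ≤ U ^ a ∧ U ^ a < k * p) ∧ (k ≤ U ^ b ∧ U ^ b < k * p)),
          1 / (Nat.totient k : ℝ) ≤ 1 + ∑ k ∈ DD (U ^ s) \ DD (U ^ c), 1 / (Nat.totient k : ℝ) := by
      refine (Finset.sum_le_sum_of_subset_of_nonneg hsub (fun _ _ _ => by positivity)).trans ?_
      by_cases hmem : 1 ∈ DD (U ^ s) \ DD (U ^ c)
      · rw [Finset.insert_eq_of_mem hmem]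
        linarith
      · rw [Finset.sum_insert hmem]
        simp
    refine h3.trans ?_
    rcases le_total c s with hcs | hcs
    · have hDsub : DD (U ^ c) ⊆ DD (U ^ s) := by
        intro k hk
        rw [mem_DD] at hk ⊢
        exact ⟨⟨hk.1.1, hk.1.2.trans (Nat.pow_le_pow_right hU hcs)⟩, hk.2⟩
      have h4 : ∑ k ∈ DD (U ^ s) \ DD (U ^ c), 1 / (Nat.totient k : ℝ) = G5 (U ^ s) - G5 (U ^ c) := by
        unfold G5
        rw [eq_sub_iff_add_eq]
        exact Finset.sum_sdiff hDsub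
      rw [h4, Nat.cast_sub hcs]
      have h5 := (abs_le.mp (hG s hsJ)).2
      have h6 := (abs_le.mp (hG c hcJ)).1
      nlinarith
    · have h4 : DD (U ^ s) \ DD (U ^ c) = ∅ := by
        rw [Finset.sdiff_eq_empty_iff_subset]
        intro k hk
        rw [mem_DD] at hk ⊢
        exact ⟨⟨hk.1.1, hk.1.2.trans (Nat.pow_le_pow_right hU hcs)⟩, hk.2⟩
      rw [h4, Finset.sum_empty]
      have : (0 : ℝ) ≤ V * ((s - c : ℕ) : ℝ) := by positivity
      linarith
  calc ∑ a ∈ Icc 1 J, ∑ b ∈ Icc 1 J, ∑ k ∈ DD (U ^ J),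
        (if (k ≤ U ^ a ∧ U ^ a < k * p) ∧ (k ≤ U ^ b ∧ U ^ b < k * p) then 1 / (Nat.totient k : ℝ)
        else 0)
      ≤ ∑ a ∈ Icc 1 J, ∑ b ∈ Icc 1 J, (V * ((min a b - (max a b - (i + 1)) : ℕ) : ℝ) + 3 * ε * V) :=
        Finset.sum_le_sum fun a ha => Finset.sum_le_sum fun b hb => h2 a ha b hb
    _ = V * ((Acell J i : ℝ) + 3 * ε * J ^ 2) := by
        unfold Acell
        simp only [Finset.sum_add_distrib, Finset.sum_const, Nat.card_Icc, Nat.add_sub_cancel,
          nsmul_eq_mul, ← Finset.mul_sum]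
        push_cast
        ring

end Pool.Agent.Helper10.P5
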