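import Pool.Agent.Helper10.P5.Sv2

/-! First cell, the value at primes of the weights, size of the divisor sum on sifted numbers. -/

namespace Pool.Agent.Helper10.P5

open Finset Pool.Agent.Helper10

lemma DD_mono (Y Y' : ℕ) (h : Y ≤ Y') : DD Y ⊆ DD Y' := by
  intro k hk
  rw [mem_DD] at hk ⊢
  exact ⟨⟨hk.1.1, hk.1.2.trans h⟩, hk.2⟩

/-- `Q_p` for `p ≤ U` -/
lemma Qfirst (U J p : ℕ) (C : ℝ) (hU : 1 ≤ U) (hp : 1 ≤ p) (hpU : p ≤ U)
    (hG : ∀ t : ℕ, 1 ≤ t → 2 / 5 * Real.log t - C ≤ G5 t ∧ G5 t ≤ 2 / 5 * Real.log t + C) :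
    ∑ k ∈ DD (U ^ J), (ys U J k - ys U J (k * p)) ^ 2 / (Nat.totient k : ℝ) ≤
      J * (2 / 5 * Real.log p + (2 / 5 * Real.log 2 + 2 * C)) := by
  classical
  have h1 : ∑ k ∈ DD (U ^ J), (ys U J k - ys U J (k * p)) ^ 2 / (Nat.totient k : ℝ) =
      ∑ a ∈ Icc 1 J, ∑ b ∈ Icc 1 J, ∑ k ∈ DD (U ^ J),
        if (k ≤ U ^ a ∧ U ^ a < k * p) ∧ (k ≤ U ^ b ∧ U ^ b < k * p) then 1 / (Nat.totient k : ℝ)
        else 0 := by
    have e1 : ∀ k ∈ DD (U ^ J), (ys U J k - ys U J (k * p)) ^ 2 / (Nat.totient k : ℝ) =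
        ∑ a ∈ Icc 1 J, ∑ b ∈ Icc 1 J, if (k ≤ U ^ a ∧ U ^ a < k * p) ∧ (k ≤ U ^ b ∧ U ^ b < k * p)
          then 1 / (Nat.totient k : ℝ) else 0 := by
      intro k _
      rw [ys_diff_sq U J k p hp, Finset.sum_div]
      apply Finset.sum_congr rfl
      intro a _
      rw [Finset.sum_div]
      apply Finset.sum_congr rfl
      intro b _
      split_ifs <;> simp
    rw [Finset.sum_congr rfl e1, Finset.sum_comm]
    apply Finset.sum_congr rfl
    intro a _
    exact Finset.sum_comm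
  rw [h1]
  have hlogp : 0 ≤ Real.log p := Real.log_natCast_nonneg p
  have hC0 : 0 ≤ C := by
    have := hG 1 (le_refl 1)
    simp only [Nat.cast_one, Real.log_one, mul_zero, zero_sub, zero_add] at this
    linarith [this.1, this.2]
  have hlog2 : 0 ≤ Real.log 2 := Real.log_nonneg (by norm_num)
  have hnot : ∀ a b k : ℕ, a < b → k ≤ U ^ a → U ^ b < k * p → False := by
    intro a b k hab h2 h3
    have h4 : k * p ≤ U ^ a * U := Nat.mul_le_mul h2 hpU
    rw [← pow_succ] at h4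
    have h5 : U ^ (a + 1) ≤ U ^ b := Nat.pow_le_pow_right hU hab
    omega
  have hcell : ∀ a ∈ Icc 1 J, ∑ b ∈ Icc 1 J, ∑ k ∈ DD (U ^ J),
        (if (k ≤ U ^ a ∧ U ^ a < k * p) ∧ (k ≤ U ^ b ∧ U ^ b < k * p) then 1 / (Nat.totient k : ℝ)
        else 0) ≤ 2 / 5 * Real.log p + (2 / 5 * Real.log 2 + 2 * C) := by
    intro a ha
    have ha' := Finset.mem_Icc.mp ha
    have h2 : ∀ b ∈ Icc 1 J, b ≠ a → ∑ k ∈ DD (U ^ J),
        (if (k ≤ U ^ a ∧ U ^ a < k * p) ∧ (k ≤ U ^ b ∧ U ^ b < k * p) then 1 / (Nat.totient k : ℝ)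
        else 0) = 0 := by
      intro b _ hba
      apply Finset.sum_eq_zero
      intro k _
      rw [if_neg]
      rintro ⟨⟨h3, h4⟩, h5, h6⟩
      rcases Nat.lt_or_gt_of_ne hba with h | h
      · exact hnot b a k h h5 h4
      · exact hnot a b k h h3 h6
    rw [Finset.sum_eq_single_of_mem a ha h2]
    have h3 : ∀ k ∈ DD (U ^ J), (if (k ≤ U ^ a ∧ U ^ a < k * p) ∧ (k ≤ U ^ a ∧ U ^ a < k * p) then
        1 / (Nat.totient k : ℝ) else 0) = if (k ≤ U ^ a ∧ U ^ a < k * p) then
        1 / (Nat.totient k : ℝ) else 0 := by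
      intro k _
      simp only [and_self]
    rw [Finset.sum_congr rfl h3, ← Finset.sum_filter]
    set v := U ^ a / p with hv
    have hpa : p ≤ U ^ a := hpU.trans (by
      calc U = U ^ 1 := (pow_one U).symm
        _ ≤ U ^ a := Nat.pow_le_pow_right hU ha'.1)
    have hv1 : 1 ≤ v := (Nat.one_le_div_iff (by omega)).mpr hpa
    have hsub : (DD (U ^ J)).filter (fun k => k ≤ U ^ a ∧ U ^ a < k * p) ⊆ DD (U ^ a) \ DD v := by
      intro k hk
      rw [Finset.mem_filter] at hk
      obtain ⟨hkD, h4, h5⟩ := hk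
      have hk' := (mem_DD _ k).mp hkD
      rw [Finset.mem_sdiff, mem_DD, mem_DD]
      refine ⟨⟨⟨hk'.1.1, h4⟩, hk'.2⟩, ?_⟩
      rintro ⟨⟨_, h6⟩, _⟩
      have h7 : k * p ≤ v * p := Nat.mul_le_mul_right p h6
      have h8 : v * p ≤ U ^ a := Nat.div_mul_le_self _ _
      omega
    have hDsub : DD v ⊆ DD (U ^ a) := DD_mono _ _ (Nat.div_le_self _ _)
    have h4 : ∑ k ∈ DD (U ^ a) \ DD v, 1 / (Nat.totient k : ℝ) = G5 (U ^ a) - G5 v := by
      unfold G5
      rw [eq_sub_iff_add_eq]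
      exact Finset.sum_sdiff hDsub
    refine (Finset.sum_le_sum_of_subset_of_nonneg hsub (fun _ _ _ => by positivity)).trans ?_
    rw [h4]
    have h5 := (hG (U ^ a) (by omega)).2
    have h6 := (hG v hv1).1
    have h7 : Real.log ((U ^ a : ℕ) : ℝ) ≤ Real.log 2 + (Real.log p + Real.log v) := by
      have hp0 : (0 : ℝ) < p := by exact_mod_cast hp
      have hv0 : (0 : ℝ) < v := by exact_mod_cast hv1
      rw [← Real.log_mul hp0.ne' hv0.ne', ← Real.log_mul (by norm_num) (by positivity)]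
      have hU0 : 0 < U ^ a := by positivity
      apply Real.log_le_log (by exact_mod_cast hU0)
      have h8 : U ^ a < p * (v + 1) := by
        have := Nat.lt_mul_div_succ (U ^ a) (show 0 < p by omega)
        exact this
      have h9 : U ^ a ≤ 2 * (p * v) := by nlinarith
      exact_mod_cast h9
    linarith
  calc ∑ a ∈ Icc 1 J, ∑ b ∈ Icc 1 J, ∑ k ∈ DD (U ^ J),
        (if (k ≤ U ^ a ∧ U ^ a < k * p) ∧ (k ≤ U ^ b ∧ U ^ b < k * p) then 1 / (Nat.totient k : ℝ)
        else 0) ≤ ∑ a ∈ Icc 1 J, (2 / 5 * Real.log p + (2 / 5 * Real.log 2 + 2 * C)) :=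
        Finset.sum_le_sum hcell
    _ = J * (2 / 5 * Real.log p + (2 / 5 * Real.log 2 + 2 * C)) := by
        rw [Finset.sum_const, Nat.card_Icc, Nat.add_sub_cancel, nsmul_eq_mul]

/-- the weights at primes are nonpositive and small -/
lemma lm_prime (U J a q : ℕ) (hU : 1 ≤ U) (hq : q.Prime) (hqa : U ^ a < q)
    (_haJ : a ≤ J) :
    lm (U ^ J) (ys U J) q ≤ 0 ∧
      -lm (U ^ J) (ys U J) q ≤ (q : ℝ) / (q - 1) * ∑ j ∈ Icc (a + 1) J, G5 (U ^ (j - a)) := by
  classical
  have hq1 : (1 : ℝ) < q := by exact_mod_cast hq.one_lt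
  have hmu : ((ArithmeticFunction.moebius q : ℤ) : ℝ) = -1 := by
    rw [ArithmeticFunction.moebius_apply_prime hq]
    norm_num
  have hS0 : 0 ≤ ∑ k ∈ (DD (U ^ J)).filter (fun k => q ∣ k), ys U J k / (Nat.totient k : ℝ) := by
    apply Finset.sum_nonneg
    intro k _
    have := ys_nonneg U J k
    positivity
  unfold lm
  rw [hmu]
  constructor
  · have : 0 ≤ (q : ℝ) * ∑ k ∈ (DD (U ^ J)).filter (fun k => q ∣ k),
        ys U J k / (Nat.totient k : ℝ) := by positivity
    linarith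
  · have h1 : ∑ k ∈ (DD (U ^ J)).filter (fun k => q ∣ k), ys U J k / (Nat.totient k : ℝ) ≤
        (1 / ((q : ℝ) - 1)) * ∑ j ∈ Icc (a + 1) J, G5 (U ^ (j - a)) := by
      have e1 : ∑ k ∈ (DD (U ^ J)).filter (fun k => q ∣ k), ys U J k / (Nat.totient k : ℝ) =
          ∑ j ∈ Icc 1 J, ∑ k ∈ ((DD (U ^ J)).filter (fun k => q ∣ k)).filter (fun k => k ≤ U ^ j),
            1 / (Nat.totient k : ℝ) := by
        unfold ys
        have e2 : ∀ k ∈ (DD (U ^ J)).filter (fun k => q ∣ k),
            (∑ j ∈ Icc 1 J, if k ≤ U ^ j then (1 : ℝ) else 0) / (Nat.totient k : ℝ) =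
            ∑ j ∈ Icc 1 J, if k ≤ U ^ j then 1 / (Nat.totient k : ℝ) else 0 := by
          intro k _
          rw [Finset.sum_div]
          apply Finset.sum_congr rfl
          intro j _
          split_ifs <;> simp
        rw [Finset.sum_congr rfl e2, Finset.sum_comm]
        apply Finset.sum_congr rfl
        intro j _
        rw [← Finset.sum_filter]
      rw [e1, Finset.mul_sum]
      have hsubJ : Icc (a + 1) J ⊆ Icc 1 J := Finset.Icc_subset_Icc (by omega) (le_refl J)
      rw [← Finset.sum_subset hsubJ]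
      · apply Finset.sum_le_sum
        intro j hj
        rw [Finset.mem_Icc] at hj
        have e3 : ∀ k ∈ ((DD (U ^ J)).filter (fun k => q ∣ k)).filter (fun k => k ≤ U ^ j),
            1 / (Nat.totient k : ℝ) = (1 / ((q : ℝ) - 1)) * (1 / (Nat.totient (k / q) : ℝ)) := by
          intro k hk
          rw [Finset.mem_filter, Finset.mem_filter, mem_DD] at hk
          obtain ⟨⟨⟨_, hsq, _⟩, hqk⟩, _⟩ := hk
          obtain ⟨l, rfl⟩ := hqk
          rw [Nat.mul_div_cancel_left l hq.pos]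
          have hcop : Nat.Coprime q l := Nat.coprime_of_squarefree_mul hsq
          rw [Nat.totient_mul hcop, Nat.totient_prime hq]
          push_cast
          rw [Nat.cast_sub hq.pos]
          push_cast
          rw [one_div_mul_one_div]
        rw [Finset.sum_congr rfl e3, ← Finset.mul_sum]
        apply mul_le_mul_of_nonneg_left _ (by
          have : 0 < (q : ℝ) - 1 := by linarith
          positivity)
        rw [← Finset.sum_image
          (s := ((DD (U ^ J)).filter (fun k => q ∣ k)).filter (fun k => k ≤ U ^ j))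
          (g := fun k => k / q) (f := fun e : ℕ => 1 / (Nat.totient e : ℝ))]
        · unfold G5
          apply Finset.sum_le_sum_of_subset_of_nonneg
          · intro e he
            rw [Finset.mem_image] at he
            obtain ⟨k, hk, rfl⟩ := he
            rw [Finset.mem_filter, Finset.mem_filter] at hk
            obtain ⟨⟨hkD, hqk⟩, hkj⟩ := hk
            have h2 := (mem_DD _ _).mp (dvd_mem_DD _ k _ hkD (Nat.div_dvd_of_dvd hqk))
            rw [mem_DD]
            refine ⟨⟨h2.1.1, ?_⟩, h2.2⟩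
            obtain ⟨l, rfl⟩ := hqk
            rw [Nat.mul_div_cancel_left l hq.pos]
            by_contra hcon
            push Not at hcon
            have h3 : U ^ a * U ^ (j - a) < q * l := by
              calc U ^ a * U ^ (j - a) ≤ q * U ^ (j - a) := Nat.mul_le_mul_right _ hqa.le
                _ < q * l := Nat.mul_lt_mul_of_pos_left hcon hq.pos
            rw [← pow_add, show a + (j - a) = j by omega] at h3
            omega
          · intro _ _ _
            positivity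
        · intro x hx z hz hxz
          rw [Finset.mem_coe, Finset.mem_filter, Finset.mem_filter] at hx hz
          simp only at hxz
          rw [← Nat.div_mul_cancel hx.1.2, ← Nat.div_mul_cancel hz.1.2, hxz]
      · intro j hj hj2
        rw [Finset.mem_Icc] at hj hj2
        apply Finset.sum_eq_zero
        intro k hk
        exfalso
        rw [Finset.mem_filter, Finset.mem_filter, mem_DD] at hk
        obtain ⟨⟨⟨hk1, _⟩, hqk⟩, hkj⟩ := hk
        have h3 : q ≤ k := Nat.le_of_dvd (by omega) hqk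
        have h4 : U ^ j ≤ U ^ a := Nat.pow_le_pow_right hU (by omega)
        omega
    calc -(-1 * (q : ℝ) * ∑ k ∈ (DD (U ^ J)).filter (fun k => q ∣ k), ys U J k / (Nat.totient k : ℝ))
        = (q : ℝ) * ∑ k ∈ (DD (U ^ J)).filter (fun k => q ∣ k), ys U J k / (Nat.totient k : ℝ) := by
          ring
      _ ≤ (q : ℝ) * ((1 / ((q : ℝ) - 1)) * ∑ j ∈ Icc (a + 1) J, G5 (U ^ (j - a))) :=
          mul_le_mul_of_nonneg_left h1 (by positivity)
      _ = (q : ℝ) / (q - 1) * ∑ j ∈ Icc (a + 1) J, G5 (U ^ (j - a)) := by ring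

/-- a finite set of primes dividing `n`, all larger than `B`, is small -/
lemma primes_card_le (n B k : ℕ) (hn : 0 < n) (hB : 1 ≤ B) (hnB : n < B ^ (k + 1)) (P : Finset ℕ)
    (hP : ∀ p ∈ P, p.Prime ∧ p ∣ n ∧ B ≤ p) : P.card ≤ k := by
  by_contra hcon
  push Not at hcon
  have h1 : ∏ p ∈ P, p ∣ n := by
    apply Finset.prod_primes_dvd
    · intro p hp
      exact (hP p hp).1.prime
    · intro p hp
      exact (hP p hp).2.1
  have h2 : B ^ P.card ≤ ∏ p ∈ P, p := by
    rw [← Finset.prod_const]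
    apply Finset.prod_le_prod'
    intro p hp
    exact (hP p hp).2.2
  have h3 := Nat.le_of_dvd hn h1
  have h4 : B ^ (k + 1) ≤ B ^ P.card := Nat.pow_le_pow_right hB hcon
  omega

/-- on sifted numbers the divisor sum is bounded by its value at `1` -/
lemma wt5_abs_le (U J a k n : ℕ) (hU : 2 ≤ U) (ha : 1 ≤ a) (haJ : a ≤ J) (hJ : J < 2 * a)
    (hn : 0 < n) (hnU : n < (U ^ a) ^ (k + 1))
    (hs : ∀ p : ℕ, p.Prime → p.Coprime 10 → p < U ^ a → ¬ p ∣ n)
    (hk : (k : ℝ) * (((U : ℝ) ^ a) / ((U : ℝ) ^ a - 1) * ∑ j ∈ Icc (a + 1) J, G5 (U ^ (j - a))) ≤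
      2 * ∑ j ∈ Icc 1 J, G5 (U ^ j)) (hUa : ¬ (U ^ a).Prime) :
    |wt5 (U ^ J) (ys U J) n| ≤ ∑ j ∈ Icc 1 J, G5 (U ^ j) := by
  classical
  have hU1 : 1 ≤ U := by omega
  have hYpos : 1 ≤ U ^ J := Nat.one_le_pow _ _ hU1
  have hUa2 : 2 ≤ U ^ a := by
    calc 2 ≤ U := hU
      _ = U ^ 1 := (pow_one U).symm
      _ ≤ U ^ a := Nat.pow_le_pow_right hU1 ha
  set P : Finset ℕ := ((DD (U ^ J)).filter (fun d => d ∣ n)).erase 1 with hP
  have hPprime : ∀ d ∈ P, d.Prime ∧ d ∣ n ∧ U ^ a < d := by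
    intro d hd
    rw [hP, Finset.mem_erase, Finset.mem_filter, mem_DD] at hd
    obtain ⟨hd1, ⟨⟨hd0, hdY⟩, hsq, hd10⟩, hdn⟩ := hd
    have hmf := Nat.minFac_prime hd1
    have hmd := Nat.minFac_dvd d
    have key : ∀ p : ℕ, p.Prime → p ∣ d → U ^ a < p := by
      intro p hp hpd
      have h1 : U ^ a ≤ p := by
        by_contra hcon
        push Not at hcon
        exact hs p hp (Nat.Coprime.coprime_dvd_left hpd hd10) hcon (hpd.trans hdn)
      rcases Nat.lt_or_ge (U ^ a) p with h2 | h2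
      · exact h2
      · exfalso
        have : U ^ a = p := by omega
        rw [this] at hUa
        exact hUa hp
    have hprime : d.Prime := by
      obtain ⟨e, he⟩ := hmd
      by_cases he1 : e = 1
      · rw [he1, mul_one] at he
        rw [he]
        exact hmf
      · exfalso
        have hmf2 := Nat.minFac_prime he1
        have hmd2 := Nat.minFac_dvd e
        have hed : e ∣ d := Dvd.intro_left _ he.symm
        have h3 := key _ hmf (Nat.minFac_dvd d)
        have h4 := key _ hmf2 (hmd2.trans hed)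
        have he0 : 0 < e := Nat.pos_of_dvd_of_pos hed (by omega)
        have h5 : U ^ a < e := h4.trans_le (Nat.minFac_le he0)
        have h6 : U ^ a * U ^ a < d := by
          rw [he]
          exact Nat.mul_lt_mul'' h3 h5
        rw [← pow_add] at h6
        have h7 : U ^ J ≤ U ^ (a + a) := Nat.pow_le_pow_right hU1 (by omega)
        omega
    exact ⟨hprime, hdn, key d hprime (dvd_refl d)⟩
  have hcard : P.card ≤ k := by
    apply primes_card_le n (U ^ a) k hn (by omega) hnU P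
    intro p hp
    obtain ⟨h1, h2, h3⟩ := hPprime p hp
    exact ⟨h1, h2, h3.le⟩
  have h1mem : 1 ∈ (DD (U ^ J)).filter (fun d => d ∣ n) :=
    Finset.mem_filter.mpr ⟨one_mem_DD _ hYpos, one_dvd _⟩
  have hwt : wt5 (U ^ J) (ys U J) n = lm (U ^ J) (ys U J) 1 + ∑ q ∈ P, lm (U ^ J) (ys U J) q := by
    unfold wt5
    rw [← Finset.add_sum_erase _ _ h1mem]
  rw [hwt, ys_lm_one U J hU1]
  set L1 := ∑ j ∈ Icc 1 J, G5 (U ^ j) with hL1
  set R := ∑ j ∈ Icc (a + 1) J, G5 (U ^ (j - a)) with hR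
  have hR0 : 0 ≤ R := Finset.sum_nonneg fun _ _ => G5_nonneg _
  have hUaR : (1 : ℝ) < (U : ℝ) ^ a := by exact_mod_cast hUa2
  set ρ := ((U : ℝ) ^ a) / ((U : ℝ) ^ a - 1) with hρ
  have hρ0 : 0 ≤ ρ := by
    rw [hρ]
    have : 0 < (U : ℝ) ^ a - 1 := by linarith
    positivity
  have hup : ∑ q ∈ P, lm (U ^ J) (ys U J) q ≤ 0 := by
    apply Finset.sum_nonpos
    intro q hq
    obtain ⟨h1, h2, h3⟩ := hPprime q hq
    exact (lm_prime U J a q hU1 h1 h3 haJ).1
  have hlo : -∑ q ∈ P, lm (U ^ J) (ys U J) q ≤ 2 * L1 := by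
    rw [← Finset.sum_neg_distrib]
    calc ∑ q ∈ P, -lm (U ^ J) (ys U J) q ≤ ∑ q ∈ P, ρ * R := by
          apply Finset.sum_le_sum
          intro q hq
          obtain ⟨h1, h2, h3⟩ := hPprime q hq
          refine (lm_prime U J a q hU1 h1 h3 haJ).2.trans ?_
          apply mul_le_mul_of_nonneg_right _ hR0
          have hqR : (U : ℝ) ^ a < q := by exact_mod_cast h3
          rw [hρ, div_le_div_iff₀ (by linarith) (by linarith)]
          nlinarith
      _ = P.card * (ρ * R) := by rw [Finset.sum_const, nsmul_eq_mul]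
      _ ≤ k * (ρ * R) := by
          apply mul_le_mul_of_nonneg_right _ (mul_nonneg hρ0 hR0)
          exact_mod_cast hcard
      _ ≤ 2 * L1 := hk
  rw [abs_le]
  constructor <;> linarith

end Pool.Agent.Helper10.P5
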